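import Mathlib

set_option autoImplicit false

namespace Pool.Agent.P.MP_416653_co

open Finset

set_option linter.unusedSectionVars false

/-- average of a real function on a finite type -/
noncomputable def av {A : Type} [Fintype A] (f : A → ℝ) : ℝ := (∑ a, f a) / (Fintype.card A : ℝ)

section
variable {A B : Type} [Fintype A] [Fintype B]

theorem av_mono {f g : A → ℝ} (h : ∀ a, f a ≤ g a) : av f ≤ av g := by
  unfold av
  gcongr with a
  exact h a

theorem av_add (f g : A → ℝ) : av (fun a => f a + g a) = av f + av g := by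
  unfold av
  rw [Finset.sum_add_distrib, add_div]

theorem av_mul (c : ℝ) (f : A → ℝ) : av (fun a => c * f a) = c * av f := by
  unfold av
  rw [← Finset.mul_sum, mul_div_assoc]

theorem av_const [Nonempty A] (c : ℝ) : av (fun _ : A => c) = c := by
  unfold av
  have : (Fintype.card A : ℝ) ≠ 0 := by exact_mod_cast Fintype.card_ne_zero
  simp

theorem av_sum {ι : Type} (s : Finset ι) (f : ι → A → ℝ) :
    av (fun a => ∑ i ∈ s, f i a) = ∑ i ∈ s, av (f i) := by
  unfold av
  rw [Finset.sum_comm, Finset.sum_div]

theorem exists_le_av [Nonempty A] (f : A → ℝ) : ∃ a, f a ≤ av f := by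
  by_contra h
  push Not at h
  have h1 : ∑ _a : A, av f < ∑ a, f a :=
    Finset.sum_lt_sum_of_nonempty Finset.univ_nonempty (fun a _ => h a)
  have : (Fintype.card A : ℝ) ≠ 0 := by exact_mod_cast Fintype.card_ne_zero
  have h2 : ∑ _a : A, av f = ∑ a, f a := by
    unfold av
    simp
    field_simp
  linarith

theorem av_comp_surj [AddCommGroup A] [AddCommGroup B] (φ : A →+ B)
    (hφ : Function.Surjective φ) (f : B → ℝ) : av (fun a => f (φ a)) = av f := by
  classical
  have hfib : ∀ b : B, (univ.filter (fun a => φ a = b)).card =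
      (univ.filter (fun a => φ a = 0)).card := by
    intro b
    exact AddMonoidHom.card_fiber_eq_of_mem_range φ (hφ b) (hφ 0)
  set m := (univ.filter (fun a => φ a = 0)).card with hm
  have h1 : ∀ g : B → ℝ, ∑ a, g (φ a) = m * ∑ b, g b := by
    intro g
    rw [← Finset.sum_fiberwise (s := univ) (g := φ), Finset.mul_sum]
    refine Finset.sum_congr rfl fun b _ => ?_
    rw [Finset.sum_congr rfl (g := fun _ => g b)]
    · simp [hfib b]
    · intro a ha
      rw [(Finset.mem_filter.1 ha).2]
  have h2 := h1 (fun _ => 1)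
  simp only [sum_const, card_univ, nsmul_eq_mul, mul_one] at h2
  have hm0 : (m : ℝ) ≠ 0 := by
    have : (Fintype.card A : ℝ) ≠ 0 := by exact_mod_cast Fintype.card_ne_zero
    intro h0
    rw [h0, zero_mul] at h2
    exact this h2
  unfold av
  rw [h1, h2, mul_div_mul_left _ _ hm0]

end

/-- Cauchy-Schwarz over the fibres of a map -/
theorem sq_sum_le_fib {ι K : Type} [Fintype K] [DecidableEq K] (s : Finset ι) (g : ι → K)
    (u : ι → ℝ) :
    (∑ i ∈ s, u i) ^ 2 ≤
      (Fintype.card K : ℝ) * ∑ i ∈ s, ∑ j ∈ s, u i * u j * (if g i = g j then 1 else 0) := by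
  have h1 : ∑ i ∈ s, u i = ∑ k : K, ∑ i ∈ s, (if g i = k then u i else 0) := by
    rw [Finset.sum_comm]
    simp
  have h2 : ∑ i ∈ s, ∑ j ∈ s, u i * u j * (if g i = g j then 1 else 0) =
      ∑ k : K, (∑ i ∈ s, (if g i = k then u i else 0)) ^ 2 := by
    simp only [sq, Finset.sum_mul_sum]
    rw [Finset.sum_comm (s := univ)]
    refine Finset.sum_congr rfl fun i _ => ?_
    rw [Finset.sum_comm (s := univ)]
    refine Finset.sum_congr rfl fun j _ => ?_
    rw [Finset.sum_eq_single (g i)]
    · by_cases h : g i = g j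
      · simp [h]
      · simp [h, Ne.symm h]
    · intro k _ hk
      simp [Ne.symm hk]
    · simp
  rw [h1, h2]
  have := sq_sum_le_card_mul_sum_sq (s := (univ : Finset K))
    (f := fun k => ∑ i ∈ s, (if g i = k then u i else 0))
  simpa using this

end Pool.Agent.P.MP_416653_co
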