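import Mathlib
import Pool.Agent.P.MP_416653_co.Avg

set_option autoImplicit false

namespace Pool.Agent.P.MP_416653_co

open Finset Matrix

set_option linter.unusedSectionVars false

variable {F : Type} [Field F] [Fintype F] [DecidableEq F]

/-- points of the affine part of an elliptic quadric -/
def qp (d : F) (z : F × F) : Fin 3 → F := ![z.1, z.2, z.1 ^ 2 - d * z.2 ^ 2]

theorem qp_inj (d : F) : Function.Injective (qp d) := by
  intro z z' h
  have h0 := congrFun h 0
  have h1 := congrFun h 1
  simp [qp] at h0 h1
  exact Prod.ext h0 h1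

theorem aniso {d : F} (hd : ¬ IsSquare d) {x y : F} (h : x ^ 2 - d * y ^ 2 = 0) :
    x = 0 ∧ y = 0 := by
  by_cases hy : y = 0
  · subst hy
    simp at h
    exact ⟨h, rfl⟩
  · exfalso
    apply hd
    refine ⟨x / y, ?_⟩
    field_simp
    linear_combination -h

/-- plane sections have at most q + 2 points -/
theorem plane_count {d : F} (hd : ¬ IsSquare d) (a : F) (w : Fin 3 → F) (hw : (a, w) ≠ 0) :
    (univ.filter (fun z : F × F => a + w ⬝ᵥ qp d z = 0)).card ≤ Fintype.card F + 2 := by
  have hdot : ∀ z : F × F, w ⬝ᵥ qp d z = w 0 * z.1 + w 1 * z.2 + w 2 * (z.1 ^ 2 - d * z.2 ^ 2) := by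
    intro z
    simp [dotProduct, Fin.sum_univ_three, qp]
  set S := univ.filter (fun z : F × F => a + w ⬝ᵥ qp d z = 0) with hS
  have hmem : ∀ z : F × F, z ∈ S ↔
      a + (w 0 * z.1 + w 1 * z.2 + w 2 * (z.1 ^ 2 - d * z.2 ^ 2)) = 0 := by
    intro z
    simp [hS, hdot]
  by_cases h2 : w 2 = 0
  · by_cases h1 : w 1 = 0
    · by_cases h0 : w 0 = 0
      · have ha : a ≠ 0 := by
          intro ha
          apply hw
          ext i
          · exact ha
          · fin_cases i <;> simp [h0, h1, h2]
        have : S = ∅ := by
          ext z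
          simp [hmem, h0, h1, h2, ha]
        simp [this]
      · have : S.card ≤ (univ : Finset F).card := by
          refine Finset.card_le_card_of_injOn (fun z => z.2) (fun _ _ => Finset.mem_coe.2 (mem_univ _)) ?_
          intro z hz z' hz' h
          have e1 := (hmem z).1 hz
          have e2 := (hmem z').1 hz'
          simp only at h
          rw [h1, h2] at e1 e2
          refine Prod.ext ?_ h
          have : w 0 * (z.1 - z'.1) = 0 := by linear_combination e1 - e2
          rcases mul_eq_zero.1 this with h3 | h3
          · exact absurd h3 h0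
          · exact sub_eq_zero.1 h3
        simp only [card_univ] at this
        omega
    · have : S.card ≤ (univ : Finset F).card := by
        refine Finset.card_le_card_of_injOn (fun z => z.1) (fun _ _ => Finset.mem_coe.2 (mem_univ _)) ?_
        intro z hz z' hz' h
        have e1 := (hmem z).1 hz
        have e2 := (hmem z').1 hz'
        simp only at h
        rw [h2] at e1 e2
        refine Prod.ext h ?_
        have : w 1 * (z.2 - z'.2) = 0 := by
          rw [h] at e1
          linear_combination e1 - e2
        rcases mul_eq_zero.1 this with h3 | h3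
        · exact absurd h3 h1
        · exact sub_eq_zero.1 h3
      simp only [card_univ] at this
      omega
  · rcases S.eq_empty_or_nonempty with hE | ⟨z0, hz0⟩
    · simp [hE]
    · have e0 := (hmem z0).1 hz0
      have key : (S.erase z0).card ≤ (univ : Finset (Option F)).card := by
        refine Finset.card_le_card_of_injOn
          (fun z => if z.1 = z0.1 then none else some ((z.2 - z0.2) / (z.1 - z0.1)))
          (fun _ _ => Finset.mem_coe.2 (mem_univ _)) ?_
        intro z hz z' hz' h
        have hz1 := Finset.mem_erase.1 (Finset.mem_coe.1 hz)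
        have hz1' := Finset.mem_erase.1 (Finset.mem_coe.1 hz')
        have e1 := (hmem z).1 hz1.2
        have e2 := (hmem z').1 hz1'.2
        simp only at h
        -- find mu with z' - z0 = mu (z - z0)
        have hne : ¬ (z.1 - z0.1 = 0 ∧ z.2 - z0.2 = 0) := by
          rintro ⟨a1, a2⟩
          exact hz1.1 (Prod.ext (sub_eq_zero.1 a1) (sub_eq_zero.1 a2))
        have hne' : ¬ (z'.1 - z0.1 = 0 ∧ z'.2 - z0.2 = 0) := by
          rintro ⟨a1, a2⟩
          exact hz1'.1 (Prod.ext (sub_eq_zero.1 a1) (sub_eq_zero.1 a2))
        have hmu : ∃ mu : F, z'.1 - z0.1 = mu * (z.1 - z0.1) ∧ z'.2 - z0.2 = mu * (z.2 - z0.2) := by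
          by_cases c1 : z.1 = z0.1
          · by_cases c2 : z'.1 = z0.1
            · have c3 : z.2 - z0.2 ≠ 0 := fun c => hne ⟨sub_eq_zero.2 c1, c⟩
              refine ⟨(z'.2 - z0.2) / (z.2 - z0.2), ?_, ?_⟩
              · rw [c1, c2]; simp
              · field_simp
            · simp [c1, c2] at h
          · by_cases c2 : z'.1 = z0.1
            · simp [c1, c2] at h
            · simp only [c1, c2, if_false, Option.some.injEq] at h
              have c3 : z.1 - z0.1 ≠ 0 := sub_ne_zero.2 c1
              have c4 : z'.1 - z0.1 ≠ 0 := sub_ne_zero.2 c2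
              refine ⟨(z'.1 - z0.1) / (z.1 - z0.1), ?_, ?_⟩
              · field_simp
              · rw [div_eq_div_iff c3 c4] at h
                field_simp
                linear_combination -h
        obtain ⟨mu, m1, m2⟩ := hmu
        set v1 := z.1 - z0.1 with hv1
        set v2 := z.2 - z0.2 with hv2
        have hz1e : z.1 = z0.1 + v1 := by rw [hv1]; ring
        have hz2e : z.2 = z0.2 + v2 := by rw [hv2]; ring
        have hz1e' : z'.1 = z0.1 + mu * v1 := by rw [← m1]; ring
        have hz2e' : z'.2 = z0.2 + mu * v2 := by rw [← m2]; ring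
        have hf : v1 ^ 2 - d * v2 ^ 2 ≠ 0 := fun c => hne (aniso hd c)
        have hmu0 : mu ≠ 0 := by
          intro c
          apply hne'
          rw [m1, m2, c]
          simp
        rw [hz1e, hz2e] at e1
        rw [hz1e', hz2e'] at e2
        have : mu * (mu - 1) * (w 2 * (v1 ^ 2 - d * v2 ^ 2)) = 0 := by
          linear_combination e2 - mu * e1 - (1 - mu) * e0
        have hmu1 : mu = 1 := by
          rcases mul_eq_zero.1 this with h3 | h3
          · rcases mul_eq_zero.1 h3 with h4 | h4
            · exact absurd h4 hmu0
            · exact sub_eq_zero.1 h4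
          · exact absurd h3 (mul_ne_zero h2 hf)
        refine Prod.ext ?_ ?_
        · rw [hz1e, hz1e', hmu1, one_mul]
        · rw [hz2e, hz2e', hmu1, one_mul]
      rw [Finset.card_erase_of_mem hz0] at key
      simp only [card_univ, Fintype.card_option] at key
      omega

end Pool.Agent.P.MP_416653_co
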