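import Mathlib
import Pool.Agent.P.MP_416653_co.Quadric

set_option autoImplicit false

namespace Pool.Agent.P.MP_416653_co

open Finset Matrix

set_option linter.unusedSectionVars false

variable {F : Type} [Field F] [Fintype F] [DecidableEq F]

abbrev EE (F : Type) := F × (Fin 3 → F)

def proj (d : F) (z : F × F) (v : EE F) : Fin 3 → F := v.2 - v.1 • qp d z

def TT (d : F) (v : EE F) : Prop := ∃ z, proj d z v = 0

instance (d : F) : DecidablePred (TT d) := fun v => by unfold TT; infer_instance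

noncomputable def Y1 (d : F) (v : EE F) : ℝ :=
  1 / (Fintype.card F : ℝ) - (if TT d v then 1 else 0) +
    (2 * (Fintype.card F : ℝ) + 1) * (if v = 0 then 1 else 0)

def pr (w v : EE F) : F := w.1 * v.1 + w.2 ⬝ᵥ v.2

theorem proj_sub (d : F) (z : F × F) (x y : EE F) :
    proj d z (x - y) = proj d z x - proj d z y := by
  simp only [proj, Prod.fst_sub, Prod.snd_sub, sub_smul]
  abel

theorem TT_zero (d : F) : TT d 0 := ⟨0, by simp [proj]⟩

theorem TT_symm (d : F) {x y : EE F} (h : TT d (x - y)) : TT d (y - x) := by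
  obtain ⟨z, hz⟩ := h
  refine ⟨z, ?_⟩
  rw [proj_sub] at hz ⊢
  rw [sub_eq_zero] at hz ⊢
  exact hz.symm

theorem pr_sub (w x y : EE F) : pr w (x - y) = pr w x - pr w y := by
  simp only [pr, Prod.fst_sub, Prod.snd_sub, dotProduct_sub]
  ring

theorem card_EE : (Fintype.card (EE F) : ℝ) = (Fintype.card F : ℝ) ^ 4 := by
  simp [EE]
  ring

theorem NN_eq (d : F) (v : EE F) :
    ∑ z : F × F, (if proj d z v = 0 then (1 : ℝ) else 0) =
      (if TT d v then 1 else 0) + ((Fintype.card F : ℝ) ^ 2 - 1) * (if v = 0 then 1 else 0) := by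
  by_cases hv : v = 0
  · subst hv
    simp [TT_zero, proj, sq]
  · by_cases hT : TT d v
    · obtain ⟨z0, hz0⟩ := hT
      have hT : TT d v := ⟨z0, hz0⟩
      rw [Finset.sum_eq_single z0]
      · simp [hz0, hT, hv]
      · intro z _ hz
        rw [if_neg]
        intro h
        apply hz
        have h1 : v.1 ≠ 0 := by
          intro h1
          apply hv
          simp only [proj, h1, zero_smul, sub_zero] at h
          exact Prod.ext h1 h
        apply qp_inj d
        have : v.1 • qp d z = v.1 • qp d z0 := by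
          simp only [proj, sub_eq_zero] at h hz0
          rw [← h, ← hz0]
        exact smul_right_injective _ h1 this
      · simp
    · have : ∀ z, ¬ proj d z v = 0 := fun z h => hT ⟨z, h⟩
      simp [this, hT, hv]

theorem sum_ker_zero {A : Type} [Fintype A] [AddCommGroup A] (φ : A →+ F)
    (hφ : Function.Surjective φ) :
    ∑ a, ((Fintype.card F : ℝ) * (if φ a = 0 then 1 else 0) - 1) = 0 := by
  have h := av_comp_surj φ hφ (fun b => (Fintype.card F : ℝ) * (if b = 0 then 1 else 0) - 1)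
  have h2 : av (fun b : F => (Fintype.card F : ℝ) * (if b = 0 then 1 else 0) - 1) = 0 := by
    unfold av
    simp [Finset.sum_sub_distrib]
  rw [h2] at h
  unfold av at h
  have : (Fintype.card A : ℝ) ≠ 0 := by exact_mod_cast Fintype.card_ne_zero
  rcases div_eq_zero_iff.1 h with h | h
  · exact h
  · exact absurd h this

theorem sum_a3 (y : Fin 3 → F) :
    ∑ w : Fin 3 → F, ((Fintype.card F : ℝ) * (if w ⬝ᵥ y = 0 then 1 else 0) - 1) =
      (if y = 0 then 1 else 0) * (((Fintype.card F : ℝ) - 1) * (Fintype.card F : ℝ) ^ 3) := by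
  by_cases hy : y = 0
  · subst hy
    simp
    ring
  · rw [if_neg hy, zero_mul]
    obtain ⟨j, hj⟩ : ∃ j, y j ≠ 0 := by
      by_contra h
      push Not at h
      exact hy (funext h)
    let φ : (Fin 3 → F) →+ F := AddMonoidHom.mk' (fun w => w ⬝ᵥ y) (fun a b => add_dotProduct a b y)
    refine sum_ker_zero φ ?_
    intro b
    refine ⟨Pi.single j (b / y j), ?_⟩
    simp [φ]
    field_simp

theorem sum_a4 (v : EE F) :
    ∑ w : EE F, ((Fintype.card F : ℝ) * (if pr w v = 0 then 1 else 0) - 1) =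
      (if v = 0 then 1 else 0) * (((Fintype.card F : ℝ) - 1) * (Fintype.card F : ℝ) ^ 4) := by
  by_cases hv : v = 0
  · subst hv
    simp [pr]
    ring
  · rw [if_neg hv, zero_mul]
    let φ : EE F →+ F := AddMonoidHom.mk' (fun w => pr w v) (fun a b => by
      simp only [pr, Prod.fst_add, Prod.snd_add, add_dotProduct]
      ring)
    refine sum_ker_zero φ ?_
    intro b
    by_cases h1 : v.1 = 0
    · obtain ⟨j, hj⟩ : ∃ j, v.2 j ≠ 0 := by
        by_contra h
        push Not at h
        exact hv (Prod.ext h1 (funext h))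
      refine ⟨(0, Pi.single j (b / v.2 j)), ?_⟩
      simp [φ, pr]
      field_simp
    · refine ⟨(b / v.1, 0), ?_⟩
      simp [φ, pr]
      field_simp

theorem sum_b (d : F) (z : F × F) (v : EE F) :
    ∑ w : EE F, (if w.1 + w.2 ⬝ᵥ qp d z = 0 then (1 : ℝ) else 0) *
      ((Fintype.card F : ℝ) * (if pr w v = 0 then 1 else 0) - 1) =
      (if proj d z v = 0 then 1 else 0) *
        (((Fintype.card F : ℝ) - 1) * (Fintype.card F : ℝ) ^ 3) := by
  rw [← sum_a3, Fintype.sum_prod_type_right]
  refine Finset.sum_congr rfl fun w _ => ?_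
  rw [Finset.sum_eq_single (-(w ⬝ᵥ qp d z))]
  · have : pr (-(w ⬝ᵥ qp d z), w) v = w ⬝ᵥ proj d z v := by
      simp only [pr, proj, dotProduct_sub, dotProduct_smul, smul_eq_mul]
      ring
    simp [this]
  · intro a _ ha
    rw [if_neg, zero_mul]
    intro h
    apply ha
    simp only at h
    linear_combination h
  · simp

/-- the coefficients of the hyperplane kernels -/
noncomputable def cw (d : F) (w : EE F) : ℝ :=
  (Fintype.card F : ℝ) + 2 - ∑ z : F × F, (if w.1 + w.2 ⬝ᵥ qp d z = 0 then (1 : ℝ) else 0) +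
    (Fintype.card F : ℝ) ^ 2 * (if w = 0 then 1 else 0)

theorem cw_nonneg {d : F} (hd : ¬ IsSquare d) (w : EE F) : 0 ≤ cw d w := by
  unfold cw
  by_cases hw : w = 0
  · subst hw
    simp [sq]
    positivity
  · have := plane_count hd w.1 w.2 hw
    have h2 : ((univ.filter (fun z : F × F => w.1 + w.2 ⬝ᵥ qp d z = 0)).card : ℝ) ≤
        (Fintype.card F : ℝ) + 2 := by exact_mod_cast this
    simp only [hw, if_false, mul_zero, add_zero, Finset.sum_boole]
    linarith

theorem two_le_q : (2 : ℝ) ≤ (Fintype.card F : ℝ) := by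
  exact_mod_cast Fintype.one_lt_card (α := F)

theorem cw_identity (d : F) (v : EE F) :
    ∑ w : EE F, cw d w * ((Fintype.card F : ℝ) * (if pr w v = 0 then 1 else 0) - 1) =
      (((Fintype.card F : ℝ) - 1) * (Fintype.card F : ℝ) ^ 3) * Y1 d v := by
  have hq := two_le_q (F := F)
  set q := (Fintype.card F : ℝ) with hqdef
  have e1 : ∀ w : EE F, cw d w * (q * (if pr w v = 0 then 1 else 0) - 1) =
      (q + 2) * (q * (if pr w v = 0 then 1 else 0) - 1) -
      ∑ z : F × F, (if w.1 + w.2 ⬝ᵥ qp d z = 0 then (1 : ℝ) else 0) *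
        (q * (if pr w v = 0 then 1 else 0) - 1) +
      (if w = 0 then q ^ 2 * (q - 1) else 0) := by
    intro w
    unfold cw
    rw [← Finset.sum_mul]
    by_cases hw : w = 0
    · subst hw
      simp only [pr, Prod.fst_zero, Prod.snd_zero, zero_mul, zero_dotProduct, add_zero, if_true]
      ring
    · simp only [hw, if_false]
      ring
  rw [Finset.sum_congr rfl (fun w _ => e1 w), Finset.sum_add_distrib, Finset.sum_sub_distrib,
    ← Finset.mul_sum, sum_a4, Finset.sum_comm]
  rw [Finset.sum_congr rfl (fun z _ => sum_b d z v), ← Finset.sum_mul, NN_eq]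
  simp only [Finset.sum_ite_eq', Finset.mem_univ, if_true]
  unfold Y1
  rw [← hqdef]
  have : q ≠ 0 := by linarith
  field_simp
  ring

theorem Y1_psd {d : F} (hd : ¬ IsSquare d) {ι : Type} [Fintype ι] (x : ι → EE F) (u : ι → ℝ) :
    0 ≤ ∑ i, ∑ j, u i * u j * Y1 d (x i - x j) := by
  have hq := two_le_q (F := F)
  set q := (Fintype.card F : ℝ) with hqdef
  have hκ : 0 < (q - 1) * q ^ 3 := by
    have : 0 < q - 1 := by linarith
    positivity
  have h1 : ((q - 1) * q ^ 3) * ∑ i, ∑ j, u i * u j * Y1 d (x i - x j) =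
      ∑ w : EE F, cw d w * (q * (∑ i, ∑ j, u i * u j *
        (if pr w (x i) = pr w (x j) then 1 else 0)) - (∑ i, u i) ^ 2) := by
    have e : ∀ w : EE F, cw d w * (q * (∑ i, ∑ j, u i * u j *
        (if pr w (x i) = pr w (x j) then 1 else 0)) - (∑ i, u i) ^ 2) =
        ∑ i, ∑ j, u i * u j * (cw d w *
          (q * (if pr w (x i - x j) = 0 then 1 else 0) - 1)) := by
      intro w
      rw [sq, Finset.sum_mul_sum, Finset.mul_sum, ← Finset.sum_sub_distrib, Finset.mul_sum]
      refine Finset.sum_congr rfl fun i _ => ?_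
      rw [Finset.mul_sum, ← Finset.sum_sub_distrib, Finset.mul_sum]
      refine Finset.sum_congr rfl fun j _ => ?_
      simp only [pr_sub, sub_eq_zero]
      ring
    rw [Finset.sum_congr rfl (fun w _ => e w), Finset.sum_comm (s := (univ : Finset (EE F))),
      Finset.mul_sum]
    refine Finset.sum_congr rfl fun i _ => ?_
    rw [Finset.mul_sum, Finset.sum_comm (s := (univ : Finset (EE F)))]
    refine Finset.sum_congr rfl fun j _ => ?_
    rw [← Finset.mul_sum, cw_identity]
    ring
  have h2 : 0 ≤ ∑ w : EE F, cw d w * (q * (∑ i, ∑ j, u i * u j *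
        (if pr w (x i) = pr w (x j) then 1 else 0)) - (∑ i, u i) ^ 2) := by
    refine Finset.sum_nonneg fun w _ => mul_nonneg (cw_nonneg hd w) ?_
    have := sq_sum_le_fib (univ : Finset ι) (fun i => pr w (x i)) u
    linarith
  rw [← h1] at h2
  exact (mul_nonneg_iff_of_pos_left hκ).1 h2

theorem TT_count (d : F) :
    ∑ v : EE F, (if TT d v then (1 : ℝ) else 0) ≤ (Fintype.card F : ℝ) ^ 3 := by
  rw [Finset.sum_boole]
  have : (univ.filter (fun v : EE F => TT d v)).card ≤ (univ : Finset (F × (F × F))).card := by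
    refine Finset.card_le_card_of_surjOn (fun p => (p.1, p.1 • qp d p.2)) ?_
    intro v hv
    obtain ⟨z, hz⟩ := (Finset.mem_filter.1 (Finset.mem_coe.1 hv)).2
    refine ⟨(v.1, z), Finset.mem_coe.2 (mem_univ _), ?_⟩
    simp only [proj, sub_eq_zero] at hz
    exact Prod.ext rfl hz.symm
  have h2 : ((univ.filter (fun v : EE F => TT d v)).card : ℝ) ≤
      ((univ : Finset (F × (F × F))).card : ℝ) := by exact_mod_cast this
  refine h2.trans (le_of_eq ?_)
  simp
  ring

theorem edge_lower (d : F) (W : Finset (EE F)) :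
    (W.card : ℝ) ^ 2 ≤ (Fintype.card F : ℝ) *
      (∑ x ∈ W, ∑ y ∈ W, (if TT d (x - y) then (1 : ℝ) else 0) +
        (Fintype.card F : ℝ) ^ 2 * W.card) := by
  have hq := two_le_q (F := F)
  set q := (Fintype.card F : ℝ) with hqdef
  have h1 : ∀ z : F × F, (W.card : ℝ) ^ 2 ≤
      q ^ 3 * ∑ x ∈ W, ∑ y ∈ W, (if proj d z (x - y) = 0 then (1 : ℝ) else 0) := by
    intro z
    have := sq_sum_le_fib W (fun x => proj d z x) (fun _ => (1 : ℝ))
    simp only [proj_sub, sub_eq_zero]
    simpa [hqdef] using this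
  have h2 : q ^ 2 * (W.card : ℝ) ^ 2 ≤
      q ^ 3 * ∑ x ∈ W, ∑ y ∈ W, ∑ z : F × F, (if proj d z (x - y) = 0 then (1 : ℝ) else 0) := by
    have := Finset.sum_le_sum (s := (univ : Finset (F × F))) (fun z _ => h1 z)
    rw [← Finset.mul_sum, Finset.sum_comm] at this
    simp only [sum_const, card_univ, Fintype.card_prod, nsmul_eq_mul, Nat.cast_mul] at this
    rw [Finset.sum_congr rfl (fun x _ => Finset.sum_comm)] at this
    rw [← hqdef, ← sq] at this
    exact this
  have h3 : ∑ x ∈ W, ∑ y ∈ W, ∑ z : F × F, (if proj d z (x - y) = 0 then (1 : ℝ) else 0) =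
      ∑ x ∈ W, ∑ y ∈ W, (if TT d (x - y) then (1 : ℝ) else 0) + (q ^ 2 - 1) * W.card := by
    simp only [NN_eq, Finset.sum_add_distrib, ← Finset.mul_sum, sub_eq_zero]
    congr 2
    rw [Finset.sum_congr rfl (g := fun _ => (1 : ℝ))]
    · simp
    · intro x hx
      simp [hx]
  rw [h3] at h2
  have hW : (0 : ℝ) ≤ W.card := by positivity
  have hq2 : 0 < q ^ 2 := by positivity
  have h4 : (W.card : ℝ) ^ 2 ≤ q * (∑ x ∈ W, ∑ y ∈ W, (if TT d (x - y) then (1 : ℝ) else 0) +
      (q ^ 2 - 1) * W.card) := by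
    have : q ^ 2 * (W.card : ℝ) ^ 2 ≤ q ^ 2 * (q * (∑ x ∈ W, ∑ y ∈ W,
        (if TT d (x - y) then (1 : ℝ) else 0) + (q ^ 2 - 1) * W.card)) := by
      refine h2.trans (le_of_eq ?_)
      ring
    exact le_of_mul_le_mul_left this hq2
  refine h4.trans ?_
  gcongr
  linarith

end Pool.Agent.P.MP_416653_co
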