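import Mathlib
import Pool.Agent.P.MP_416653_co.Base

set_option autoImplicit false

namespace Pool.Agent.P.MP_416653_co

open Finset Matrix

set_option linter.unusedSectionVars false

variable {F : Type} [Field F] [Fintype F] [DecidableEq F]

def Ind (d : F) {j : ℕ} (R : Finset (EE F)) (s : Fin j → EE F) : Prop :=
  (∀ i, s i ∈ R) ∧ ∀ i i', i ≠ i' → ¬ TT d (s i - s i')

instance (d : F) {j : ℕ} (R : Finset (EE F)) : DecidablePred (Ind d (j := j) R) :=
  fun s => by unfold Ind; infer_instance

noncomputable def gg (d : F) (j : ℕ) (R : Finset (EE F)) : ℝ :=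
  ∑ s : Fin j → EE F, if Ind d R s then 1 else 0

theorem gg_nonneg (d : F) (j : ℕ) (R : Finset (EE F)) : 0 ≤ gg d j R :=
  Finset.sum_nonneg fun s _ => by split_ifs <;> norm_num

theorem gg_zero (d : F) (R : Finset (EE F)) : gg d 0 R ≤ 1 := by
  unfold gg
  simp only [Finset.univ_unique, Finset.sum_singleton]
  split_ifs <;> norm_num

theorem gg_succ (d : F) (j : ℕ) (R : Finset (EE F)) :
    gg d (j + 1) R ≤ ∑ x ∈ R, gg d j (R.filter (fun y => ¬ TT d (x - y))) := by
  unfold gg
  rw [← (Fin.consEquiv (fun _ : Fin (j + 1) => EE F)).sum_comp, Fintype.sum_prod_type]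
  rw [← Finset.sum_filter_add_sum_filter_not univ (fun x => x ∈ R)]
  have h0 : ∑ x ∈ univ.filter (fun x => ¬ x ∈ R), ∑ s : Fin j → EE F,
      (if Ind d R ((Fin.consEquiv (fun _ : Fin (j + 1) => EE F)) (x, s)) then (1 : ℝ) else 0) = 0 := by
    refine Finset.sum_eq_zero fun x hx => Finset.sum_eq_zero fun s _ => ?_
    rw [if_neg]
    intro h
    have := h.1 0
    simp at this hx
    exact hx this
  rw [h0, add_zero]
  have h1 : univ.filter (fun x => x ∈ R) = R := by ext; simp
  rw [h1]
  refine Finset.sum_le_sum fun x _ => Finset.sum_le_sum fun s _ => ?_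
  by_cases h : Ind d R ((Fin.consEquiv (fun _ : Fin (j + 1) => EE F)) (x, s))
  · have h2 : Ind d (R.filter (fun y => ¬ TT d (x - y))) s := by
      refine ⟨fun i => ?_, fun i i' hii => ?_⟩
      · have a1 := h.1 i.succ
        have a2 := h.2 0 i.succ (Fin.succ_ne_zero i).symm
        simp at a1 a2
        simp [a1, a2]
      · have a2 := h.2 i.succ i'.succ (fun e => hii (Fin.succ_injective _ e))
        simpa using a2
    simp [h, h2]
  · simp only [h, if_false]
    split_ifs <;> norm_num

theorem bad_le (d : F) (hq : (16 : ℝ) ≤ Fintype.card F) (R : Finset (EE F)) :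
    ((R.filter (fun x => ((R.filter (fun y => TT d (x - y))).card : ℝ) <
      (Fintype.card F : ℝ) ^ 3 / 16)).card : ℝ) ≤ (Fintype.card F : ℝ) ^ 4 / 8 := by
  set q := (Fintype.card F : ℝ) with hqdef
  set W := R.filter (fun x => ((R.filter (fun y => TT d (x - y))).card : ℝ) < q ^ 3 / 16) with hW
  have h1 := edge_lower d W
  rw [← hqdef] at h1
  have h2 : ∑ x ∈ W, ∑ y ∈ W, (if TT d (x - y) then (1 : ℝ) else 0) ≤ W.card * (q ^ 3 / 16) := by
    rw [← nsmul_eq_mul, ← Finset.sum_const]
    refine Finset.sum_le_sum fun x hx => ?_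
    have hx2 := (Finset.mem_filter.1 hx).2
    rw [Finset.sum_boole]
    refine le_trans ?_ hx2.le
    have : (W.filter (fun y => TT d (x - y))).card ≤ (R.filter (fun y => TT d (x - y))).card :=
      Finset.card_le_card (Finset.filter_subset_filter _ (Finset.filter_subset _ _))
    exact_mod_cast this
  have hW0 : (0 : ℝ) ≤ W.card := by positivity
  rcases hW0.eq_or_lt with h | h
  · rw [← h]; positivity
  · have h3 : (W.card : ℝ) * W.card ≤ W.card * (q * (q ^ 3 / 16 + q ^ 2)) := by
      have : q * (∑ x ∈ W, ∑ y ∈ W, (if TT d (x - y) then (1 : ℝ) else 0) + q ^ 2 * W.card) ≤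
          q * (W.card * (q ^ 3 / 16) + q ^ 2 * W.card) := by gcongr
      nlinarith
    have h4 := le_of_mul_le_mul_left h3 h
    have h5 : q ^ 3 * 16 ≤ q ^ 3 * q := by gcongr
    nlinarith

theorem gg_le (d : F) (hq : (16 : ℝ) ≤ Fintype.card F) (j : ℕ) :
    ∀ (m : ℕ) (R : Finset (EE F)), (R.card : ℝ) ≤ m * ((Fintype.card F : ℝ) ^ 3 / 16) →
      gg d j R ≤ 8 ^ m * ((Fintype.card F : ℝ) ^ 4 / 4) ^ j := by
  set q := (Fintype.card F : ℝ) with hqdef
  induction j with
  | zero =>
    intro m R _
    refine (gg_zero d R).trans ?_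
    simp only [pow_zero, mul_one]
    exact one_le_pow₀ (by norm_num)
  | succ j ih =>
    intro m R hR
    refine (gg_succ d j R).trans ?_
    rw [← Finset.sum_filter_add_sum_filter_not R
      (fun x => ((R.filter (fun y => TT d (x - y))).card : ℝ) < q ^ 3 / 16)]
    have hb := bad_le d hq R
    rw [← hqdef] at hb
    have hpos : (0 : ℝ) ≤ 8 ^ m * (q ^ 4 / 4) ^ j := by positivity
    have h1 : ∑ x ∈ R.filter (fun x => ((R.filter (fun y => TT d (x - y))).card : ℝ) < q ^ 3 / 16),
        gg d j (R.filter (fun y => ¬ TT d (x - y))) ≤ (q ^ 4 / 8) * (8 ^ m * (q ^ 4 / 4) ^ j) := by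
      refine le_trans (Finset.sum_le_card_nsmul _ _ (8 ^ m * (q ^ 4 / 4) ^ j) ?_) ?_
      · intro x _
        refine ih m _ (le_trans ?_ hR)
        exact_mod_cast Finset.card_le_card (Finset.filter_subset _ _)
      · rw [nsmul_eq_mul]
        gcongr
    have h2 : ∑ x ∈ R.filter (fun x => ¬ ((R.filter (fun y => TT d (x - y))).card : ℝ) < q ^ 3 / 16),
        gg d j (R.filter (fun y => ¬ TT d (x - y))) ≤ (q ^ 4) * (8 ^ m * (q ^ 4 / 4) ^ j / 8) := by
      refine le_trans (Finset.sum_le_card_nsmul _ _ (8 ^ m * (q ^ 4 / 4) ^ j / 8) ?_) ?_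
      · intro x hx
        have hx2 := not_lt.1 (Finset.mem_filter.1 hx).2
        have hsplit : ((R.filter (fun y => TT d (x - y))).card : ℝ) +
            ((R.filter (fun y => ¬ TT d (x - y))).card : ℝ) = R.card := by
          exact_mod_cast Finset.card_filter_add_card_filter_not (s := R) (fun y => TT d (x - y))
        have hq3 : 0 < q ^ 3 / 16 := by positivity
        have hnn : (0 : ℝ) ≤ ((R.filter (fun y => ¬ TT d (x - y))).card : ℝ) := by positivity
        cases m with
        | zero =>
          exfalso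
          simp only [Nat.cast_zero, zero_mul] at hR
          linarith
        | succ m =>
          have := ih m (R.filter (fun y => ¬ TT d (x - y))) (by
            push_cast at hR
            linarith)
          refine this.trans (le_of_eq ?_)
          rw [pow_succ]
          ring
      · rw [nsmul_eq_mul]
        gcongr
        rw [hqdef, ← card_EE]
        exact_mod_cast Finset.card_le_univ _
    refine (add_le_add h1 h2).trans (le_of_eq ?_)
    rw [pow_succ]
    ring

/-- the proportion of independent sequences of length 48 q is at most 2 ^ (-48 q) -/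
theorem av_ind_le (d : F) (hq : (16 : ℝ) ≤ Fintype.card F) :
    av (fun s : Fin (48 * Fintype.card F) → EE F => if Ind d univ s then (1 : ℝ) else 0) ≤
      (1 / 2) ^ (48 * Fintype.card F) := by
  have h := gg_le d hq (48 * Fintype.card F) (16 * Fintype.card F) univ (by
    rw [card_univ, card_EE]
    push_cast
    apply le_of_eq
    ring)
  unfold av
  unfold gg at h
  have hc : (Fintype.card (Fin (48 * Fintype.card F) → EE F) : ℝ) =
      ((Fintype.card F : ℝ) ^ 4) ^ (48 * Fintype.card F) := by
    rw [Fintype.card_fun, Nat.cast_pow, card_EE, Fintype.card_fin]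
  rw [hc, div_le_iff₀ (by positivity)]
  refine h.trans (le_of_eq ?_)
  have e8 : (8 : ℝ) ^ (16 * Fintype.card F) = 2 ^ (48 * Fintype.card F) := by
    rw [show (8 : ℝ) = 2 ^ 3 by norm_num, ← pow_mul]
    congr 1
    ring
  rw [e8, ← mul_pow, ← mul_pow]
  congr 1
  ring

end Pool.Agent.P.MP_416653_co
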