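import Pool.Agent.K.MP_416653_co.C0

set_option autoImplicit false

namespace Pool.Agent.P.MP_416653_co.Ex

open Finset Matrix Pool.Agent.P.MP_416653_co

set_option linter.unusedSectionVars false

/-- The graph of the pairs outside the relation. -/
def g0 {n : ℕ} (H : Fin n → Fin n → Prop) (hr : ∀ i, H i i) (hs : ∀ i j, H i j → H j i) :
    SimpleGraph (Fin n) where
  Adj i j := ¬ H i j
  symm := ⟨fun _ _ h h' => h (hs _ _ h')⟩
  loopless := ⟨fun i h => h (hr i)⟩

theorem g0_lt {n k : ℕ} (H : Fin n → Fin n → Prop) (hr : ∀ i, H i i)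
    (hs : ∀ i j, H i j → H j i)
    (hind : ∀ ι : Fin k → Fin n, Function.Injective ι → ∃ a b, a ≠ b ∧ H (ι a) (ι b)) :
    (g0 H hr hs).cliqueNum < k := by
  obtain ⟨K, hK⟩ := (g0 H hr hs).exists_isNClique_cliqueNum
  rw [← hK.card_eq]
  by_contra hcon
  push Not at hcon
  obtain ⟨a, b, hab, hH⟩ := hind (K.orderEmbOfCardLe hcon) (K.orderEmbOfCardLe hcon).injective
  exact hK.isClique (Finset.mem_coe.2 (K.orderEmbOfCardLe_mem hcon a))
    (Finset.mem_coe.2 (K.orderEmbOfCardLe_mem hcon b))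
    (fun h => hab ((K.orderEmbOfCardLe hcon).injective h)) hH

theorem jg_cliqueNum {n : ℕ} (t s : ℕ) (hs1 : 1 ≤ s) (H : Fin n → Fin n → Prop) (hr : ∀ i, H i i)
    (hs : ∀ i j, H i j → H j i) :
    (jg t s H hr hs).cliqueNum = (g0 H hr hs).cliqueNum + t := by
  classical
  refine le_antisymm ?_ ?_
  · obtain ⟨K, hK⟩ := (jg t s H hr hs).exists_isNClique_cliqueNum
    rw [← hK.card_eq, ← Finset.card_toLeft_add_card_toRight]
    have h1 : (g0 H hr hs).IsClique K.toLeft := fun a ha b hb hab =>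
      hK.isClique (Finset.mem_coe.2 (Finset.mem_toLeft.1 (Finset.mem_coe.1 ha)))
        (Finset.mem_coe.2 (Finset.mem_toLeft.1 (Finset.mem_coe.1 hb)))
        (fun h => hab (Sum.inl_injective h))
    have h2 : K.toRight.card ≤ (univ : Finset (Fin t)).card := by
      refine Finset.card_le_card_of_injOn (fun a => a.1)
        (fun _ _ => Finset.mem_coe.2 (mem_univ _)) ?_
      intro a ha b hb hab
      by_contra hne
      exact hK.isClique (Finset.mem_coe.2 (Finset.mem_toRight.1 (Finset.mem_coe.1 ha)))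
        (Finset.mem_coe.2 (Finset.mem_toRight.1 (Finset.mem_coe.1 hb)))
        (fun h => hne (Sum.inr_injective h)) hab
    simp only [card_univ, Fintype.card_fin] at h2
    exact add_le_add h1.card_le_cliqueNum h2
  · obtain ⟨K, hK⟩ := (g0 H hr hs).exists_isNClique_cliqueNum
    let L : Finset (Fin t × Fin s) := univ.image fun a : Fin t => (a, ⟨0, hs1⟩)
    have hL : L.card = t := by
      rw [Finset.card_image_of_injective _ (fun a b h => congrArg Prod.fst h)]
      simp
    have hc : (jg t s H hr hs).IsClique (K.disjSum L) := by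
      intro u hu v hv huv
      rcases u with u | u <;> rcases v with v | v
      · exact hK.isClique (Finset.mem_coe.2 (Finset.inl_mem_disjSum.1 (Finset.mem_coe.1 hu)))
          (Finset.mem_coe.2 (Finset.inl_mem_disjSum.1 (Finset.mem_coe.1 hv)))
          (fun h => huv (congrArg Sum.inl h))
      · exact fun h => h
      · exact fun h => h
      · obtain ⟨a, -, rfl⟩ :=
          Finset.mem_image.1 (Finset.inr_mem_disjSum.1 (Finset.mem_coe.1 hu))
        obtain ⟨b, -, rfl⟩ :=
          Finset.mem_image.1 (Finset.inr_mem_disjSum.1 (Finset.mem_coe.1 hv))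
        intro h
        apply huv
        have : a = b := h
        rw [this]
    have := hc.card_le_cliqueNum
    rwa [Finset.card_disjSum, hK.card_eq, hL] at this

/-- The spectral data of the joined graph. -/
theorem join_bound (n t s : ℕ) (ht : 1 ≤ t) (H : Fin n → Fin n → Prop)
    (Y : Fin n → Fin n → ℝ) (hr : ∀ i, H i i) (hsy : ∀ i j, H i j → H j i)
    (hY : ∀ u : Fin n → ℝ, 0 ≤ ∑ i, ∑ j, u i * u j * Y i j) (σ P : ℝ)
    (hσ : ∑ i, ∑ j, ((@ite ℝ (H i j) (Classical.propDecidable _) 1 0) + Y i j) ^ 2 < σ)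
    (hP : ∑ i, ∑ j, (@ite ℝ (H i j) (Classical.propDecidable _) 1 0) ≤ P) :
    ∃ (_ : DecidableRel (jg t s H hr hsy).Adj)
      (hA : ((jg t s H hr hsy).adjMatrix ℝ).IsHermitian)
      (S : Finset (Fin n ⊕ (Fin t × Fin s))), S.card ≤ n + 1 ∧
      (∀ i ∈ S, 0 < hA.eigenvalues i) ∧
      ((n : ℝ) + t * s) ^ 2 - P - t * (s : ℝ) ^ 2 ≤
        2 * (Nat.card (jg t s H hr hsy).edgeSet : ℝ) ∧
      2 * (Nat.card (jg t s H hr hsy).edgeSet : ℝ) - (σ + t * (s : ℝ) ^ 2) <
        ∑ i ∈ S, hA.eigenvalues i ^ 2 := by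
  classical
  let V := Fin n ⊕ (Fin t × Fin s)
  let G : SimpleGraph V := jg t s H hr hsy
  have hA : (G.adjMatrix ℝ).IsHermitian := by
    simp [Matrix.IsHermitian]
  have hAdj : ∀ u v, G.adjMatrix ℝ u v = 1 - (if rel H u v then 1 else 0) := by
    intro u v
    simp only [SimpleGraph.adjMatrix_apply]
    have : G.Adj u v ↔ ¬ rel H u v := Iff.rfl
    by_cases h : rel H u v <;> simp [this, h]
  let φ : (V → ℝ) →ₗ[ℝ] ((Fin n → ℝ) × ℝ) :=
    { toFun := fun x => (fun i => x (Sum.inl i), ∑ u, x u)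
      map_add' := by
        intro a b
        ext <;> simp [Finset.sum_add_distrib]
      map_smul' := by
        intro a b
        ext <;> simp [Finset.mul_sum] }
  have hcard := card_pos_le (G.adjMatrix ℝ) hA φ (by
    intro x hx
    have hx1 : ∀ i, x (Sum.inl i) = 0 := fun i => congrFun (congrArg Prod.fst hx) i
    have hx2 : ∑ u, x u = 0 := congrArg Prod.snd hx
    have e1 : x ⬝ᵥ G.adjMatrix ℝ *ᵥ x =
        (∑ u, x u) * (∑ u, x u) - ∑ u, ∑ v, x u * x v * (if rel H u v then 1 else 0) := by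
      simp only [dotProduct, mulVec, hAdj]
      rw [Finset.sum_mul_sum, ← Finset.sum_sub_distrib]
      refine Finset.sum_congr rfl fun u _ => ?_
      rw [Finset.mul_sum, ← Finset.sum_sub_distrib]
      refine Finset.sum_congr rfl fun v _ => ?_
      ring
    have e2 : ∑ u, ∑ v, x u * x v * (if rel H u v then (1 : ℝ) else 0) =
        ∑ a : Fin t × Fin s, ∑ b : Fin t × Fin s,
          x (Sum.inr a) * x (Sum.inr b) * (if a.1 = b.1 then 1 else 0) := by
      simp only [V, Fintype.sum_sum_type, hx1, zero_mul, mul_zero, Finset.sum_const_zero, zero_add]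
      refine Finset.sum_congr rfl fun a _ => Finset.sum_congr rfl fun b _ => ?_
      congr
    have e3 := sq_sum_le_fib (univ : Finset (Fin t × Fin s)) (fun a => a.1)
      (fun a => x (Sum.inr a))
    have e4 : (0 : ℝ) < Fintype.card (Fin t) := by
      rw [Fintype.card_fin]
      exact_mod_cast ht
    have e5 : 0 ≤ ∑ a : Fin t × Fin s, ∑ b : Fin t × Fin s,
          x (Sum.inr a) * x (Sum.inr b) * (if a.1 = b.1 then 1 else 0) :=
      (mul_nonneg_iff_of_pos_left e4).1 ((sq_nonneg _).trans e3)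
    rw [e1, e2, hx2]
    linarith)
  have hfr : Module.finrank ℝ ((Fin n → ℝ) × ℝ) = n + 1 := by simp
  rw [hfr] at hcard
  let X : Matrix V V ℝ := fun u v => 1 + yy Y u v
  have hX : ∀ x : V → ℝ, 0 ≤ x ⬝ᵥ X *ᵥ x := by
    intro x
    have e1 : x ⬝ᵥ X *ᵥ x = (∑ u, x u) * (∑ u, x u) + ∑ u, ∑ v, x u * x v * yy Y u v := by
      simp only [dotProduct, mulVec, X]
      rw [Finset.sum_mul_sum, ← Finset.sum_add_distrib]
      refine Finset.sum_congr rfl fun u _ => ?_
      rw [Finset.mul_sum, ← Finset.sum_add_distrib]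
      refine Finset.sum_congr rfl fun v _ => ?_
      ring
    have e2 : ∑ u, ∑ v, x u * x v * yy Y u v =
        ∑ i, ∑ j, x (Sum.inl i) * x (Sum.inl j) * Y i j := by
      simp [V, Fintype.sum_sum_type, yy]
    rw [e1, e2]
    exact add_nonneg (mul_self_nonneg _) (hY _)
  have hlow := pos_sq_sum_ge (G.adjMatrix ℝ) hA X hX
  have hdiff : ∑ u, ∑ v, (G.adjMatrix ℝ u v - X u v) ^ 2 =
      ∑ i, ∑ j, ((@ite ℝ (H i j) (Classical.propDecidable _) 1 0) + Y i j) ^ 2 +
        t * (s : ℝ) ^ 2 := by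
    have e : ∀ u v, (G.adjMatrix ℝ u v - X u v) ^ 2 =
        ((if rel H u v then (1 : ℝ) else 0) + yy Y u v) ^ 2 := by
      intro u v
      rw [hAdj]
      simp only [X]
      ring
    simp only [e]
    exact sum_rel_sq H Y
  have hM : ((n : ℝ) + t * s) ^ 2 - P - t * (s : ℝ) ^ 2 ≤ ∑ u, ∑ v, G.adjMatrix ℝ u v ^ 2 := by
    have e : ∀ u v, G.adjMatrix ℝ u v ^ 2 =
        1 - ((if rel H u v then (1 : ℝ) else 0) + yy (fun _ _ => 0) u v) ^ 2 := by
      intro u v
      have e0 : yy (t := t) (s := s) (fun _ _ : Fin n => (0 : ℝ)) u v = 0 := by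
        rcases u with u | u <;> rcases v with v | v <;> rfl
      rw [hAdj, e0]
      split_ifs <;> simp
    simp only [e, Finset.sum_sub_distrib]
    have e2 := sum_rel_sq (t := t) (s := s) H (fun _ _ => 0)
    have e3 : ∀ i j, ((@ite ℝ (H i j) (Classical.propDecidable _) 1 0) + 0) ^ 2 =
        @ite ℝ (H i j) (Classical.propDecidable _) 1 0 := by
      intro i j
      split_ifs <;> simp
    simp only [e3] at e2
    have e4 : ∑ _u : V, ∑ _v : V, (1 : ℝ) = ((n : ℝ) + t * s) ^ 2 := by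
      simp [V]
      ring
    rw [e4]
    have e5 : ∑ u : V, ∑ v : V,
        ((if rel H u v then (1 : ℝ) else 0) + yy (fun _ _ => 0) u v) ^ 2 ≤
          P + t * (s : ℝ) ^ 2 := e2.le.trans (by linarith)
    linarith
  rw [hdiff] at hlow
  have h2m := two_m G
  refine ⟨inferInstance, hA, univ.filter (fun i => 0 < hA.eigenvalues i), hcard,
    fun i hi => (Finset.mem_filter.1 hi).2, hM.trans h2m.le, ?_⟩
  have : 2 * (Nat.card (jg t s H hr hsy).edgeSet : ℝ) = ∑ u, ∑ v, G.adjMatrix ℝ u v ^ 2 := h2m.symm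
  rw [this]
  linarith

end Pool.Agent.P.MP_416653_co.Ex
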