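import Pool.Agent.P.MP_416653_co.ExA

set_option autoImplicit false

namespace Pool.Agent.P.MP_416653_co.Ex

open Finset Matrix Pool.Agent.P.MP_416653_co

section

variable {r n : ℕ}

/-- The relation repeated on `r` blocks. -/
def bH (r : ℕ) (H : Fin n → Fin n → Prop) (i j : Fin (r * n)) : Prop :=
  (finProdFinEquiv.symm i).1 = (finProdFinEquiv.symm j).1 ∧
    H (finProdFinEquiv.symm i).2 (finProdFinEquiv.symm j).2

/-- The matrix repeated on `r` blocks. -/
def bY (r : ℕ) (Y : Fin n → Fin n → ℝ) (i j : Fin (r * n)) : ℝ :=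
  if (finProdFinEquiv.symm i).1 = (finProdFinEquiv.symm j).1 then
    Y (finProdFinEquiv.symm i).2 (finProdFinEquiv.symm j).2 else 0

theorem bH_iff (H : Fin n → Fin n → Prop) (a b : Fin r) (x y : Fin n) :
    bH r H (finProdFinEquiv (a, x)) (finProdFinEquiv (b, y)) ↔ a = b ∧ H x y := by
  simp only [bH, Equiv.symm_apply_apply]

theorem bY_eq (Y : Fin n → Fin n → ℝ) (a b : Fin r) (x y : Fin n) :
    bY r Y (finProdFinEquiv (a, x)) (finProdFinEquiv (b, y)) = if a = b then Y x y else 0 := by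
  simp only [bY, Equiv.symm_apply_apply]

theorem sum_diag (f : Fin (r * n) → Fin (r * n) → ℝ) (g : Fin r → Fin n → Fin n → ℝ)
    (h : ∀ a x b y, f (finProdFinEquiv (a, x)) (finProdFinEquiv (b, y)) =
      if a = b then g a x y else 0) :
    ∑ i, ∑ j, f i j = ∑ a, ∑ x, ∑ y, g a x y := by
  rw [← finProdFinEquiv.sum_comp, Fintype.sum_prod_type]
  refine Finset.sum_congr rfl fun a _ => Finset.sum_congr rfl fun x _ => ?_
  rw [← finProdFinEquiv.sum_comp, Fintype.sum_prod_type_right]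
  refine Finset.sum_congr rfl fun y _ => ?_
  simp only [h, Finset.sum_ite_eq, Finset.mem_univ, if_true]

theorem bY_psd (Y : Fin n → Fin n → ℝ) (hY : ∀ u : Fin n → ℝ, 0 ≤ ∑ i, ∑ j, u i * u j * Y i j)
    (u : Fin (r * n) → ℝ) : 0 ≤ ∑ i, ∑ j, u i * u j * bY r Y i j := by
  rw [sum_diag _ (fun a x y => u (finProdFinEquiv (a, x)) * u (finProdFinEquiv (a, y)) * Y x y)]
  · exact Finset.sum_nonneg fun a _ => hY fun x => u (finProdFinEquiv (a, x))
  · intro a x b y
    rw [bY_eq]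
    split_ifs with h
    · rw [h]
    · rw [mul_zero]

theorem b_sigma (H : Fin n → Fin n → Prop) (Y : Fin n → Fin n → ℝ) :
    ∑ i, ∑ j, ((@ite ℝ (bH r H i j) (Classical.propDecidable _) 1 0) + bY r Y i j) ^ 2 =
      r * ∑ i, ∑ j, ((@ite ℝ (H i j) (Classical.propDecidable _) 1 0) + Y i j) ^ 2 := by
  rw [sum_diag _ (fun _ x y => ((@ite ℝ (H x y) (Classical.propDecidable _) 1 0) + Y x y) ^ 2)]
  · rw [Finset.sum_const, card_univ, Fintype.card_fin, nsmul_eq_mul]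
  · intro a x b y
    rw [bY_eq]
    by_cases h : a = b
    · by_cases h' : H x y
      · rw [if_pos ((bH_iff H a b x y).2 ⟨h, h'⟩), if_pos h, if_pos h, if_pos h']
      · rw [if_neg fun e => h' ((bH_iff H a b x y).1 e).2, if_pos h, if_pos h, if_neg h']
    · rw [if_neg fun e => h ((bH_iff H a b x y).1 e).1, if_neg h, if_neg h]
      norm_num

theorem b_pairs (H : Fin n → Fin n → Prop) :
    ∑ i, ∑ j, (@ite ℝ (bH r H i j) (Classical.propDecidable _) 1 0) ≤ r * (n : ℝ) ^ 2 := by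
  rw [sum_diag _ (fun _ x y => @ite ℝ (H x y) (Classical.propDecidable _) 1 0)]
  · rw [Finset.sum_const, card_univ, Fintype.card_fin, nsmul_eq_mul]
    refine mul_le_mul_of_nonneg_left ?_ (Nat.cast_nonneg _)
    calc _ ≤ ∑ _x : Fin n, ∑ _y : Fin n, (1 : ℝ) :=
          Finset.sum_le_sum fun x _ => Finset.sum_le_sum fun y _ => by split_ifs <;> norm_num
      _ = (n : ℝ) ^ 2 := by simp [sq]
  · intro a x b y
    by_cases h : a = b
    · by_cases h' : H x y
      · rw [if_pos ((bH_iff H a b x y).2 ⟨h, h'⟩), if_pos h, if_pos h']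
      · rw [if_neg fun e => h' ((bH_iff H a b x y).1 e).2, if_pos h, if_neg h']
    · rw [if_neg fun e => h ((bH_iff H a b x y).1 e).1, if_neg h]

theorem b_clique (H : Fin n → Fin n → Prop) (hr : ∀ i, H i i) (hs : ∀ i j, H i j → H j i)
    (hr' : ∀ i, bH r H i i) (hs' : ∀ i j, bH r H i j → bH r H j i) :
    (g0 (bH r H) hr' hs').cliqueNum ≤ (g0 H hr hs).cliqueNum * r := by
  classical
  obtain ⟨K, hK⟩ := (g0 (bH r H) hr' hs').exists_isNClique_cliqueNum
  rw [← hK.card_eq]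
  have h := Finset.card_le_mul_card_image_of_maps_to (s := K) (t := (univ : Finset (Fin r)))
    (f := fun i => (finProdFinEquiv.symm i).1) (fun _ _ => mem_univ _) (g0 H hr hs).cliqueNum
    (fun a _ => by
      have hinj : Set.InjOn (fun i : Fin (r * n) => (finProdFinEquiv.symm i).2)
          (K.filter fun i => (finProdFinEquiv.symm i).1 = a) := fun i hi j hj e =>
        finProdFinEquiv.symm.injective (Prod.ext
          ((Finset.mem_filter.1 (Finset.mem_coe.1 hi)).2.trans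
            (Finset.mem_filter.1 (Finset.mem_coe.1 hj)).2.symm) e)
      rw [← Finset.card_image_of_injOn hinj]
      refine SimpleGraph.IsClique.card_le_cliqueNum (tc := ?_)
      intro x hx y hy hxy
      obtain ⟨i, hi, rfl⟩ := Finset.mem_image.1 (Finset.mem_coe.1 hx)
      obtain ⟨j, hj, rfl⟩ := Finset.mem_image.1 (Finset.mem_coe.1 hy)
      intro e
      exact hK.isClique (Finset.mem_coe.2 (Finset.mem_filter.1 hi).1)
        (Finset.mem_coe.2 (Finset.mem_filter.1 hj).1) (fun h => hxy (by rw [h]))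
        ⟨(Finset.mem_filter.1 hi).2.trans (Finset.mem_filter.1 hj).2.symm, e⟩)
  simpa using h

end

theorem arith (k s r t w M E : ℝ) (hk : 1 ≤ k) (hs : 1 ≤ s) (hr : 0 ≤ r) (ht : 0 ≤ t)
    (hw : 32 * s * (k + 1) ≤ w) (h1 : w ≤ t + r * k) (h2 : t + r * k ≤ 2 * w)
    (h3 : w ≤ 4 * s * (r * k))
    (hM : (r * (k * s) + t * s) ^ 2 - r * (k * s) ^ 2 - t * s ^ 2 ≤ M)
    (hE : M - (r * (k * s ^ 2 / 2) + t * s ^ 2) < E) :
    (1 - (1 - 1 / (32 * s)) / w) * M < E := by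
  have hs0 : 0 < s := by linarith
  have hw0 : 0 < w := lt_of_lt_of_le (by positivity) hw
  obtain ⟨u, hu⟩ : ∃ u, u = t + r * k := ⟨_, rfl⟩
  obtain ⟨ε, hε⟩ : ∃ ε, ε = 1 / (32 * s) := ⟨_, rfl⟩
  have hε0 : 0 < ε := by rw [hε]; positivity
  have hε1 : ε * (32 * s) = 1 := by rw [hε]; field_simp
  have hε2 : ε ≤ 1 := by nlinarith
  have hrk : 0 ≤ r * k := by positivity
  rw [← hu] at h1 h2
  have hu0 : 0 < u := by linarith
  -- the two estimates
  have a1 : 4 * ε * u ≤ r * k := by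
    have : u ≤ 8 * s * (r * k) := by linarith
    have h5 : 4 * ε * u ≤ 4 * ε * (8 * s * (r * k)) := by gcongr
    have h6 : 4 * ε * (8 * s * (r * k)) = ε * (32 * s) * (r * k) := by ring
    rw [h6, hε1, one_mul] at h5
    exact h5
  have a2 : k + 1 ≤ ε * u := by
    have h5 : ε * (32 * s * (k + 1)) ≤ ε * u := by gcongr; linarith
    have h6 : ε * (32 * s * (k + 1)) = ε * (32 * s) * (k + 1) := by ring
    rw [h6, hε1, one_mul] at h5
    exact h5
  have a3 : r * k ^ 2 + t ≤ (k + 1) * u := by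
    have : r * k ^ 2 + t ≤ (k + 1) * (t + r * k) := by
      nlinarith [mul_nonneg ht (show 0 ≤ k by linarith)]
    rwa [← hu] at this
  have a4 : 0 ≤ r * k ^ 2 + t := by positivity
  have a5 : u * (u - r * k / 2) ≤ (1 - ε) * (u ^ 2 - r * k ^ 2 - t) := by
    have b1 : (k + 1) * u ≤ ε * u * u := by gcongr
    have b2 : 4 * ε * u * u ≤ r * k * u := by gcongr
    have b3 : 0 ≤ ε * (r * k ^ 2 + t) := by positivity
    nlinarith
  have a6 : s ^ 2 * (u ^ 2 - r * k ^ 2 - t) ≤ M := by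
    refine le_trans (le_of_eq ?_) hM
    rw [hu]; ring
  have a7 : r * (k * s ^ 2 / 2) + t * s ^ 2 = s ^ 2 * (u - r * k / 2) := by rw [hu]; ring
  have a8 : 0 ≤ u - r * k / 2 := by rw [hu]; linarith
  have a9 : w * (s ^ 2 * (u - r * k / 2)) ≤ (1 - ε) * M :=
    calc w * (s ^ 2 * (u - r * k / 2)) ≤ u * (s ^ 2 * (u - r * k / 2)) := by gcongr
      _ = s ^ 2 * (u * (u - r * k / 2)) := by ring
      _ ≤ s ^ 2 * ((1 - ε) * (u ^ 2 - r * k ^ 2 - t)) := by gcongr
      _ = (1 - ε) * (s ^ 2 * (u ^ 2 - r * k ^ 2 - t)) := by ring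
      _ ≤ (1 - ε) * M := mul_le_mul_of_nonneg_left a6 (by linarith)
  have a10 : s ^ 2 * (u - r * k / 2) ≤ (1 - ε) / w * M := by
    rw [div_mul_eq_mul_div, le_div_iff₀ hw0]
    linarith
  rw [← hε]
  rw [a7] at hE
  linarith

theorem main : ∃ ε : ℝ, 0 < ε ∧ ∃ ω₀ : ℕ, ∀ ω : ℕ, ω₀ ≤ ω →
    ∃ (V : Type) (_ : Fintype V) (_ : DecidableEq V) (G : SimpleGraph V) (_ : DecidableRel G.Adj)
      (hA : (G.adjMatrix ℝ).IsHermitian) (S : Finset V),
      (∃ s : Finset V, G.IsNClique ω s) ∧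
      (∀ (k : ℕ) (s : Finset V), G.IsNClique k s → k ≤ ω) ∧
      S.card ≤ ω ∧ (∀ i ∈ S, 0 < hA.eigenvalues i) ∧
      2 * (1 - (1 - ε) / (ω : ℝ)) * (Nat.card G.edgeSet : ℝ) < ∑ i ∈ S, hA.eigenvalues i ^ 2 := by
  obtain ⟨k, s, H, Y, hk, hs, hr, hsy, hY, hind, hσ⟩ := exists_key
  have hk' : (1 : ℝ) ≤ k := by exact_mod_cast hk
  have hs' : (1 : ℝ) ≤ s := by exact_mod_cast hs
  refine ⟨1 / (32 * s), by positivity, 2 * (k * s) + 32 * s * (k + 1), fun w hw => ?_⟩
  have hn0 : 0 < k * s := Nat.mul_pos hk hs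
  obtain ⟨r, hrdef⟩ : ∃ r, r = w / (2 * (k * s)) := ⟨_, rfl⟩
  have r1 : 2 * (k * s) * r ≤ w := by rw [hrdef]; exact Nat.mul_div_le _ _
  have r2 : w < 2 * (k * s) * (r + 1) := by
    rw [hrdef]; exact Nat.lt_mul_div_succ _ (by omega)
  have r3 : 1 ≤ r := by
    rw [hrdef]; exact (Nat.le_div_iff_mul_le (by omega)).2 (by omega)
  have hr' : ∀ i, bH r H i i := fun i => ⟨rfl, hr _⟩
  have hs'' : ∀ i j, bH r H i j → bH r H j i := fun i j h => ⟨h.1.symm, hsy _ _ h.2⟩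
  obtain ⟨a, ha⟩ : ∃ a, a = (g0 (bH r H) hr' hs'').cliqueNum := ⟨_, rfl⟩
  have a1 : a ≤ r * k := by
    rw [ha]
    exact ((b_clique H hr hsy hr' hs'').trans
      (Nat.mul_le_mul_right _ (g0_lt H hr hsy hind).le)).trans (Nat.mul_comm _ _).le
  have a2 : r * k ≤ r * (k * s) := Nat.mul_le_mul_left _ (Nat.le_mul_of_pos_right _ hs)
  have a3 : 2 * (r * (k * s)) ≤ w := by
    refine le_trans (le_of_eq ?_) r1
    ring
  have a4 : 1 ≤ r * (k * s) := Nat.mul_pos r3 hn0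
  have a5 : w ≤ 4 * s * (r * k) := by
    have : 2 * (k * s) * (r + 1) ≤ 2 * (k * s) * (2 * r) := Nat.mul_le_mul_left _ (by omega)
    refine r2.le.trans (this.trans (le_of_eq ?_))
    ring
  obtain ⟨t, ht⟩ : ∃ t, w = a + t := ⟨w - a, by omega⟩
  have hr0 : (0 : ℝ) < r := by exact_mod_cast r3
  obtain ⟨inst, hA, S, hS1, hS2, hM, hE⟩ := join_bound (r * (k * s)) t s (by omega) (bH r H)
    (bY r Y) hr' hs'' (bY_psd Y hY) (r * ((k : ℝ) * (s : ℝ) ^ 2 / 2)) (r * ((k * s : ℕ) : ℝ) ^ 2)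
    (by rw [b_sigma]; exact mul_lt_mul_of_pos_left hσ hr0) (b_pairs H)
  have hcn : (jg t s (bH r H) hr' hs'').cliqueNum = w := by
    rw [jg_cliqueNum t s hs, ← ha, ht]
  refine ⟨_, inferInstance, inferInstance, jg t s (bH r H) hr' hs'', inst, hA, S, ?_, ?_,
    by omega, hS2, ?_⟩
  · rw [← hcn]
    exact SimpleGraph.exists_isNClique_cliqueNum
  · intro j K hK
    rw [← hcn, ← hK.card_eq]
    exact hK.isClique.card_le_cliqueNum
  · push_cast at hM
    have := arith k s r t w _ _ hk' hs' hr0.le (Nat.cast_nonneg _)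
      (by exact_mod_cast (show 32 * s * (k + 1) ≤ w by omega))
      (by exact_mod_cast (show w ≤ t + r * k by omega))
      (by exact_mod_cast (show t + r * k ≤ 2 * w by omega))
      (by exact_mod_cast a5) hM hE
    refine lt_of_eq_of_lt ?_ this
    ring

end Pool.Agent.P.MP_416653_co.Ex
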