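import Mathlib
import Pool.Agent.P.MP_416653_co.Count

set_option autoImplicit false

namespace Pool.Agent.P.MP_416653_co

open Finset Matrix

set_option linter.unusedSectionVars false

variable {F : Type} [Field F] [Fintype F] [DecidableEq F]

def HH (d : F) {c : ℕ} (v : Fin c → EE F) : Prop := ∃ l, TT d (v l)

instance (d : F) {c : ℕ} : DecidablePred (HH d (c := c)) :=
  fun s => by unfold HH; infer_instance

noncomputable def YY (d : F) {c : ℕ} (v : Fin c → EE F) : ℝ := ∑ l, Y1 d (v l)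

noncomputable def ph (d : F) {c : ℕ} (v : Fin c → EE F) : ℝ :=
  (if HH d v then 1 else 0) + YY d v

theorem ph_sq_le (d : F) {c : ℕ} (v : Fin c → EE F) :
    ph d v ^ 2 ≤ 3 * (((c : ℝ) / Fintype.card F) ^ 2 +
      ∑ l, ∑ l' ∈ univ.erase l,
        (if TT d (v l) then (1 : ℝ) else 0) * (if TT d (v l') then (1 : ℝ) else 0) +
      (2 * (Fintype.card F : ℝ) + 1) ^ 2 * c * ∑ l, (if v l = 0 then (1 : ℝ) else 0)) := by
  set q := (Fintype.card F : ℝ) with hqdef
  set X := ∑ l, (if TT d (v l) then (1 : ℝ) else 0) with hX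
  set Z := ∑ l, (if v l = 0 then (1 : ℝ) else 0) with hZ
  have e1 : ph d v = c / q - (X - (if HH d v then 1 else 0)) + (2 * q + 1) * Z := by
    unfold ph YY Y1
    rw [Finset.sum_add_distrib, Finset.sum_sub_distrib, ← Finset.mul_sum]
    simp only [sum_const, card_univ, Fintype.card_fin, nsmul_eq_mul]
    rw [← hqdef, ← hX, ← hZ]
    ring
  have e2 : ∑ l, ∑ l' ∈ univ.erase l,
        (if TT d (v l) then (1 : ℝ) else 0) * (if TT d (v l') then (1 : ℝ) else 0) = X ^ 2 - X := by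
    rw [sq, hX, Finset.sum_mul_sum, ← Finset.sum_sub_distrib]
    refine Finset.sum_congr rfl fun l _ => ?_
    rw [← Finset.add_sum_erase _ _ (Finset.mem_univ l)]
    split_ifs <;> simp
  have e3 : (X - (if HH d v then 1 else 0)) ^ 2 ≤ X ^ 2 - X := by
    by_cases h : HH d v
    · obtain ⟨l, hl⟩ := h
      have h : HH d v := ⟨l, hl⟩
      have : 1 ≤ X := by
        have := Finset.single_le_sum (f := fun l => if TT d (v l) then (1 : ℝ) else 0)
          (fun j _ => by split_ifs <;> norm_num) (Finset.mem_univ l)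
        simp only [hl, if_true] at this
        exact this
      rw [if_pos h]
      nlinarith
    · have : X = 0 := by
        refine Finset.sum_eq_zero fun l _ => ?_
        rw [if_neg]
        exact fun hl => h ⟨l, hl⟩
      simp [h, this]
  have hZ0 : 0 ≤ Z := Finset.sum_nonneg fun l _ => by split_ifs <;> norm_num
  have hZc : Z ≤ c := by
    have : Z ≤ ∑ _l : Fin c, (1 : ℝ) := Finset.sum_le_sum fun l _ => by split_ifs <;> norm_num
    simpa using this
  have e4 : ((2 * q + 1) * Z) ^ 2 ≤ (2 * q + 1) ^ 2 * c * Z := by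
    rw [mul_pow, mul_assoc, sq Z]
    gcongr
  rw [e1, e2]
  set A := (c : ℝ) / q
  set B := X - (if HH d v then 1 else 0)
  set C := (2 * q + 1) * Z
  nlinarith [sq_nonneg (A + B), sq_nonneg (A - C), sq_nonneg (B + C)]

theorem av_TT (d : F) :
    av (fun a : EE F => if TT d a then (1 : ℝ) else 0) ≤ 1 / (Fintype.card F : ℝ) := by
  have hq := two_le_q (F := F)
  unfold av
  rw [card_EE, div_le_div_iff₀ (by positivity) (by positivity)]
  have := TT_count d
  have h2 : (∑ v : EE F, (if TT d v then (1 : ℝ) else 0)) * (Fintype.card F : ℝ) ≤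
    (Fintype.card F : ℝ) ^ 3 * (Fintype.card F : ℝ) := by gcongr
  refine h2.trans (le_of_eq ?_)
  ring

theorem av_pair (d : F) {c : ℕ} (l l' : Fin c) (h : l' ≠ l) :
    av (fun v : Fin c → EE F =>
      (if TT d (v l) then (1 : ℝ) else 0) * (if TT d (v l') then (1 : ℝ) else 0)) ≤
      (1 / (Fintype.card F : ℝ)) ^ 2 := by
  let φ : (Fin c → EE F) →+ (EE F × EE F) :=
    AddMonoidHom.mk' (fun v => (v l, v l')) (fun a b => rfl)
  have hφ : Function.Surjective φ := by
    intro p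
    refine ⟨fun i => if i = l then p.1 else p.2, ?_⟩
    simp [φ, h]
  have := av_comp_surj φ hφ
    (fun p => (if TT d p.1 then (1 : ℝ) else 0) * (if TT d p.2 then (1 : ℝ) else 0))
  refine (le_of_eq this).trans ?_
  have h2 : av (fun p : EE F × EE F =>
      (if TT d p.1 then (1 : ℝ) else 0) * (if TT d p.2 then (1 : ℝ) else 0)) =
      av (fun a : EE F => if TT d a then (1 : ℝ) else 0) ^ 2 := by
    unfold av
    rw [Fintype.sum_prod_type]
    simp only
    rw [sq, div_mul_div_comm, Finset.sum_mul_sum, Fintype.card_prod]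
    push_cast
    rfl
  rw [h2]
  have h3 : 0 ≤ av (fun a : EE F => if TT d a then (1 : ℝ) else 0) := by
    unfold av
    exact div_nonneg (Finset.sum_nonneg fun l _ => by split_ifs <;> norm_num) (by positivity)
  gcongr
  exact av_TT d

theorem av_zero {c : ℕ} (l : Fin c) :
    av (fun v : Fin c → EE F => (if v l = 0 then (1 : ℝ) else 0)) =
      1 / (Fintype.card F : ℝ) ^ 4 := by
  let φ : (Fin c → EE F) →+ EE F := AddMonoidHom.mk' (fun v => v l) (fun a b => rfl)
  have hφ : Function.Surjective φ := fun p => ⟨fun _ => p, rfl⟩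
  have := av_comp_surj φ hφ (fun p => (if p = 0 then (1 : ℝ) else 0))
  refine this.trans ?_
  unfold av
  rw [card_EE]
  simp

theorem av_ph_sq (d : F) (c : ℕ) :
    av (fun v : Fin c → EE F => ph d v ^ 2) ≤ 33 * (c : ℝ) ^ 2 / (Fintype.card F : ℝ) ^ 2 := by
  have hq := two_le_q (F := F)
  refine (av_mono (ph_sq_le d)).trans ?_
  rw [av_mul, av_add, av_add, av_const, av_mul, av_sum, av_sum]
  set q := (Fintype.card F : ℝ) with hqdef
  have h1 : ∑ l : Fin c, av (fun v : Fin c → EE F => ∑ l' ∈ univ.erase l,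
        (if TT d (v l) then (1 : ℝ) else 0) * (if TT d (v l') then (1 : ℝ) else 0)) ≤
        (c : ℝ) * (c * (1 / q) ^ 2) := by
    refine le_trans (Finset.sum_le_card_nsmul _ _ (c * (1 / q) ^ 2) ?_) (by simp)
    intro l _
    rw [av_sum]
    refine le_trans (Finset.sum_le_card_nsmul _ _ ((1 / q) ^ 2) ?_) ?_
    · intro l' hl'
      exact av_pair d l l' (Finset.mem_erase.1 hl').1
    · rw [nsmul_eq_mul]
      gcongr
      simp
  have h2 : ∑ l : Fin c, av (fun v : Fin c → EE F => (if v l = 0 then (1 : ℝ) else 0)) =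
      c * (1 / q ^ 4) := by
    rw [Finset.sum_congr rfl (fun l _ => av_zero l)]
    simp [hqdef]
  rw [h2]
  have h3 : (2 * q + 1) ^ 2 * c * (c * (1 / q ^ 4)) ≤ 9 * (c : ℝ) ^ 2 / q ^ 2 := by
    have : (2 * q + 1) ^ 2 ≤ (3 * q) ^ 2 := by
      gcongr
      linarith
    calc (2 * q + 1) ^ 2 * c * (c * (1 / q ^ 4)) ≤ (3 * q) ^ 2 * c * (c * (1 / q ^ 4)) := by gcongr
      _ = 9 * (c : ℝ) ^ 2 / q ^ 2 := by field_simp; ring
  have h4 : (c : ℝ) * (c * (1 / q) ^ 2) = (c : ℝ) ^ 2 / q ^ 2 := by field_simp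
  have h5 : ((c : ℝ) / q) ^ 2 = (c : ℝ) ^ 2 / q ^ 2 := by field_simp
  rw [h4] at h1
  rw [h5]
  have : 33 * (c : ℝ) ^ 2 / q ^ 2 = 3 * ((c : ℝ) ^ 2 / q ^ 2 + (c : ℝ) ^ 2 / q ^ 2 +
    9 * (c : ℝ) ^ 2 / q ^ 2) := by ring
  rw [this]
  gcongr

theorem ph_zero_sq (d : F) (c : ℕ) (hc : 1 ≤ c) :
    ph d (0 : Fin c → EE F) ^ 2 ≤ 9 * (c : ℝ) ^ 2 * (Fintype.card F : ℝ) ^ 2 := by
  have hq := two_le_q (F := F)
  set q := (Fintype.card F : ℝ) with hqdef
  have hc' : (1 : ℝ) ≤ c := by exact_mod_cast hc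
  have hH : HH d (0 : Fin c → EE F) := ⟨⟨0, hc⟩, TT_zero d⟩
  have e : ph d (0 : Fin c → EE F) = 1 + c * (1 / q + 2 * q) := by
    unfold ph YY Y1
    simp [hH, TT_zero, hqdef]
    ring
  have h1 : 1 / q ≤ 1 := by
    rw [div_le_one (by positivity)]
    linarith
  have h0 : 0 ≤ 1 / q := by positivity
  have h2 : 1 + c * (1 / q + 2 * q) ≤ 3 * c * q := by nlinarith
  rw [e]
  calc (1 + c * (1 / q + 2 * q)) ^ 2 ≤ (3 * c * q) ^ 2 := by gcongr
    _ = _ := by ring

theorem av_sigma (d : F) (c n : ℕ) (hc : 1 ≤ c) (hn : (Fintype.card F : ℝ) ^ 4 ≤ n) :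
    av (fun x : Fin n → Fin c → EE F => ∑ i, ∑ j, ph d (x i - x j) ^ 2) ≤
      42 * (c : ℝ) ^ 2 * (n : ℝ) ^ 2 / (Fintype.card F : ℝ) ^ 2 := by
  have hq := two_le_q (F := F)
  set q := (Fintype.card F : ℝ) with hqdef
  rw [av_sum]
  have h1 : ∀ i : Fin n, av (fun x : Fin n → Fin c → EE F => ∑ j, ph d (x i - x j) ^ 2) ≤
      9 * (c : ℝ) ^ 2 * q ^ 2 + n * (33 * (c : ℝ) ^ 2 / q ^ 2) := by
    intro i
    rw [av_sum, ← Finset.add_sum_erase _ _ (Finset.mem_univ i)]
    refine add_le_add ?_ ?_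
    · simp only [sub_self]
      rw [av_const]
      exact ph_zero_sq d c hc
    · refine le_trans (Finset.sum_le_card_nsmul _ _ (33 * (c : ℝ) ^ 2 / q ^ 2) ?_) ?_
      · intro j hj
        have hji := (Finset.mem_erase.1 hj).1
        let φ : (Fin n → Fin c → EE F) →+ (Fin c → EE F) :=
          AddMonoidHom.mk' (fun x => x i - x j) (fun a b => by
            simp only [Pi.add_apply]
            abel)
        have hφ : Function.Surjective φ := by
          intro p
          refine ⟨fun a => if a = i then p else 0, ?_⟩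
          simp [φ, hji]
        have := av_comp_surj φ hφ (fun v => ph d v ^ 2)
        exact (le_of_eq this).trans (av_ph_sq d c)
      · rw [nsmul_eq_mul]
        gcongr
        simp
  refine le_trans (Finset.sum_le_card_nsmul _ _ _ (fun i _ => h1 i)) ?_
  simp only [card_univ, Fintype.card_fin, nsmul_eq_mul]
  have h2 : 9 * (c : ℝ) ^ 2 * q ^ 2 ≤ n * (9 * (c : ℝ) ^ 2 / q ^ 2) := by
    calc 9 * (c : ℝ) ^ 2 * q ^ 2 = q ^ 4 * (9 * (c : ℝ) ^ 2 / q ^ 2) := by field_simp
      _ ≤ _ := by gcongr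
  calc (n : ℝ) * (9 * (c : ℝ) ^ 2 * q ^ 2 + n * (33 * (c : ℝ) ^ 2 / q ^ 2)) ≤
      n * (n * (9 * (c : ℝ) ^ 2 / q ^ 2) + n * (33 * (c : ℝ) ^ 2 / q ^ 2)) := by gcongr
    _ = _ := by ring

theorem av_indep (d : F) (hq : (16 : ℝ) ≤ Fintype.card F) (c n k : ℕ)
    (hk : k = 48 * Fintype.card F)
    (ι : Fin k → Fin n) (hι : Function.Injective ι) :
    av (fun x : Fin n → Fin c → EE F =>
      if (∀ a b, a ≠ b → ¬ HH d (x (ι a) - x (ι b))) then (1 : ℝ) else 0) ≤
      ((1 / 2) ^ k) ^ c := by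
  let φ : (Fin n → Fin c → EE F) →+ (Fin c → Fin k → EE F) :=
    AddMonoidHom.mk' (fun x l a => x (ι a) l) (fun a b => rfl)
  have hφ : Function.Surjective φ := by
    intro y
    refine ⟨Function.extend ι (fun a l => y l a) 0, ?_⟩
    funext l a
    simp [φ, hι.extend_apply]
  have h1 := av_comp_surj φ hφ (fun y => ∏ l, if Ind d univ (y l) then (1 : ℝ) else 0)
  have h2 : ∀ x : Fin n → Fin c → EE F,
      (if (∀ a b, a ≠ b → ¬ HH d (x (ι a) - x (ι b))) then (1 : ℝ) else 0) ≤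
      ∏ l, if Ind d univ (φ x l) then (1 : ℝ) else 0 := by
    intro x
    by_cases h : (∀ a b, a ≠ b → ¬ HH d (x (ι a) - x (ι b)))
    · rw [if_pos h]
      apply le_of_eq
      symm
      refine Finset.prod_eq_one fun l _ => ?_
      rw [if_pos]
      refine ⟨fun _ => mem_univ _, fun a b hab hT => h a b hab ⟨l, hT⟩⟩
    · rw [if_neg h]
      exact Finset.prod_nonneg fun l _ => by split_ifs <;> norm_num
  refine (av_mono h2).trans ((le_of_eq h1).trans ?_)
  have h3 : av (fun y : Fin c → Fin k → EE F => ∏ l, if Ind d univ (y l) then (1 : ℝ) else 0) =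
      av (fun s : Fin k → EE F => if Ind d univ s then (1 : ℝ) else 0) ^ c := by
    unfold av
    have := Finset.prod_univ_sum (fun _ : Fin c => (univ : Finset (Fin k → EE F)))
      (fun _ s => if Ind d univ s then (1 : ℝ) else 0)
    rw [Fintype.piFinset_univ] at this
    rw [← this, div_pow, Fintype.card_fun (α := Fin c)]
    simp
  rw [h3]
  have h4 : 0 ≤ av (fun s : Fin k → EE F => if Ind d univ s then (1 : ℝ) else 0) := by
    unfold av
    exact div_nonneg (Finset.sum_nonneg fun l _ => by split_ifs <;> norm_num) (by positivity)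
  gcongr
  subst hk
  exact av_ind_le d hq

theorem exists_labels (d : F) (hq : (16 : ℝ) ≤ Fintype.card F) (c n : ℕ) (hc : 1 ≤ c)
    (hn : (Fintype.card F : ℝ) ^ 4 ≤ n) (hn2 : 2 * (n : ℝ) ≤ 2 ^ c)
    (hqc : 8064 * (c : ℝ) ^ 2 ≤ Fintype.card F) :
    ∃ x : Fin n → Fin c → EE F,
      ∑ i, ∑ j, ph d (x i - x j) ^ 2 < (n : ℝ) ^ 2 / (2 * (48 * Fintype.card F)) ∧
      ∀ ι : Fin (48 * Fintype.card F) → Fin n, Function.Injective ι →
        ∃ a b, a ≠ b ∧ HH d (x (ι a) - x (ι b)) := by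
  classical
  set k := 48 * Fintype.card F with hk
  set q := (Fintype.card F : ℝ) with hqdef
  have hq0 : 0 < q := by linarith
  have hn0 : (0 : ℝ) < n := lt_of_lt_of_le (by positivity) hn
  set T : ℝ := (n : ℝ) ^ 2 / (2 * (48 * q)) with hT
  have hT0 : 0 < T := by positivity
  let I : (Fin n → Fin c → EE F) → ℝ := fun x =>
    ∑ ι ∈ univ.filter (fun ι : Fin k → Fin n => Function.Injective ι),
      if (∀ a b, a ≠ b → ¬ HH d (x (ι a) - x (ι b))) then (1 : ℝ) else 0
  obtain ⟨x, hx⟩ := exists_le_av (fun x : Fin n → Fin c → EE F =>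
    (1 / T) * (∑ i, ∑ j, ph d (x i - x j) ^ 2) + I x)
  rw [av_add, av_mul] at hx
  have h1 : (1 / T) * av (fun x : Fin n → Fin c → EE F => ∑ i, ∑ j, ph d (x i - x j) ^ 2) ≤
      1 / 2 := by
    have := av_sigma d c n hc hn
    rw [← hqdef] at this
    calc (1 / T) * av (fun x : Fin n → Fin c → EE F => ∑ i, ∑ j, ph d (x i - x j) ^ 2) ≤
        (1 / T) * (42 * (c : ℝ) ^ 2 * (n : ℝ) ^ 2 / q ^ 2) := by gcongr
      _ = (8064 * (c : ℝ) ^ 2) / q / 2 := by
          rw [hT]; field_simp; ring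
      _ ≤ q / q / 2 := by gcongr
      _ = 1 / 2 := by field_simp
  have hk1 : 2 ≤ k := by
    have : 16 ≤ Fintype.card F := by
      rw [hqdef] at hq
      exact_mod_cast hq
    omega
  have h2 : av I ≤ 1 / 4 := by
    simp only [I]
    rw [av_sum]
    refine le_trans (Finset.sum_le_card_nsmul _ _ (((1 / 2) ^ k) ^ c) ?_) ?_
    · intro ι hι
      exact av_indep d hq c n k hk ι (Finset.mem_filter.1 hι).2
    · rw [nsmul_eq_mul]
      have hcard : ((univ.filter (fun ι : Fin k → Fin n => Function.Injective ι)).card : ℝ) ≤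
          (n : ℝ) ^ k := by
        have := Finset.card_le_univ (univ.filter (fun ι : Fin k → Fin n => Function.Injective ι))
        rw [Fintype.card_fun, Fintype.card_fin, Fintype.card_fin] at this
        exact_mod_cast this
      calc _ ≤ (n : ℝ) ^ k * ((1 / 2) ^ k) ^ c := by gcongr
        _ = ((n : ℝ) / 2 ^ c) ^ k := by
            rw [pow_right_comm, ← mul_pow]
            congr 1
            rw [one_div, inv_pow, div_eq_mul_inv]
        _ ≤ (1 / 2) ^ k := by
            refine pow_le_pow_left₀ (by positivity) ?_ _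
            rw [div_le_div_iff₀ (by positivity) (by positivity)]
            linarith
        _ ≤ (1 / 2) ^ 2 := pow_le_pow_of_le_one (by norm_num) (by norm_num) hk1
        _ = 1 / 4 := by norm_num
  have hI0 : 0 ≤ I x := Finset.sum_nonneg fun l _ => by split_ifs <;> norm_num
  have hS0 : 0 ≤ (1 / T) * (∑ i, ∑ j, ph d (x i - x j) ^ 2) := by positivity
  refine ⟨x, ?_, ?_⟩
  · have : (1 / T) * (∑ i, ∑ j, ph d (x i - x j) ^ 2) < 1 := by linarith
    rw [one_div, inv_mul_lt_iff₀ hT0, mul_one] at this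
    exact this
  · intro ι hι
    by_contra hcon
    push Not at hcon
    have : (1 : ℝ) ≤ I x := by
      have := Finset.single_le_sum (s := univ.filter (fun ι : Fin k → Fin n => Function.Injective ι))
        (f := fun ι => if (∀ a b, a ≠ b → ¬ HH d (x (ι a) - x (ι b))) then (1 : ℝ) else 0)
        (fun j _ => by split_ifs <;> norm_num) (a := ι) (by simp [hι])
      rw [if_pos hcon] at this
      exact this
    linarith

theorem YY_psd {d : F} (hd : ¬ IsSquare d) {c n : ℕ} (x : Fin n → Fin c → EE F) (u : Fin n → ℝ) :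
    0 ≤ ∑ i, ∑ j, u i * u j * YY d (x i - x j) := by
  have : ∑ i, ∑ j, u i * u j * YY d (x i - x j) =
      ∑ l : Fin c, ∑ i, ∑ j, u i * u j * Y1 d (x i l - x j l) := by
    unfold YY
    rw [Finset.sum_comm (s := (univ : Finset (Fin c)))]
    refine Finset.sum_congr rfl fun i _ => ?_
    rw [Finset.sum_comm (s := (univ : Finset (Fin c)))]
    refine Finset.sum_congr rfl fun j _ => ?_
    rw [Finset.mul_sum]
    rfl
  rw [this]
  exact Finset.sum_nonneg fun l _ => Y1_psd hd (fun i => x i l) u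

theorem HH_symm (d : F) {c : ℕ} {x y : Fin c → EE F} (h : HH d (x - y)) : HH d (y - x) := by
  obtain ⟨l, hl⟩ := h
  exact ⟨l, TT_symm d hl⟩

theorem HH_refl (d : F) {c : ℕ} (hc : 1 ≤ c) (x : Fin c → EE F) : HH d (x - x) := by
  rw [sub_self]
  exact ⟨⟨0, hc⟩, TT_zero d⟩

/-- the key object: a reflexive symmetric relation with small independence number whose
  positive square energy is small -/
theorem exists_key : ∃ (k s : ℕ) (H : Fin (k * s) → Fin (k * s) → Prop)
    (Y : Fin (k * s) → Fin (k * s) → ℝ), 1 ≤ k ∧ 1 ≤ s ∧ (∀ i, H i i) ∧ (∀ i j, H i j → H j i) ∧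
    (∀ u : Fin (k * s) → ℝ, 0 ≤ ∑ i, ∑ j, u i * u j * Y i j) ∧
    (∀ ι : Fin k → Fin (k * s), Function.Injective ι → ∃ a b, a ≠ b ∧ H (ι a) (ι b)) ∧
    ∑ i, ∑ j, ((@ite ℝ (H i j) (Classical.propDecidable _) 1 0) + Y i j) ^ 2 <
      (k : ℝ) * (s : ℝ) ^ 2 / 2 := by
  obtain ⟨p, hp, hp1, hp2⟩ := Nat.exists_prime_lt_and_le_two_mul (2 ^ 31) (by norm_num)
  have : Fact p.Prime := ⟨hp⟩
  have hchar : ringChar (ZMod p) ≠ 2 := by
    rw [ZMod.ringChar_zmod_n]
    omega
  obtain ⟨d, hd⟩ := FiniteField.exists_nonsquare hchar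
  have hcard : Fintype.card (ZMod p) = p := ZMod.card p
  have hp1' : (2 : ℝ) ^ 31 ≤ p := by exact_mod_cast hp1.le
  have hp2' : (p : ℝ) ≤ 2 * 2 ^ 31 := by exact_mod_cast hp2
  obtain ⟨x, hx1, hx2⟩ := exists_labels d (by rw [hcard]; linarith) 135
    (48 * Fintype.card (ZMod p) * p ^ 3) (by norm_num)
    (by
      rw [hcard]; push_cast
      have : (0 : ℝ) ≤ (p : ℝ) ^ 4 := by positivity
      nlinarith)
    (by
      rw [hcard]; push_cast
      have : (p : ℝ) ^ 4 ≤ (2 * 2 ^ 31) ^ 4 := by gcongr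
      nlinarith)
    (by rw [hcard]; push_cast; linarith)
  refine ⟨48 * Fintype.card (ZMod p), p ^ 3, fun i j => HH d (x i - x j),
    fun i j => YY d (x i - x j), ?_, ?_, fun i => HH_refl d (by norm_num) _,
    fun i j h => HH_symm d h, YY_psd hd x, hx2, ?_⟩
  · rw [hcard]; omega
  · exact Nat.one_le_pow _ _ hp.pos
  · have e : ∀ i j, ((@ite ℝ (HH d (x i - x j)) (Classical.propDecidable _) 1 0) +
        YY d (x i - x j)) = ph d (x i - x j) := by
      intro i j
      unfold ph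
      congr
    simp only [e]
    refine hx1.trans_le (le_of_eq ?_)
    rw [hcard]
    push_cast
    have : (p : ℝ) ≠ 0 := by positivity
    field_simp

end Pool.Agent.P.MP_416653_co
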