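import Mathlib

set_option autoImplicit false

namespace Pool.Agent.P.MP_416653_co

open Matrix Finset

set_option linter.unusedSectionVars false

variable {V : Type} [Fintype V] [DecidableEq V]

theorem frob_eq_trace (M : Matrix V V ℝ) :
    ∑ u, ∑ v, M u v ^ 2 = trace (Mᵀ * M) := by
  simp only [trace, Matrix.diag, mul_apply, transpose_apply]
  rw [Finset.sum_comm]
  simp [sq]

theorem frob_conj (U M : Matrix V V ℝ) (h : U * Uᵀ = 1) :
    ∑ u, ∑ v, (Uᵀ * M * U) u v ^ 2 = ∑ u, ∑ v, M u v ^ 2 := by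
  rw [frob_eq_trace, frob_eq_trace]
  have : (Uᵀ * M * U)ᵀ * (Uᵀ * M * U) = Uᵀ * (Mᵀ * M * U) := by
    simp only [transpose_mul, transpose_transpose]
    calc Uᵀ * (Mᵀ * U) * (Uᵀ * M * U) = Uᵀ * (Mᵀ * (U * Uᵀ) * M * U) := by
          simp only [Matrix.mul_assoc]
      _ = Uᵀ * (Mᵀ * M * U) := by rw [h, Matrix.mul_one]
  rw [this, trace_mul_comm, Matrix.mul_assoc, h, Matrix.mul_one]

theorem exists_diag (A : Matrix V V ℝ) (hA : A.IsHermitian) :
    ∃ U : Matrix V V ℝ, U * Uᵀ = 1 ∧ Uᵀ * A * U = diagonal hA.eigenvalues := by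
  refine ⟨(hA.eigenvectorUnitary : Matrix V V ℝ), ?_, ?_⟩
  · have := Unitary.coe_mul_star_self hA.eigenvectorUnitary
    simpa [star_eq_conjTranspose] using this
  · have := hA.conjStarAlgAut_star_eigenvectorUnitary
    rw [Unitary.conjStarAlgAut_star_apply] at this
    simpa [star_eq_conjTranspose, Function.comp_def] using this

theorem quad_conj (U M : Matrix V V ℝ) (c : V → ℝ) :
    c ⬝ᵥ (Uᵀ * M * U) *ᵥ c = (U *ᵥ c) ⬝ᵥ M *ᵥ (U *ᵥ c) := by
  rw [← mulVec_mulVec, ← mulVec_mulVec, dotProduct_mulVec, vecMul_transpose]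

theorem pos_sq_sum_ge (A : Matrix V V ℝ) (hA : A.IsHermitian) (X : Matrix V V ℝ)
    (hX : ∀ x : V → ℝ, 0 ≤ x ⬝ᵥ X *ᵥ x) :
    ∑ u, ∑ v, A u v ^ 2 - ∑ u, ∑ v, (A u v - X u v) ^ 2 ≤
      ∑ i ∈ univ.filter (fun i => 0 < hA.eigenvalues i), hA.eigenvalues i ^ 2 := by
  obtain ⟨U, hU, hD⟩ := exists_diag A hA
  have h1 : ∑ u, ∑ v, A u v ^ 2 = ∑ i, hA.eigenvalues i ^ 2 := by
    rw [← frob_conj U A hU, hD]
    refine Finset.sum_congr rfl fun i _ => ?_
    rw [Finset.sum_eq_single i]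
    · simp
    · intro j _ hj
      simp [diagonal_apply_ne _ (Ne.symm hj)]
    · simp
  have hpos : ∀ i, 0 ≤ (Uᵀ * X * U) i i := by
    intro i
    have := hX (U *ᵥ Pi.single i 1)
    rw [← quad_conj] at this
    simpa using this
  have h2 : ∑ i, (hA.eigenvalues i - (Uᵀ * X * U) i i) ^ 2 ≤
      ∑ u, ∑ v, (A u v - X u v) ^ 2 := by
    have h3 := frob_conj U (A - X) hU
    simp only [Matrix.sub_apply] at h3
    rw [← h3, Matrix.mul_sub, Matrix.sub_mul, hD]
    refine Finset.sum_le_sum fun i _ => ?_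
    have := Finset.single_le_sum
      (f := fun v => (diagonal hA.eigenvalues - Uᵀ * X * U) i v ^ 2)
      (fun j _ => sq_nonneg _) (Finset.mem_univ i)
    simpa using this
  have h4 : ∑ i, hA.eigenvalues i ^ 2 - ∑ i, (hA.eigenvalues i - (Uᵀ * X * U) i i) ^ 2 ≤
      ∑ i ∈ univ.filter (fun i => 0 < hA.eigenvalues i), hA.eigenvalues i ^ 2 := by
    rw [Finset.sum_filter, ← Finset.sum_sub_distrib]
    refine Finset.sum_le_sum fun i _ => ?_
    have := hpos i
    split_ifs with h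
    · nlinarith [sq_nonneg (hA.eigenvalues i - (Uᵀ * X * U) i i)]
    · push Not at h
      nlinarith [mul_nonneg this (neg_nonneg.2 h), sq_nonneg ((Uᵀ * X * U) i i)]
  linarith

theorem card_pos_le (A : Matrix V V ℝ) (hA : A.IsHermitian)
    {W : Type} [AddCommGroup W] [Module ℝ W] [FiniteDimensional ℝ W]
    (φ : (V → ℝ) →ₗ[ℝ] W) (h : ∀ x, φ x = 0 → x ⬝ᵥ A *ᵥ x ≤ 0) :
    (univ.filter (fun i => 0 < hA.eigenvalues i)).card ≤ Module.finrank ℝ W := by
  obtain ⟨U, hU, hD⟩ := exists_diag A hA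
  set S := univ.filter (fun i => 0 < hA.eigenvalues i) with hS
  let ext : (S → ℝ) →ₗ[ℝ] (V → ℝ) :=
    { toFun := fun c v => if hv : v ∈ S then c ⟨v, hv⟩ else 0
      map_add' := by
        intro a b; funext v; by_cases hv : v ∈ S <;> simp [hv]
      map_smul' := by
        intro a b; funext v; by_cases hv : v ∈ S <;> simp [hv] }
  let ψ : (S → ℝ) →ₗ[ℝ] W := φ ∘ₗ (Matrix.mulVecLin U) ∘ₗ ext
  have hinj : Function.Injective ψ := by
    rw [← LinearMap.ker_eq_bot, LinearMap.ker_eq_bot']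
    intro c hc
    have h1 := h (U *ᵥ ext c) hc
    rw [← quad_conj, hD] at h1
    have h2 : ext c ⬝ᵥ diagonal hA.eigenvalues *ᵥ ext c =
        ∑ v, hA.eigenvalues v * (ext c v) ^ 2 := by
      simp only [dotProduct, mulVec_diagonal]
      refine Finset.sum_congr rfl fun v _ => by ring
    rw [h2] at h1
    have h3 : ∀ v ∈ (univ : Finset V), 0 ≤ hA.eigenvalues v * (ext c v) ^ 2 := by
      intro v _
      by_cases hv : v ∈ S
      · have : 0 < hA.eigenvalues v := by simpa [hS] using hv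
        positivity
      · simp [ext, hv]
    have h4 := (Finset.sum_eq_zero_iff_of_nonneg h3).1 (le_antisymm h1 (Finset.sum_nonneg h3))
    funext ⟨v, hv⟩
    have h5 := h4 v (Finset.mem_univ v)
    have h6 : 0 < hA.eigenvalues v := by simpa [hS] using hv
    have h7 : ext c v = 0 := by
      rcases mul_eq_zero.1 h5 with h8 | h8
      · exact absurd h8 h6.ne'
      · exact pow_eq_zero_iff (by norm_num) |>.1 h8
    simpa [ext, hv] using h7
  have := LinearMap.finrank_le_finrank_of_injective hinj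
  simpa using this

end Pool.Agent.P.MP_416653_co
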