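import Mathlib
import Pool.Agent.P.MP_416653_co.Random
import Pool.Agent.P.MP_416653_co.Spectral

set_option autoImplicit false

namespace Pool.Agent.P.MP_416653_co

open Finset Matrix

set_option linter.unusedSectionVars false

/-- the reflexive non-adjacency relation of the joined graph -/
def rel {n t s : ℕ} (H : Fin n → Fin n → Prop) :
    Fin n ⊕ (Fin t × Fin s) → Fin n ⊕ (Fin t × Fin s) → Prop
  | Sum.inl i, Sum.inl j => H i j
  | Sum.inr a, Sum.inr b => a.1 = b.1
  | Sum.inl _, Sum.inr _ => False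
  | Sum.inr _, Sum.inl _ => False

def yy {n t s : ℕ} (Y : Fin n → Fin n → ℝ) :
    Fin n ⊕ (Fin t × Fin s) → Fin n ⊕ (Fin t × Fin s) → ℝ
  | Sum.inl i, Sum.inl j => Y i j
  | Sum.inr _, Sum.inr _ => 0
  | Sum.inl _, Sum.inr _ => 0
  | Sum.inr _, Sum.inl _ => 0

def jg {n : ℕ} (t s : ℕ) (H : Fin n → Fin n → Prop) (hr : ∀ i, H i i)
    (hs : ∀ i j, H i j → H j i) : SimpleGraph (Fin n ⊕ (Fin t × Fin s)) where
  Adj u v := ¬ rel H u v
  symm := ⟨by
    intro u v h h'
    apply h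
    rcases u with u | u <;> rcases v with v | v
    · exact hs _ _ h'
    · exact h'
    · exact h'
    · exact h'.symm⟩
  loopless := ⟨by
    intro u h
    apply h
    rcases u with u | u
    · exact hr u
    · rfl⟩

theorem two_m {V : Type} [Fintype V] [DecidableEq V] (G : SimpleGraph V) [DecidableRel G.Adj] :
    ∑ u, ∑ v, G.adjMatrix ℝ u v ^ 2 = 2 * (Nat.card G.edgeSet : ℝ) := by
  have h1 := G.sum_degrees_eq_twice_card_edges
  rw [Nat.card_eq_fintype_card, ← SimpleGraph.edgeFinset_card]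
  have h2 : (∑ v, (G.degree v : ℝ)) = 2 * (G.edgeFinset.card : ℝ) := by exact_mod_cast h1
  rw [← h2]
  refine Finset.sum_congr rfl fun u _ => ?_
  rw [← SimpleGraph.card_neighborFinset_eq_degree, SimpleGraph.neighborFinset_eq_filter,
    ← Finset.sum_boole]
  refine Finset.sum_congr rfl fun v _ => ?_
  simp only [SimpleGraph.adjMatrix_apply]
  split_ifs <;> simp

theorem sum_same (t s : ℕ) :
    ∑ a : Fin t × Fin s, ∑ b : Fin t × Fin s, (if a.1 = b.1 then (1 : ℝ) else 0) =
      t * (s : ℝ) ^ 2 := by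
  have : ∀ a : Fin t × Fin s, ∑ b : Fin t × Fin s, (if a.1 = b.1 then (1 : ℝ) else 0) = s := by
    intro a
    rw [Fintype.sum_prod_type_right]
    simp only [Finset.sum_ite_eq, Finset.mem_univ, if_true]
    simp
  simp only [this]
  simp
  ring

section
open Classical
variable {n t s : ℕ} (H : Fin n → Fin n → Prop)

theorem ite_rel_ll (i j : Fin n) :
    (if rel (t := t) (s := s) H (Sum.inl i) (Sum.inl j) then (1 : ℝ) else 0) =
      if H i j then 1 else 0 := rfl

theorem ite_rel_lr (i : Fin n) (b : Fin t × Fin s) :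
    (if rel H (Sum.inl i) (Sum.inr b) then (1 : ℝ) else 0) = 0 := if_neg (fun h => h)

theorem ite_rel_rl (i : Fin n) (b : Fin t × Fin s) :
    (if rel H (Sum.inr b) (Sum.inl i) then (1 : ℝ) else 0) = 0 := if_neg (fun h => h)

theorem ite_rel_rr (a b : Fin t × Fin s) :
    (if rel H (Sum.inr a) (Sum.inr b) then (1 : ℝ) else 0) = if a.1 = b.1 then 1 else 0 := by
  by_cases h : a.1 = b.1
  · rw [if_pos h, if_pos (show rel H (Sum.inr a) (Sum.inr b) from h)]
  · rw [if_neg h, if_neg (show ¬ rel H (Sum.inr a) (Sum.inr b) from h)]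

end

open Classical in
theorem sum_rel_sq {n t s : ℕ} (H : Fin n → Fin n → Prop) (Y : Fin n → Fin n → ℝ) :
    ∑ u : Fin n ⊕ (Fin t × Fin s), ∑ v : Fin n ⊕ (Fin t × Fin s),
      ((if rel H u v then (1 : ℝ) else 0) + yy Y u v) ^ 2 =
    ∑ i, ∑ j, ((if H i j then (1 : ℝ) else 0) + Y i j) ^ 2 + t * (s : ℝ) ^ 2 := by
  rw [← sum_same t s]
  simp only [Fintype.sum_sum_type, Finset.sum_add_distrib, ite_rel_ll, ite_rel_lr, ite_rel_rl,
    ite_rel_rr, yy, add_zero]
  simp only [ne_eq, OfNat.ofNat_ne_zero, not_false_eq_true, zero_pow, sum_const_zero, add_zero,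
    zero_add]
  congr 1
  refine Finset.sum_congr rfl fun a _ => Finset.sum_congr rfl fun b _ => ?_
  by_cases h : a.1 = b.1 <;> simp [h]

open Classical in
theorem sum_rel {n t s : ℕ} (H : Fin n → Fin n → Prop) :
    ∑ u : Fin n ⊕ (Fin t × Fin s), ∑ v : Fin n ⊕ (Fin t × Fin s),
      (if rel H u v then (1 : ℝ) else 0) ≤ (n : ℝ) ^ 2 + t * (s : ℝ) ^ 2 := by
  rw [← sum_same t s]
  simp only [Fintype.sum_sum_type, Finset.sum_add_distrib, ite_rel_ll, ite_rel_lr, ite_rel_rl,
    ite_rel_rr]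
  simp only [sum_const_zero, add_zero, zero_add]
  refine add_le_add ?_ (le_of_eq ?_)
  · have e3 : ∑ i : Fin n, ∑ j : Fin n, (if H i j then (1 : ℝ) else 0) ≤
        ∑ _i : Fin n, ∑ _j : Fin n, (1 : ℝ) :=
      Finset.sum_le_sum fun i _ => Finset.sum_le_sum fun j _ => by split_ifs <;> norm_num
    simp only [sum_const, card_univ, Fintype.card_fin, nsmul_eq_mul, mul_one] at e3
    rw [sq]
    exact e3
  · rfl

theorem final_arith (k s t n σ M w : ℝ) (hk : 1 ≤ k) (htk : k + 1 ≤ t) (hnn : n = k * s)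
    (hσ0 : 0 ≤ σ) (hσ : σ < k * s ^ 2 / 2) (hw1 : t ≤ w) (hw2 : w + 1 ≤ t + k)
    (hM : 2 * n * t * s + t ^ 2 * s ^ 2 - t * s ^ 2 ≤ M) (h3 : M / w ≤ σ + t * s ^ 2) : False := by
  have hw0 : 0 < w := by linarith
  have ht0 : 0 < t := by linarith
  rw [div_le_iff₀ hw0] at h3
  have h4 : (σ + t * s ^ 2) * w ≤ (σ + t * s ^ 2) * (t + k - 1) := by
    gcongr
    linarith
  have h5 : σ * (t + k - 1) ≤ σ * (2 * t) := by
    gcongr
    linarith
  have h6 : σ * (2 * t) < k * s ^ 2 / 2 * (2 * t) := by gcongr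
  rw [hnn] at hM
  nlinarith

theorem main_aux (k s n t : ℕ) (hn : n = k * s) (ht : t = n + k + 1)
    (H : Fin n → Fin n → Prop)
    (Y : Fin n → Fin n → ℝ) (hk : 1 ≤ k) (hs : 1 ≤ s) (hr : ∀ i, H i i)
    (hsy : ∀ i j, H i j → H j i)
    (hY : ∀ u : Fin n → ℝ, 0 ≤ ∑ i, ∑ j, u i * u j * Y i j)
    (hind : ∀ ι : Fin k → Fin n, Function.Injective ι → ∃ a b, a ≠ b ∧ H (ι a) (ι b))
    (hσ : ∑ i, ∑ j, ((@ite ℝ (H i j) (Classical.propDecidable _) 1 0) + Y i j) ^ 2 <
      (k : ℝ) * (s : ℝ) ^ 2 / 2) :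
    ¬ (∀ (V : Type) [Fintype V] [DecidableEq V] (G : SimpleGraph V) [DecidableRel G.Adj]
      (hA : (G.adjMatrix ℝ).IsHermitian) (ω : ℕ),
      (∃ s : Finset V, G.IsNClique ω s) →
      (∀ (k : ℕ) (s : Finset V), G.IsNClique k s → k ≤ ω) →
      ∀ S : Finset V, S.card ≤ ω → (∀ i ∈ S, 0 < hA.eigenvalues i) →
        ∑ i ∈ S, hA.eigenvalues i ^ 2 ≤ 2 * (1 - 1 / (ω : ℝ)) * (Nat.card G.edgeSet : ℝ)) := by
  classical
  intro hall
  let V := Fin n ⊕ (Fin t × Fin s)
  let G : SimpleGraph V := jg t s H hr hsy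
  have hA : (G.adjMatrix ℝ).IsHermitian := by
    simp [Matrix.IsHermitian]
  have hAdj : ∀ u v, G.adjMatrix ℝ u v = 1 - (if rel H u v then 1 else 0) := by
    intro u v
    simp only [SimpleGraph.adjMatrix_apply]
    have : G.Adj u v ↔ ¬ rel H u v := Iff.rfl
    by_cases h : rel H u v <;> simp [this, h]
  -- clique number bounds
  have hω1 : t ≤ G.cliqueNum := by
    let K : Finset V := univ.image (fun a : Fin t => (Sum.inr (a, ⟨0, hs⟩) : V))
    have hK : G.IsClique K := by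
      intro u hu v hv huv
      obtain ⟨a, _, rfl⟩ := Finset.mem_image.1 (Finset.mem_coe.1 hu)
      obtain ⟨b, _, rfl⟩ := Finset.mem_image.1 (Finset.mem_coe.1 hv)
      intro h
      apply huv
      have : a = b := h
      rw [this]
    have hc : K.card = t := by
      rw [Finset.card_image_of_injective]
      · simp
      · intro a b h
        exact congrArg Prod.fst (Sum.inr_injective h)
    rw [← hc]
    exact hK.card_le_cliqueNum
  have hω2 : G.cliqueNum + 1 ≤ t + k := by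
    obtain ⟨K, hK⟩ := G.exists_isNClique_cliqueNum
    rw [← hK.card_eq, ← Finset.card_toLeft_add_card_toRight]
    have h1 : K.toLeft.card < k := by
      by_contra hcon
      push Not at hcon
      obtain ⟨a, b, hab, hH⟩ := hind (K.toLeft.orderEmbOfCardLe hcon)
        (K.toLeft.orderEmbOfCardLe hcon).injective
      have ha := Finset.mem_toLeft.1 (K.toLeft.orderEmbOfCardLe_mem hcon a)
      have hb := Finset.mem_toLeft.1 (K.toLeft.orderEmbOfCardLe_mem hcon b)
      have := hK.isClique (Finset.mem_coe.2 ha) (Finset.mem_coe.2 hb) (by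
        intro h
        apply hab
        exact (K.toLeft.orderEmbOfCardLe hcon).injective (Sum.inl_injective h))
      exact this hH
    have h2 : K.toRight.card ≤ (univ : Finset (Fin t)).card := by
      refine Finset.card_le_card_of_injOn (fun a => a.1) (fun _ _ => Finset.mem_coe.2 (mem_univ _)) ?_
      intro a ha b hb hab
      by_contra hne
      have := hK.isClique (Finset.mem_coe.2 (Finset.mem_toRight.1 (Finset.mem_coe.1 ha)))
        (Finset.mem_coe.2 (Finset.mem_toRight.1 (Finset.mem_coe.1 hb))) (by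
          intro h
          exact hne (Sum.inr_injective h))
      exact this hab
    simp only [card_univ, Fintype.card_fin] at h2
    omega
  -- number of positive eigenvalues
  let φ : (V → ℝ) →ₗ[ℝ] ((Fin n → ℝ) × ℝ) :=
    { toFun := fun x => (fun i => x (Sum.inl i), ∑ u, x u)
      map_add' := by
        intro a b
        ext <;> simp [Finset.sum_add_distrib]
      map_smul' := by
        intro a b
        ext <;> simp [Finset.mul_sum] }
  have hcard := card_pos_le (G.adjMatrix ℝ) hA φ (by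
    intro x hx
    have hx1 : ∀ i, x (Sum.inl i) = 0 := fun i => congrFun (congrArg Prod.fst hx) i
    have hx2 : ∑ u, x u = 0 := congrArg Prod.snd hx
    have e1 : x ⬝ᵥ G.adjMatrix ℝ *ᵥ x =
        (∑ u, x u) * (∑ u, x u) - ∑ u, ∑ v, x u * x v * (if rel H u v then 1 else 0) := by
      simp only [dotProduct, mulVec, hAdj]
      rw [Finset.sum_mul_sum, ← Finset.sum_sub_distrib]
      refine Finset.sum_congr rfl fun u _ => ?_
      rw [Finset.mul_sum, ← Finset.sum_sub_distrib]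
      refine Finset.sum_congr rfl fun v _ => ?_
      ring
    have e2 : ∑ u, ∑ v, x u * x v * (if rel H u v then (1 : ℝ) else 0) =
        ∑ a : Fin t × Fin s, ∑ b : Fin t × Fin s,
          x (Sum.inr a) * x (Sum.inr b) * (if a.1 = b.1 then 1 else 0) := by
      simp only [V, Fintype.sum_sum_type, hx1, zero_mul, mul_zero, Finset.sum_const_zero, zero_add]
      refine Finset.sum_congr rfl fun a _ => Finset.sum_congr rfl fun b _ => ?_
      congr
    have e3 := sq_sum_le_fib (univ : Finset (Fin t × Fin s)) (fun a => a.1)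
      (fun a => x (Sum.inr a))
    have e4 : (0 : ℝ) < Fintype.card (Fin t) := by
      simp [ht]
      positivity
    have e5 : 0 ≤ ∑ a : Fin t × Fin s, ∑ b : Fin t × Fin s,
          x (Sum.inr a) * x (Sum.inr b) * (if a.1 = b.1 then 1 else 0) :=
      (mul_nonneg_iff_of_pos_left e4).1 ((sq_nonneg _).trans e3)
    rw [e1, e2, hx2]
    linarith)
  have hfr : Module.finrank ℝ ((Fin n → ℝ) × ℝ) = n + 1 := by simp
  rw [hfr] at hcard
  have hmain := hall V G hA G.cliqueNum G.exists_isNClique_cliqueNum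
    (fun k s h => h.card_eq ▸ h.isClique.card_le_cliqueNum)
    (univ.filter (fun i => 0 < hA.eigenvalues i)) (by omega)
    (fun i hi => (Finset.mem_filter.1 hi).2)
  -- lower bound on the positive square energy
  let X : Matrix V V ℝ := fun u v => 1 + yy Y u v
  have hX : ∀ x : V → ℝ, 0 ≤ x ⬝ᵥ X *ᵥ x := by
    intro x
    have e1 : x ⬝ᵥ X *ᵥ x = (∑ u, x u) * (∑ u, x u) + ∑ u, ∑ v, x u * x v * yy Y u v := by
      simp only [dotProduct, mulVec, X]
      rw [Finset.sum_mul_sum, ← Finset.sum_add_distrib]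
      refine Finset.sum_congr rfl fun u _ => ?_
      rw [Finset.mul_sum, ← Finset.sum_add_distrib]
      refine Finset.sum_congr rfl fun v _ => ?_
      ring
    have e2 : ∑ u, ∑ v, x u * x v * yy Y u v =
        ∑ i, ∑ j, x (Sum.inl i) * x (Sum.inl j) * Y i j := by
      simp [V, Fintype.sum_sum_type, yy]
    rw [e1, e2]
    exact add_nonneg (mul_self_nonneg _) (hY _)
  have hlow := pos_sq_sum_ge (G.adjMatrix ℝ) hA X hX
  set σ := ∑ i, ∑ j, ((@ite ℝ (H i j) (Classical.propDecidable _) 1 0) + Y i j) ^ 2 with hσdef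
  have hdiff : ∑ u, ∑ v, (G.adjMatrix ℝ u v - X u v) ^ 2 = σ + t * (s : ℝ) ^ 2 := by
    have e : ∀ u v, (G.adjMatrix ℝ u v - X u v) ^ 2 =
        ((if rel H u v then (1 : ℝ) else 0) + yy Y u v) ^ 2 := by
      intro u v
      rw [hAdj]
      simp only [X]
      ring
    simp only [e]
    exact sum_rel_sq H Y
  have hM : 2 * (n : ℝ) * t * s + (t : ℝ) ^ 2 * s ^ 2 - t * (s : ℝ) ^ 2 ≤
      ∑ u, ∑ v, G.adjMatrix ℝ u v ^ 2 := by
    have e : ∀ u v, G.adjMatrix ℝ u v ^ 2 = 1 - (if rel H u v then (1 : ℝ) else 0) := by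
      intro u v
      rw [hAdj]
      split_ifs <;> simp
    simp only [e, Finset.sum_sub_distrib]
    have e2 := sum_rel (t := t) (s := s) H
    have e4 : ∑ _u : V, ∑ _v : V, (1 : ℝ) = ((n : ℝ) + t * s) ^ 2 := by
      simp [V]
      ring
    rw [e4]
    have e5 : ((n : ℝ) + t * s) ^ 2 = (n : ℝ) ^ 2 + 2 * (n : ℝ) * t * s + (t : ℝ) ^ 2 * s ^ 2 := by
      ring
    rw [e5]
    exact le_trans (le_of_eq (by ring)) (sub_le_sub_left e2 _)
  rw [hdiff] at hlow
  have h2m := two_m G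
  set M := ∑ u, ∑ v, G.adjMatrix ℝ u v ^ 2 with hMdef
  set w := (G.cliqueNum : ℝ) with hw
  have hw1 : (t : ℝ) ≤ w := by rw [hw]; exact_mod_cast hω1
  have hw2 : w + 1 ≤ t + k := by rw [hw]; exact_mod_cast hω2
  have htk : (k : ℝ) + 1 ≤ t := by
    have : k + 1 ≤ t := by omega
    exact_mod_cast this
  have hk' : (1 : ℝ) ≤ k := by exact_mod_cast hk
  have hs' : (1 : ℝ) ≤ s := by exact_mod_cast hs
  have hw0 : 0 < w := by linarith
  have hnn : (n : ℝ) = k * s := by rw [hn]; push_cast; ring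
  have hσ0 : 0 ≤ σ := by rw [hσdef]; positivity
  have h3 : M / w ≤ σ + t * (s : ℝ) ^ 2 := by
    have : 2 * (1 - 1 / w) * (Nat.card G.edgeSet : ℝ) = M - M / w := by
      rw [h2m]; ring
    linarith
  exact final_arith k s t n σ M w hk' htk hnn hσ0 hσ hw1 hw2 hM h3

theorem main_neg :
    ¬ (∀ (V : Type) [Fintype V] [DecidableEq V] (G : SimpleGraph V) [DecidableRel G.Adj]
      (hA : (G.adjMatrix ℝ).IsHermitian) (ω : ℕ),
      (∃ s : Finset V, G.IsNClique ω s) →
      (∀ (k : ℕ) (s : Finset V), G.IsNClique k s → k ≤ ω) →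
      ∀ S : Finset V, S.card ≤ ω → (∀ i ∈ S, 0 < hA.eigenvalues i) →
        ∑ i ∈ S, hA.eigenvalues i ^ 2 ≤ 2 * (1 - 1 / (ω : ℝ)) * (Nat.card G.edgeSet : ℝ)) := by
  obtain ⟨k, s, H, Y, hk, hs, hr, hsy, hY, hind, hσ⟩ := exists_key
  exact main_aux k s (k * s) (k * s + k + 1) rfl rfl H Y hk hs hr hsy hY hind hσ

end Pool.Agent.P.MP_416653_co
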