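import Mathlib

/-! Gram matrices of low rank that are close to a 0-1 matrix: basic inequalities. -/

namespace Pool.Agent.P.MP_416653_co.Wk

open Finset Matrix

variable {V ι : Type} [Fintype ι]

/-- Gram matrix. -/
def gr (w : V → ι → ℝ) (i j : V) : ℝ := ∑ k, w i k * w j k

theorem gr_symm (w : V → ι → ℝ) (i j : V) : gr w i j = gr w j i := by
  simp [gr, mul_comm]

theorem gr_self_nonneg (w : V → ι → ℝ) (i : V) : 0 ≤ gr w i i :=
  sum_nonneg fun _ _ => mul_self_nonneg _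

theorem abs_gr_le (w : V → ι → ℝ) (i j : V) : |gr w i j| ≤ (gr w i i + gr w j j) / 2 := by
  simp only [gr, ← sum_add_distrib, sum_div]
  refine (abs_sum_le_sum_abs _ _).trans (sum_le_sum fun k _ => ?_)
  rw [abs_le]
  constructor <;> nlinarith [sq_nonneg (w i k + w j k), sq_nonneg (w i k - w j k)]

theorem cube_nonneg (w : V → ι → ℝ) (T : Finset V) :
    0 ≤ ∑ i ∈ T, ∑ j ∈ T, gr w i j ^ 3 := by
  have h : ∀ i j, gr w i j ^ 3 = ∑ p : ι × ι × ι,
      (w i p.1 * w i p.2.1 * w i p.2.2) * (w j p.1 * w j p.2.1 * w j p.2.2) := by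
    intro i j
    simp only [gr, pow_succ, pow_zero, one_mul, Fintype.sum_prod_type, sum_mul, mul_sum]
    refine sum_congr rfl fun _ _ => sum_congr rfl fun _ _ => sum_congr rfl fun _ _ => by ring
  simp only [h]
  have : ∑ i ∈ T, ∑ j ∈ T, ∑ p : ι × ι × ι,
      (w i p.1 * w i p.2.1 * w i p.2.2) * (w j p.1 * w j p.2.1 * w j p.2.2) =
      ∑ p : ι × ι × ι, (∑ i ∈ T, w i p.1 * w i p.2.1 * w i p.2.2) ^ 2 := by
    simp only [sq, sum_mul_sum]
    rw [sum_comm]
    simp_rw [sum_comm (s := T) (t := (univ : Finset (ι × ι × ι)))]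
    refine sum_congr rfl fun p _ => ?_
    rw [sum_comm]
  rw [this]
  exact sum_nonneg fun _ _ => sq_nonneg _

theorem sq_gr (w : V → ι → ℝ) (y : V → ℝ) (T : Finset V) :
    ∑ i ∈ T, ∑ j ∈ T, y i * y j * gr w i j ^ 2 =
      ∑ k, ∑ l, (∑ i ∈ T, y i * w i k * w i l) ^ 2 := by
  have h : ∀ i j, y i * y j * gr w i j ^ 2 = ∑ p : ι × ι,
      (y i * w i p.1 * w i p.2) * (y j * w j p.1 * w j p.2) := by
    intro i j
    simp only [gr, sq, Fintype.sum_prod_type, sum_mul, mul_sum]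
    refine sum_congr rfl fun _ _ => sum_congr rfl fun _ _ => by ring
  simp only [h]
  rw [← Fintype.sum_prod_type']
  simp only [sq, sum_mul_sum]
  rw [sum_comm]
  simp_rw [sum_comm (s := T) (t := (univ : Finset (ι × ι)))]
  refine sum_congr rfl fun p _ => ?_
  rw [sum_comm]

theorem sq_gr' (w : V → ι → ℝ) (T : Finset V) :
    ∑ i ∈ T, ∑ j ∈ T, gr w i j ^ 2 = ∑ k, ∑ l, (∑ i ∈ T, w i k * w i l) ^ 2 := by
  simpa using sq_gr w (fun _ => 1) T

theorem trace_sq_le (w : V → ι → ℝ) (T : Finset V) :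
    (∑ i ∈ T, gr w i i) ^ 2 ≤ Fintype.card ι * ∑ i ∈ T, ∑ j ∈ T, gr w i j ^ 2 := by
  classical
  rw [sq_gr']
  simp only [gr]
  rw [sum_comm]
  refine sq_sum_le_card_mul_sum_sq.trans ?_
  rw [card_univ]
  gcongr with k
  exact single_le_sum (f := fun l => (∑ i ∈ T, w i k * w i l) ^ 2) (fun _ _ => sq_nonneg _)
    (mem_univ k)

theorem quad_gr (w : V → ι → ℝ) (v : V → ℝ) (T : Finset V) :
    ∑ k, (∑ j ∈ T, v j * w j k) ^ 2 = ∑ i ∈ T, ∑ j ∈ T, v i * v j * gr w i j := by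
  simp only [sq, sum_mul_sum]
  rw [sum_comm]
  refine sum_congr rfl fun i _ => ?_
  rw [sum_comm]
  refine sum_congr rfl fun _ _ => ?_
  rw [gr, mul_sum]
  exact sum_congr rfl fun _ _ => by ring

section proj

variable {U κ : Type} [Fintype U] [Fintype κ] [DecidableEq U]

def fro {α β : Type} [Fintype α] [Fintype β] (X : Matrix α β ℝ) : ℝ := ∑ i, ∑ j, X i j ^ 2

theorem fro_nonneg {α β : Type} [Fintype α] [Fintype β] (X : Matrix α β ℝ) : 0 ≤ fro X :=
  sum_nonneg fun _ _ => sum_nonneg fun _ _ => sq_nonneg _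

theorem fro_eq {α β : Type} [Fintype α] [Fintype β] (X : Matrix α β ℝ) :
    fro X = trace (Xᵀ * X) := by
  simp only [fro, trace, Matrix.diag, mul_apply, transpose_apply]
  rw [sum_comm]
  simp [sq]

theorem fro_transpose {α β : Type} [Fintype α] [Fintype β] (X : Matrix α β ℝ) :
    fro Xᵀ = fro X := by
  simp only [fro, transpose_apply]
  rw [sum_comm]

omit [Fintype κ] in
theorem gram_split (E : Matrix U U ℝ) (hs : Eᵀ = E) (hi : E * E = E) (X : Matrix U κ ℝ) :
    Xᵀ * X = (E * X)ᵀ * (E * X) + ((1 - E) * X)ᵀ * ((1 - E) * X) := by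
  have h1 : (E * X)ᵀ * (E * X) = Xᵀ * (E * X) := by
    rw [transpose_mul, hs, Matrix.mul_assoc, ← Matrix.mul_assoc E, hi]
  have h2 : ((1 - E) * X)ᵀ * ((1 - E) * X) = Xᵀ * ((1 - E) * X) := by
    rw [transpose_mul, transpose_sub, transpose_one, hs, Matrix.mul_assoc,
      ← Matrix.mul_assoc (1 - E)]
    congr 2
    simp [mul_sub, sub_mul, hi]
  rw [h1, h2, ← Matrix.mul_add, ← Matrix.add_mul]
  simp

theorem fro_proj_le (E : Matrix U U ℝ) (hs : Eᵀ = E) (hi : E * E = E) (X : Matrix U κ ℝ) :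
    fro ((1 - E) * X) ≤ fro X := by
  have := fro_nonneg (E * X)
  rw [fro_eq X, gram_split E hs hi X, trace_add, ← fro_eq, ← fro_eq]
  linarith

theorem exists_proj (W : Matrix U κ ℝ) : ∃ E : Matrix U U ℝ, Eᵀ = E ∧ E * E = E ∧ E * W = W ∧
    trace E ≤ Fintype.card κ := by
  let v : κ → EuclideanSpace ℝ U := fun l => WithLp.toLp 2 fun i => W i l
  let S : Submodule ℝ (EuclideanSpace ℝ U) := Submodule.span ℝ (Set.range v)
  let b := stdOrthonormalBasis ℝ S
  let F : Matrix U (Fin (Module.finrank ℝ S)) ℝ :=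
    Matrix.of fun i s => (b s : EuclideanSpace ℝ U) i
  have hF : Fᵀ * F = 1 := by
    ext s t
    have := orthonormal_iff_ite.1 b.orthonormal s t
    rw [Submodule.coe_inner, EuclideanSpace.inner_eq_star_dotProduct] at this
    simp only [mul_apply, transpose_apply, one_apply, F, of_apply]
    rw [← this]
    simp [dotProduct, mul_comm]
  refine ⟨F * Fᵀ, by simp, ?_, ?_, ?_⟩
  · rw [Matrix.mul_assoc, ← Matrix.mul_assoc Fᵀ, hF, Matrix.one_mul]
  · ext i l
    have hv : v l ∈ S := Submodule.subset_span ⟨l, rfl⟩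
    have h := congrArg (fun x : S => (x : EuclideanSpace ℝ U) i) (b.sum_repr' ⟨v l, hv⟩)
    simp only [Submodule.coe_sum, Submodule.coe_smul, Submodule.coe_inner,
      EuclideanSpace.inner_eq_star_dotProduct] at h
    rw [Matrix.mul_assoc, mul_apply]
    refine Eq.trans ?_ h
    simp [F, v, mul_apply, dotProduct, mul_comm]
  · rw [trace_mul_comm, hF, trace_one, Fintype.card_fin]
    exact_mod_cast finrank_range_le_card v

end proj

end Pool.Agent.P.MP_416653_co.Wk
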