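import Pool.Agent.P.MP_416653_co.WkA

/-! The absolute-bound inequality for a low rank Gram matrix close to a 0-1 matrix. -/

namespace Pool.Agent.P.MP_416653_co.Wk

open Finset Matrix

variable {ι : Type} [Fintype ι]

def zq (B : ι → ι → ℝ) (x : ι → ℝ) : ℝ :=
  2 * (∑ k, ∑ l, B k l * (x k * x l)) - ∑ k, (∑ l, B k l * x l) ^ 2

theorem zq_le_sq (B : ι → ι → ℝ) (x : ι → ℝ) : zq B x ≤ ∑ k, x k ^ 2 := by
  have h : ∑ k, ∑ l, B k l * (x k * x l) = ∑ k, x k * ∑ l, B k l * x l := by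
    simp only [mul_sum]
    exact sum_congr rfl fun _ _ => sum_congr rfl fun _ _ => by ring
  rw [zq, h, mul_sum, ← sum_sub_distrib]
  exact sum_le_sum fun k _ => by nlinarith [sq_nonneg (x k - ∑ l, B k l * x l)]

theorem zq_le_two (B : ι → ι → ℝ) (x : ι → ℝ) : zq B x ≤ 2 * ∑ k, ∑ l, B k l * (x k * x l) := by
  have : 0 ≤ ∑ k, (∑ l, B k l * x l) ^ 2 := sum_nonneg fun _ _ => sq_nonneg _
  rw [zq]
  linarith

theorem zq_eq (B : ι → ι → ℝ) (x : ι → ℝ) :
    zq B x = ∑ k, ∑ l, (2 * B k l - ∑ m, B m k * B m l) * (x k * x l) := by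
  have h : ∑ m, (∑ l, B m l * x l) ^ 2 = ∑ k, ∑ l, (∑ m, B m k * B m l) * (x k * x l) := by
    simp only [sq, sum_mul_sum]
    rw [sum_comm]
    refine sum_congr rfl fun k _ => ?_
    rw [sum_comm]
    refine sum_congr rfl fun l _ => ?_
    rw [sum_mul]
    exact sum_congr rfl fun _ _ => by ring
  rw [zq, h]
  simp only [mul_sum, ← sum_sub_distrib]
  exact sum_congr rfl fun _ _ => sum_congr rfl fun _ _ => by ring

theorem zq_smul (B : ι → ι → ℝ) (x : ι → ℝ) (c : ℝ) :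
    zq B (fun k => x k * c) = c ^ 2 * zq B x := by
  simp only [zq_eq, mul_sum]
  exact sum_congr rfl fun _ _ => sum_congr rfl fun _ _ => by ring

variable {U : Type} [Fintype U]

theorem bil_gram (Z : ι → ι → ℝ) (X : Matrix U (ι × ι) ℝ) :
    ∑ i, ∑ l, ∑ k, ∑ k', Z k k' * (X i (k, l) * X i (k', l)) =
      ∑ l, ∑ k, ∑ k', Z k k' * (Xᵀ * X) (k, l) (k', l) := by
  rw [sum_comm]
  refine sum_congr rfl fun l _ => ?_
  rw [sum_comm]
  refine sum_congr rfl fun k _ => ?_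
  rw [sum_comm]
  refine sum_congr rfl fun k' _ => ?_
  simp [mul_apply, mul_sum]

theorem le_of_sq_le {a b : ℝ} (hb : 0 ≤ b) (h : a ^ 2 ≤ b ^ 2) : a ≤ b :=
  (abs_le_of_sq_le_sq' h hb).2

theorem exists_scale (t : ℝ) (ht : 0 ≤ t) : ∃ s : ℝ, 0 ≤ s ∧ s ≤ 1 ∧ s ^ 2 * t ≤ 1 ∧
    ∀ x, x ≤ t → x - 1 ≤ s ^ 2 * t * (x - 1) := by
  by_cases h : t ≤ 1
  · exact ⟨1, zero_le_one, le_rfl, by linarith, fun x hx => by nlinarith⟩
  · have h1 : 1 < t := not_le.1 h
    have h2 : 1 ≤ Real.sqrt t := Real.one_le_sqrt.2 h1.le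
    have h3 : (1 / Real.sqrt t) ^ 2 * t = 1 := by
      rw [div_pow, Real.sq_sqrt ht]; field_simp
    exact ⟨1 / Real.sqrt t, by positivity, by rw [div_le_one (by linarith)]; exact h2, h3.le,
      fun x _ => by rw [h3, one_mul]⟩

theorem diamond_univ (w : U → ι → ℝ) (A : U → U → ℝ) (hA : ∀ i j, A i j = 0 ∨ A i j = 1)
    (B : ι → ι → ℝ) (ξ : ℝ) (hξ : 0 ≤ ξ)
    (h1 : Fintype.card ι * ∑ i, ∑ j, (A i j - gr w i j) ^ 2 ≤ ξ ^ 2)
    (h2 : Fintype.card ι * (∑ i, ∑ j, (A i j - gr w i j) ^ 2) * (∑ k, ∑ l, B k l ^ 2) ≤ ξ ^ 2) :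
    ∑ i, (zq B (w i) - 1) ≤ 6 * ξ := by
  classical
  choose s s0 s1 s2 s3 using fun i => exists_scale (gr w i i) (gr_self_nonneg w i)
  set D := ∑ i, ∑ j, (A i j - gr w i j) ^ 2 with hD
  let W : Matrix U ι ℝ := Matrix.of fun i l => w i l * s i
  let Ψ : Matrix U (ι × ι) ℝ := Matrix.of fun i p => w i p.1 * W i p.2
  obtain ⟨E, hs, hi, hW, ht⟩ := exists_proj W
  have hWW : ∀ i j, (W * Wᵀ) i j = s i * s j * gr w i j := by
    intro i j
    simp only [mul_apply, transpose_apply, W, of_apply, gr, mul_sum]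
    exact sum_congr rfl fun _ _ => by ring
  have hΨ : ∀ i j, (Ψ * Ψᵀ) i j = gr w i j * (s i * s j * gr w i j) := by
    intro i j
    rw [← hWW]
    simp only [mul_apply, transpose_apply, Ψ, of_apply, gr, Fintype.sum_prod_type, sum_mul_sum]
    exact sum_congr rfl fun _ _ => sum_congr rfl fun _ _ => by ring
  set M := Ψ * Ψᵀ - W * Wᵀ with hM
  have hMD : fro M ≤ 4 * D := by
    rw [hD, fro, mul_sum]
    refine sum_le_sum fun i _ => ?_
    rw [mul_sum]
    refine sum_le_sum fun j _ => ?_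
    have a1 : |s i * s j * gr w i j| ≤ 1 := by
      have := abs_gr_le (fun i l => w i l * s i) i j
      have e : ∀ i j, gr (fun i l => w i l * s i) i j = s i * s j * gr w i j := fun i j => by
        simp only [gr, mul_sum]
        exact sum_congr rfl fun _ _ => by ring
      rw [e, e, e] at this
      nlinarith [s2 i, s2 j]
    have a2 : 0 ≤ s i * s j := mul_nonneg (s0 i) (s0 j)
    have a3 : s i * s j ≤ 1 := mul_le_one₀ (s1 i) (s0 j) (s1 j)
    rw [hM, Matrix.sub_apply, hΨ, hWW]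
    obtain ⟨a4, a5⟩ := abs_le.1 a1
    set q := s i * s j
    set p := gr w i j
    rcases hA i j with h | h <;> rw [h]
    · have : (q * p - q) ^ 2 ≤ 4 := by nlinarith
      nlinarith [sq_nonneg p]
    · have : (q * p) ^ 2 ≤ 1 := by nlinarith
      nlinarith [sq_nonneg (1 - p)]
  have hr : (0 : ℝ) ≤ Fintype.card ι := Nat.cast_nonneg _
  let Φ : Matrix U (ι × ι) ℝ → ℝ := fun X => ∑ i, ∑ l, zq B fun k => X i (k, l)
  have hsplit : Φ Ψ = Φ (E * Ψ) + Φ ((1 - E) * Ψ) := by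
    simp only [Φ, zq_eq, bil_gram]
    rw [gram_split E hs hi Ψ]
    simp only [Matrix.add_apply, mul_add, sum_add_distrib]
  have hΦ : Φ Ψ = ∑ i, s i ^ 2 * gr w i i * zq B (w i) := by
    refine sum_congr rfl fun i _ => ?_
    simp only [Ψ, of_apply, zq_smul, W, gr, ← sum_mul, mul_sum]
    congr 1
    exact sum_congr rfl fun _ _ => by ring
  have p1 : Φ (E * Ψ) ≤ ∑ i, s i ^ 2 * gr w i i + 2 * ξ := by
    have b1 : Φ (E * Ψ) ≤ fro (E * Ψ) := by
      refine sum_le_sum fun i _ => ?_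
      rw [Fintype.sum_prod_type, sum_comm]
      exact sum_le_sum fun l _ => zq_le_sq _ _
    have b2 : fro (E * Ψ) = trace (W * Wᵀ) + trace (E * M) := by
      rw [fro_eq, trace_mul_comm, transpose_mul, hs, hM, Matrix.mul_sub, trace_sub,
        ← Matrix.mul_assoc E W, hW, ← Matrix.mul_assoc, trace_mul_comm, ← Matrix.mul_assoc,
        ← Matrix.mul_assoc, hi, Matrix.mul_assoc]
      ring
    have b3 : trace (W * Wᵀ) = ∑ i, s i ^ 2 * gr w i i := by
      simp only [trace, Matrix.diag, hWW, sq]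
    have b4 : trace (E * M) ≤ 2 * ξ := by
      refine le_of_sq_le (by linarith) ?_
      have c1 : trace (E * M) = ∑ p : U × U, E p.1 p.2 * Mᵀ p.1 p.2 := by
        simp [trace, mul_apply, Fintype.sum_prod_type]
      have c2 := sum_mul_sq_le_sq_mul_sq univ (fun p : U × U => E p.1 p.2) fun p => Mᵀ p.1 p.2
      rw [Fintype.sum_prod_type (f := fun p : U × U => E p.1 p.2 ^ 2),
        Fintype.sum_prod_type (f := fun p : U × U => Mᵀ p.1 p.2 ^ 2)] at c2
      have c3 : fro E ≤ Fintype.card ι := by rw [fro_eq, hs, hi]; exact ht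
      have c4 : fro Mᵀ ≤ 4 * D := by rw [fro_transpose]; exact hMD
      have c5 : fro E * fro Mᵀ ≤ Fintype.card ι * (4 * D) :=
        mul_le_mul c3 c4 (fro_nonneg _) hr
      rw [c1]
      refine c2.trans (le_trans c5 ?_)
      nlinarith
    linarith
  have p2 : Φ ((1 - E) * Ψ) ≤ 4 * ξ := by
    obtain ⟨Y, hY⟩ : ∃ Y, Y = (1 - E) * Ψ := ⟨_, rfl⟩
    rw [← hY]
    have b1 : Φ Y ≤ 2 * ∑ l, ∑ k, ∑ k', B k k' * (Yᵀ * Y) (k, l) (k', l) := by
      rw [← bil_gram, mul_sum]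
      refine sum_le_sum fun i _ => ?_
      rw [mul_sum]
      exact sum_le_sum fun l _ => zq_le_two _ _
    have b2 : fro (Yᵀ * Y) ≤ 4 * D := by
      have c1 : fro (Yᵀ * Y) = fro (Y * Yᵀ) := by
        rw [fro_eq, fro_eq, transpose_mul, transpose_mul, transpose_transpose, Matrix.mul_assoc,
          trace_mul_comm]
        simp only [Matrix.mul_assoc]
      have c0 : (1 - E) * W = 0 := by rw [Matrix.sub_mul, Matrix.one_mul, hW, sub_self]
      have c2 : Y * Yᵀ = (1 - E) * ((1 - E) * Mᵀ)ᵀ := by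
        rw [transpose_mul, transpose_transpose, hM, Matrix.sub_mul (Ψ * Ψᵀ),
          Matrix.mul_sub (1 - E), Matrix.mul_assoc W, ← Matrix.mul_assoc (1 - E) W, c0,
          Matrix.zero_mul, sub_zero, hY, transpose_mul]
        simp only [Matrix.mul_assoc]
      rw [c1, c2]
      refine (fro_proj_le E hs hi _).trans ?_
      rw [fro_transpose]
      refine (fro_proj_le E hs hi _).trans ?_
      rw [fro_transpose]
      exact hMD
    have b3 : ∑ l, ∑ k, ∑ k', B k k' * (Yᵀ * Y) (k, l) (k', l) ≤ 2 * ξ := by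
      refine le_of_sq_le (by linarith) ?_
      have c2 := sum_mul_sq_le_sq_mul_sq univ (fun p : ι × ι × ι => B p.2.1 p.2.2)
        fun p => (Yᵀ * Y) (p.2.1, p.1) (p.2.2, p.1)
      simp only [Fintype.sum_prod_type, sum_const, card_univ, nsmul_eq_mul] at c2
      have c3 : ∑ l, ∑ k, ∑ k', (Yᵀ * Y) (k, l) (k', l) ^ 2 ≤ fro (Yᵀ * Y) := by
        rw [fro, Fintype.sum_prod_type, sum_comm]
        refine sum_le_sum fun l _ => sum_le_sum fun k _ => ?_
        rw [Fintype.sum_prod_type]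
        exact sum_le_sum fun k' _ => single_le_sum
          (f := fun l' => (Yᵀ * Y) (l, k) (k', l') ^ 2) (fun _ _ => sq_nonneg _) (mem_univ _)
      have c4 : 0 ≤ ∑ k, ∑ l, B k l ^ 2 := sum_nonneg fun _ _ => sum_nonneg fun _ _ => sq_nonneg _
      refine c2.trans ((mul_le_mul_of_nonneg_left (c3.trans b2) (mul_nonneg hr c4)).trans ?_)
      nlinarith
    linarith
  have p3 : ∑ i, (zq B (w i) - 1) ≤ ∑ i, s i ^ 2 * gr w i i * (zq B (w i) - 1) :=
    sum_le_sum fun i _ => s3 i _ (by simpa [gr, sq] using zq_le_sq B (w i))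
  simp only [mul_sub, mul_one, sum_sub_distrib (f := fun i => s i ^ 2 * gr w i i * zq B (w i))]
    at p3
  linarith

theorem diamond {V : Type} (T : Finset V) (w : V → ι → ℝ) (A : V → V → ℝ)
    (hA : ∀ i j, A i j = 0 ∨ A i j = 1) (B : ι → ι → ℝ) (ξ : ℝ) (hξ : 0 ≤ ξ)
    (h1 : Fintype.card ι * ∑ i ∈ T, ∑ j ∈ T, (A i j - gr w i j) ^ 2 ≤ ξ ^ 2)
    (h2 : Fintype.card ι * (∑ i ∈ T, ∑ j ∈ T, (A i j - gr w i j) ^ 2) * (∑ k, ∑ l, B k l ^ 2) ≤
      ξ ^ 2) :
    ∑ i ∈ T, (zq B (w i) - 1) ≤ 6 * ξ := by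
  have e : ∑ i : T, ∑ j : T, (A i j - gr (fun i : T => w i) i j) ^ 2 =
      ∑ i ∈ T, ∑ j ∈ T, (A i j - gr w i j) ^ 2 := by
    rw [← sum_coe_sort T]
    exact sum_congr rfl fun i _ => sum_coe_sort T fun j => (A i j - gr w i j) ^ 2
  rw [← sum_coe_sort T]
  exact diamond_univ (fun i : T => w i) (fun i j => A i j) (fun _ _ => hA _ _) B ξ hξ
    (by rw [e]; exact h1) (by rw [e]; exact h2)

end Pool.Agent.P.MP_416653_co.Wk
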