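import Pool.Agent.P.MP_416653_co.WkB

/-! A nearly complete vertex set with small errors contains a large clique. -/

namespace Pool.Agent.P.MP_416653_co.Wk

open Finset

variable {V ι : Type} [Fintype ι]

theorem cube_pt {N R h : ℝ} (hN : N = 0 ∨ N = 1) (h1 : -(3 / 50) ≤ h) (h2 : h ≤ 3 / 50) :
    (-N - R + h) ^ 3 ≤ -N / 8 + 2 * R ^ 2 + 52 * (R ^ 2 * |-N - R + h|) + h ^ 2 / 5 := by
  have c : ∀ Y : ℝ, Y ^ 3 ≤ |Y| * Y ^ 2 := fun Y => by
    have := le_abs_self Y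
    nlinarith [sq_nonneg Y]
  have a0 := abs_nonneg (-N - R + h)
  have a1 := c (-N - R + h)
  have a2 : 0 ≤ R ^ 2 * |-N - R + h| := by positivity
  rcases hN with rfl | rfl
  · have b1 : |-0 - R + h| ≤ |R| + 3 / 50 := by
      rw [abs_le]
      constructor <;> linarith [le_abs_self R, neg_abs_le R]
    have b2 : (-0 - R + h) ^ 2 ≤ 2 * h ^ 2 + 2 * R ^ 2 := by nlinarith [sq_nonneg (R + h)]
    have b3 : |-0 - R + h| * h ^ 2 ≤ (|R| + 3 / 50) * h ^ 2 :=
      mul_le_mul_of_nonneg_right b1 (sq_nonneg _)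
    have b4 : 2 * (|R| * h ^ 2) ≤ R ^ 2 + h ^ 2 * h ^ 2 := by
      nlinarith [sq_nonneg (|R| - h ^ 2), sq_abs R]
    have b5 : h ^ 2 ≤ 1 / 100 := by nlinarith
    have b6 : h ^ 2 * h ^ 2 ≤ h ^ 2 * (1 / 100) := mul_le_mul_of_nonneg_left b5 (sq_nonneg _)
    have b7 := mul_le_mul_of_nonneg_left b2 a0
    generalize |-0 - R + h| = Y at *
    generalize (-0 - R + h) ^ 3 = Z at *
    generalize (-0 - R + h) ^ 2 = X at *
    nlinarith [sq_nonneg R, sq_nonneg h]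
  · by_cases hR : R ^ 2 ≤ 1 / 16
    · have b1 : -(1 / 4) ≤ R := by nlinarith
      have b2 : -1 - R + h ≤ -(1 / 2) := by linarith
      have b3 : (-1 - R + h) ^ 3 ≤ -(1 / 8) := by
        have : 1 / 4 ≤ (-1 - R + h) ^ 2 := by nlinarith
        nlinarith
      nlinarith [sq_nonneg R, sq_nonneg h]
    · have b1 : (-1 - R + h) ^ 2 ≤ 52 * R ^ 2 := by nlinarith [sq_nonneg (-1 + R + h)]
      have b7 := mul_le_mul_of_nonneg_left b1 a0
      nlinarith [sq_nonneg h]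

theorem near (T : Finset V) (w : V → ι → ℝ) (A : V → V → ℝ) (hA : ∀ i j, A i j = 0 ∨ A i j = 1)
    (hs : ∀ i j, A i j = A j i) (r : ℝ) (hr : Fintype.card ι ≤ r) (hr1 : 1 ≤ r) (hT : T.Nonempty)
    (tur : (T.card : ℝ) ^ 2 ≤ r * ∑ i ∈ T, ∑ j ∈ T, (1 - A i j))
    (hp : ∀ i ∈ T, ∑ j ∈ T, (1 - A i j) ≤ T.card / 400)
    (hρ : ∀ i ∈ T, r * ∑ j ∈ T, (A i j - gr w i j) ^ 2 ≤ T.card / 4000) : False := by
  obtain ⟨n, hn⟩ : ∃ n : ℝ, n = T.card := ⟨_, rfl⟩
  rw [← hn] at tur hp hρ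
  have n0 : 0 < n := by rw [hn]; exact_mod_cast hT.card_pos
  obtain ⟨e, he⟩ : ∃ e, e = ∑ i ∈ T, ∑ j ∈ T, (1 - A i j) := ⟨_, rfl⟩
  obtain ⟨D, hD⟩ : ∃ D, D = ∑ i ∈ T, ∑ j ∈ T, (A i j - gr w i j) ^ 2 := ⟨_, rfl⟩
  rw [← he] at tur
  have e0 : 0 < e := by
    by_contra h
    nlinarith [not_lt.1 h, sq_pos_of_pos n0]
  have hD1 : r * D ≤ n * (n / 4000) := by
    rw [hD, mul_sum]
    refine (sum_le_sum hρ).trans ?_
    rw [sum_const, nsmul_eq_mul, ← hn]
  have hD2 : D ≤ e / 4000 := by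
    by_contra h
    nlinarith [not_le.1 h]
  let z : ι → ℝ := fun k => (∑ j ∈ T, w j k) / n
  let y : V → ι → ℝ := fun i k => w i k - z k
  let g : V → ℝ := fun i => 1 - (∑ j ∈ T, gr w i j) / n
  obtain ⟨b, hb⟩ : ∃ b, b = (∑ i ∈ T, g i) / n := ⟨_, rfl⟩
  have hz : ∀ i, ∑ k, w i k * z k = 1 - g i := by
    intro i
    simp only [z, g, gr, sub_sub_cancel, ← mul_div_assoc, ← sum_div, mul_sum]
    rw [sum_comm]
  have hzz : ∑ k, z k * z k = 1 - b := by
    have : ∑ k, z k * z k = (∑ i ∈ T, ∑ k, w i k * z k) / n := by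
      rw [sum_comm, sum_div]
      refine sum_congr rfl fun k _ => ?_
      rw [← sum_mul]
      simp only [z]
      ring
    rw [this, hb]
    simp only [hz, sum_sub_distrib, sum_const, nsmul_eq_mul, ← hn]
    field_simp
  have hy : ∀ i j, gr y i j = -(1 - A i j) - (A i j - gr w i j) + (g i + g j - b) := by
    intro i j
    have : gr y i j = gr w i j - ∑ k, w i k * z k - ∑ k, w j k * z k + ∑ k, z k * z k := by
      simp only [gr, y, ← sum_sub_distrib, ← sum_add_distrib]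
      exact sum_congr rfl fun _ _ => by ring
    rw [this, hz, hz, hzz]
    ring
  have hg : ∀ i ∈ T, |g i| ≤ 1 / 50 ∧ n * g i ^ 2 ≤ (∑ j ∈ T, (1 - A i j)) / 200 +
      2 * ∑ j ∈ T, (A i j - gr w i j) ^ 2 := by
    intro i hi
    obtain ⟨p, hp'⟩ : ∃ p, p = (∑ j ∈ T, (1 - A i j)) / n := ⟨_, rfl⟩
    obtain ⟨q, hq⟩ : ∃ q, q = (∑ j ∈ T, (A i j - gr w i j)) / n := ⟨_, rfl⟩
    have a1 : g i = p + q := by
      simp only [g, hp', hq, sum_sub_distrib, sum_const, nsmul_eq_mul, ← hn]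
      field_simp
      ring
    have a2 : 0 ≤ p := by
      rw [hp']
      exact div_nonneg (sum_nonneg fun j _ => by rcases hA i j with h | h <;> simp [h]) n0.le
    have a3 : p ≤ 1 / 400 := by
      rw [hp', div_le_iff₀ n0]
      linarith [hp i hi]
    have a4 : n * q ^ 2 ≤ ∑ j ∈ T, (A i j - gr w i j) ^ 2 := by
      have := sq_sum_le_card_mul_sum_sq (s := T) (f := fun j => A i j - gr w i j)
      rw [← hn] at this
      rw [hq, div_pow, ← mul_div_assoc, div_le_iff₀ (by positivity)]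
      nlinarith
    have a5 : 0 ≤ ∑ j ∈ T, (A i j - gr w i j) ^ 2 := sum_nonneg fun _ _ => sq_nonneg _
    have a6 : q ^ 2 ≤ 1 / 4000 := by
      have := hρ i hi
      by_contra h
      nlinarith [not_le.1 h]
    have a7 : ∑ j ∈ T, (1 - A i j) = n * p := by rw [hp']; field_simp
    refine ⟨by rw [a1, abs_le]; constructor <;> nlinarith, ?_⟩
    rw [a1, a7]
    have : (p + q) ^ 2 ≤ p / 200 + 2 * q ^ 2 := by nlinarith [sq_nonneg (p - q)]
    nlinarith
  have hb1 : |b| ≤ 1 / 50 := by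
    rw [hb, abs_div, abs_of_pos n0, div_le_iff₀ n0]
    refine (abs_sum_le_sum_abs _ _).trans ((sum_le_sum fun i hi => (hg i hi).1).trans ?_)
    rw [sum_const, nsmul_eq_mul, ← hn]
    linarith
  have hg2 : n * ∑ i ∈ T, g i ^ 2 ≤ e / 200 + 2 * D := by
    rw [mul_sum, he, hD, sum_div, mul_sum, ← sum_add_distrib]
    exact sum_le_sum fun i hi => (hg i hi).2
  have hb2 : n * b ^ 2 ≤ ∑ i ∈ T, g i ^ 2 := by
    have := sq_sum_le_card_mul_sum_sq (s := T) (f := g)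
    rw [← hn] at this
    rw [hb, div_pow, ← mul_div_assoc, div_le_iff₀ (by positivity)]
    nlinarith
  have hh : ∑ i ∈ T, ∑ j ∈ T, (g i + g j - b) ^ 2 ≤ e / 20 := by
    have : ∑ i ∈ T, ∑ j ∈ T, (g i + g j - b) ^ 2 ≤
        ∑ i ∈ T, ∑ j ∈ T, (3 * g i ^ 2 + 3 * g j ^ 2 + 3 * b ^ 2) :=
      sum_le_sum fun i _ => sum_le_sum fun j _ => by
        nlinarith [sq_nonneg (g i - g j), sq_nonneg (g i + b), sq_nonneg (g j + b)]
    simp only [sum_add_distrib, sum_const, nsmul_eq_mul, ← hn, ← mul_sum] at this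
    nlinarith
  have hY2 : ∑ i ∈ T, ∑ j ∈ T, gr y i j ^ 2 ≤ 4 * e := by
    have : ∑ i ∈ T, ∑ j ∈ T, gr y i j ^ 2 ≤ ∑ i ∈ T, ∑ j ∈ T,
        (3 * (1 - A i j) + 3 * (A i j - gr w i j) ^ 2 + 3 * (g i + g j - b) ^ 2) :=
      sum_le_sum fun i _ => sum_le_sum fun j _ => by
        rw [hy]
        have : (1 - A i j) ^ 2 = 1 - A i j := by rcases hA i j with h | h <;> simp [h]
        nlinarith [sq_nonneg (1 - A i j - (A i j - gr w i j)),
          sq_nonneg (1 - A i j + (g i + g j - b)),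
          sq_nonneg (A i j - gr w i j + (g i + g j - b))]
    simp only [sum_add_distrib, ← mul_sum, ← he, ← hD] at this
    linarith
  have htr : n * ∑ i ∈ T, gr y i i ≤ r * (2 * e) := by
    refine le_of_sq_le (by positivity) ?_
    have a1 := trace_sq_le y T
    have a2 : (∑ i ∈ T, gr y i i) ^ 2 ≤ r * (4 * e) :=
      a1.trans (mul_le_mul hr hY2 (sum_nonneg fun _ _ => sum_nonneg fun _ _ => sq_nonneg _)
        (by linarith))
    rw [mul_pow]
    calc n ^ 2 * (∑ i ∈ T, gr y i i) ^ 2 ≤ (r * e) * (r * (4 * e)) :=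
          mul_le_mul tur a2 (sq_nonneg _) (by positivity)
      _ = (r * (2 * e)) ^ 2 := by ring
  have hRY : ∑ i ∈ T, ∑ j ∈ T, (A i j - gr w i j) ^ 2 * |gr y i j| ≤ e / 2000 := by
    have a1 : ∑ i ∈ T, ∑ j ∈ T, (A i j - gr w i j) ^ 2 * |gr y i j| ≤
        ∑ i ∈ T, ∑ j ∈ T, ((A i j - gr w i j) ^ 2 * gr y i i / 2 +
          (A j i - gr w j i) ^ 2 * gr y j j / 2) :=
      sum_le_sum fun i _ => sum_le_sum fun j _ => by
        rw [hs j i, gr_symm w j i]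
        nlinarith [mul_le_mul_of_nonneg_left (abs_gr_le y i j) (sq_nonneg (A i j - gr w i j))]
    simp only [sum_add_distrib] at a1
    rw [sum_comm (f := fun i j => (A j i - gr w j i) ^ 2 * gr y j j / 2)] at a1
    have a2 : r * ∑ i ∈ T, ∑ j ∈ T, (A i j - gr w i j) ^ 2 * gr y i i / 2 ≤
        n / 8000 * ∑ i ∈ T, gr y i i := by
      rw [mul_sum, mul_sum]
      refine sum_le_sum fun i hi => ?_
      rw [← sum_div, ← sum_mul]
      nlinarith [mul_le_mul_of_nonneg_right (hρ i hi) (gr_self_nonneg y i)]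
    by_contra h
    nlinarith [not_le.1 h]
  have hc := cube_nonneg y T
  have : ∑ i ∈ T, ∑ j ∈ T, gr y i j ^ 3 ≤ ∑ i ∈ T, ∑ j ∈ T,
      (-(1 / 8) * (1 - A i j) + 2 * (A i j - gr w i j) ^ 2 +
        52 * ((A i j - gr w i j) ^ 2 * |gr y i j|) + 1 / 5 * (g i + g j - b) ^ 2) := by
    refine sum_le_sum fun i hi => sum_le_sum fun j hj => ?_
    obtain ⟨a1, a2⟩ := abs_le.1 (hg i hi).1
    obtain ⟨a3, a4⟩ := abs_le.1 (hg j hj).1
    obtain ⟨a5, a6⟩ := abs_le.1 hb1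
    have := cube_pt (N := 1 - A i j) (R := A i j - gr w i j) (h := g i + g j - b)
      (by rcases hA i j with h | h <;> simp [h]) (by linarith) (by linarith)
    rw [← hy] at this
    linarith
  simp only [sum_add_distrib, ← mul_sum, ← he, ← hD] at this
  linarith

end Pool.Agent.P.MP_416653_co.Wk
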