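import Pool.Agent.P.MP_416653_co.WkC

/-! Vertex sets with degrees in a bounded ratio. -/

namespace Pool.Agent.P.MP_416653_co.Wk

open Finset

variable {V ι : Type} [Fintype ι]

theorem gram_le (T : Finset V) (w : V → ι → ℝ) (A : V → V → ℝ) (hA : ∀ i j, A i j = 0 ∨ A i j = 1)
    (hs : ∀ i j, A i j = A j i) (r : ℝ) (hr : Fintype.card ι ≤ r) (hr1 : 1 ≤ r) (Δ : ℝ)
    (hΔ : ∀ i ∈ T, ∑ j ∈ T, A i j ≤ Δ) :
    ∑ i ∈ T, ∑ j ∈ T, gr w i j ^ 2 ≤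
      2 * Δ ^ 2 * r + 2 * ∑ i ∈ T, ∑ j ∈ T, (A i j - gr w i j) ^ 2 := by
  have a0 : ∀ i j, 0 ≤ A i j := fun i j => by rcases hA i j with h | h <;> simp [h]
  have a1 : ∑ i ∈ T, ∑ j ∈ T, gr w i j ^ 2 ≤ ∑ i ∈ T, ∑ j ∈ T, (A i j * gr w i i / 2 +
      A j i * gr w j j / 2 + (1 / 4 * gr w i j ^ 2 + (A i j - gr w i j) ^ 2)) :=
    sum_le_sum fun i _ => sum_le_sum fun j _ => by
      rw [hs j i]
      nlinarith [mul_le_mul_of_nonneg_left ((le_abs_self _).trans (abs_gr_le w i j)) (a0 i j),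
        sq_nonneg (gr w i j / 2 + (A i j - gr w i j))]
  simp only [sum_add_distrib, ← mul_sum] at a1
  rw [sum_comm (f := fun i j => A j i * gr w j j / 2)] at a1
  have a2 : ∑ i ∈ T, ∑ j ∈ T, A i j * gr w i i / 2 ≤ Δ / 2 * ∑ i ∈ T, gr w i i := by
    rw [mul_sum]
    refine sum_le_sum fun i hi => ?_
    rw [← sum_div, ← sum_mul]
    nlinarith [mul_le_mul_of_nonneg_right (hΔ i hi) (gr_self_nonneg w i)]
  have a3 := trace_sq_le w T
  have a4 : 0 ≤ ∑ i ∈ T, ∑ j ∈ T, gr w i j ^ 2 :=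
    sum_nonneg fun _ _ => sum_nonneg fun _ _ => sq_nonneg _
  generalize ∑ i ∈ T, ∑ j ∈ T, gr w i j ^ 2 = N at *
  generalize ∑ i ∈ T, gr w i i = t at *
  have a5 : t ^ 2 ≤ r * N := a3.trans (mul_le_mul_of_nonneg_right hr a4)
  have a6 : Δ * t ≤ N / 4 + Δ ^ 2 * r := by
    by_contra h
    nlinarith [not_le.1 h, sq_nonneg (t - 2 * r * Δ)]
  linarith

theorem quad_le (T : Finset V) (w : V → ι → ℝ) (A : V → V → ℝ) (hA : ∀ i j, A i j = 0 ∨ A i j = 1)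
    (hs : ∀ i j, A i j = A j i) (Δ : ℝ) (hΔ0 : 0 ≤ Δ) (hΔ : ∀ i ∈ T, ∑ j ∈ T, A i j ≤ Δ)
    (hD : ∑ i ∈ T, ∑ j ∈ T, (A i j - gr w i j) ^ 2 ≤ Δ ^ 2) (v : V → ℝ) :
    ∑ i ∈ T, ∑ j ∈ T, v i * v j * gr w i j ≤ 2 * Δ * ∑ i ∈ T, v i ^ 2 := by
  have a0 : ∀ i j, 0 ≤ A i j := fun i j => by rcases hA i j with h | h <;> simp [h]
  have a1 : ∑ i ∈ T, ∑ j ∈ T, v i * v j * gr w i j ≤ ∑ i ∈ T, ∑ j ∈ T, (A i j * v i ^ 2 / 2 +
      A j i * v j ^ 2 / 2 + -(v i * v j) * (A i j - gr w i j)) :=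
    sum_le_sum fun i _ => sum_le_sum fun j _ => by
      rw [hs j i]
      nlinarith [mul_nonneg (a0 i j) (sq_nonneg (v i - v j))]
  simp only [sum_add_distrib] at a1
  rw [sum_comm (f := fun i j => A j i * v j ^ 2 / 2)] at a1
  have a2 : ∑ i ∈ T, ∑ j ∈ T, A i j * v i ^ 2 / 2 ≤ Δ / 2 * ∑ i ∈ T, v i ^ 2 := by
    rw [mul_sum]
    refine sum_le_sum fun i hi => ?_
    rw [← sum_div, ← sum_mul]
    nlinarith [mul_le_mul_of_nonneg_right (hΔ i hi) (sq_nonneg (v i))]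
  have a4 : 0 ≤ ∑ i ∈ T, v i ^ 2 := sum_nonneg fun _ _ => sq_nonneg _
  have a3 : ∑ i ∈ T, ∑ j ∈ T, -(v i * v j) * (A i j - gr w i j) ≤ Δ * ∑ i ∈ T, v i ^ 2 := by
    refine le_of_sq_le (by positivity) ?_
    have c := sum_mul_sq_le_sq_mul_sq (T ×ˢ T) (fun p => -(v p.1 * v p.2))
      fun p => A p.1 p.2 - gr w p.1 p.2
    simp only [sum_product, neg_sq, mul_pow, ← mul_sum, ← sum_mul] at c
    refine c.trans ?_
    nlinarith [mul_le_mul_of_nonneg_left hD (mul_nonneg a4 a4)]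
  linarith

/-- A vertex whose neighbourhood is nearly complete and has small error. -/
theorem nbhd (T : Finset V) (w : V → ι → ℝ) (A : V → V → ℝ) (hA : ∀ i j, A i j = 0 ∨ A i j = 1)
    (hs : ∀ i j, A i j = A j i) (r : ℝ) (hr : Fintype.card ι ≤ r) (hr1 : 1 ≤ r)
    (tur : ∀ S : Finset V, (S.card : ℝ) ^ 2 ≤ r * ∑ i ∈ S, ∑ j ∈ S, (1 - A i j))
    (u : V) (d : ℝ) (hd : d = ∑ j ∈ T, A u j) (d0 : 0 < d)
    (h1 : d ^ 2 - ∑ j ∈ T, ∑ k ∈ T, A u j * A u k * A j k ≤ d ^ 2 / 4000)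
    (h2 : r * ∑ j ∈ T, ∑ k ∈ T, A u j * A u k * (A j k - gr w j k) ^ 2 ≤ d ^ 2 / 40000) :
    False := by
  classical
  set S := T.filter fun j => A u j = 1 with hS
  have hsum : ∀ f : V → ℝ, ∑ j ∈ T, A u j * f j = ∑ j ∈ S, f j := fun f => by
    rw [hS, sum_filter]
    exact sum_congr rfl fun j _ => by rcases hA u j with h | h <;> simp [h]
  have hsum2 : ∀ f : V → V → ℝ, ∑ j ∈ T, ∑ k ∈ T, A u j * A u k * f j k =
      ∑ j ∈ S, ∑ k ∈ S, f j k := fun f => by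
    rw [← hsum]
    exact sum_congr rfl fun j _ => by simp only [mul_assoc, ← mul_sum, hsum]
  have hc : d = S.card := by simpa [← hd] using hsum fun _ => 1
  rw [hsum2] at h1 h2
  have n0 : ∀ i j, 0 ≤ 1 - A i j := fun i j => by rcases hA i j with h | h <;> simp [h]
  have h3 : ∑ j ∈ S, ∑ k ∈ S, (1 - A j k) ≤ d ^ 2 / 4000 := by
    simp only [sum_sub_distrib, sum_const, nsmul_eq_mul, ← hc]
    linarith
  let φ : V → ℝ := fun j => 800 * ∑ k ∈ S, (1 - A j k) + 8000 * (r * ∑ k ∈ S, (A j k - gr w j k) ^ 2)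
  have φ1 : ∀ j, 0 ≤ ∑ k ∈ S, (1 - A j k) := fun j => sum_nonneg fun k _ => n0 j k
  have φ2 : ∀ j, 0 ≤ r * ∑ k ∈ S, (A j k - gr w j k) ^ 2 := fun j =>
    mul_nonneg (by linarith) (sum_nonneg fun k _ => sq_nonneg _)
  have h4 : ∑ j ∈ S, φ j ≤ d ^ 2 / 2 := by
    simp only [φ, sum_add_distrib, ← mul_sum]
    nlinarith
  set S' := S.filter fun j => φ j ≤ d with hS'
  have h5 : d ≤ 2 * S'.card := by
    have a1 := card_filter_add_card_filter_not (s := S) fun j => φ j ≤ d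
    have a2 : ((S.filter fun j => ¬ φ j ≤ d).card : ℝ) * d ≤ ∑ j ∈ S, φ j := by
      rw [← nsmul_eq_mul, ← sum_const]
      refine (sum_le_sum fun j hj => (not_le.1 (mem_filter.1 hj).2).le).trans
        (sum_le_sum_of_subset_of_nonneg (filter_subset _ _) fun j _ _ => ?_)
      simp only [φ]
      linarith [φ1 j, φ2 j]
    have a3 : (S'.card : ℝ) + (S.filter fun j => ¬ φ j ≤ d).card = d := by
      have : (S'.card : ℝ) + (S.filter fun j => ¬ φ j ≤ d).card = S.card := by exact_mod_cast a1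
      linarith
    nlinarith
  refine near S' w A hA hs r hr hr1 ?_ (tur S') (fun i hi => ?_) fun i hi => ?_
  · rw [← card_pos]
    have : (0 : ℝ) < S'.card := by linarith
    exact_mod_cast this
  · have a1 : φ i ≤ d := (mem_filter.1 hi).2
    have a2 : ∑ k ∈ S', (1 - A i k) ≤ ∑ k ∈ S, (1 - A i k) :=
      sum_le_sum_of_subset_of_nonneg (filter_subset _ _) fun j _ _ => n0 _ _
    simp only [φ] at a1
    linarith [φ2 i]
  · have a1 : φ i ≤ d := (mem_filter.1 hi).2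
    have a2 : r * ∑ k ∈ S', (A i k - gr w i k) ^ 2 ≤ r * ∑ k ∈ S, (A i k - gr w i k) ^ 2 :=
      mul_le_mul_of_nonneg_left
        (sum_le_sum_of_subset_of_nonneg (filter_subset _ _) fun j _ _ => sq_nonneg _) (by linarith)
    simp only [φ] at a1
    linarith [φ1 i]

end Pool.Agent.P.MP_416653_co.Wk
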