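import Pool.Agent.P.MP_416653_co.WkD

/-! The deficiency bound for degrees in a bounded ratio. -/

namespace Pool.Agent.P.MP_416653_co.Wk

open Finset

variable {V ι : Type} [Fintype ι]

theorem zq_cov (T : Finset V) (w : V → ι → ℝ) (y : V → ℝ) (i : V) :
    zq (fun k l => ∑ j ∈ T, y j * w j k * w j l) (w i) =
      2 * (∑ j ∈ T, y j * gr w i j ^ 2) - ∑ k, (∑ j ∈ T, y j * gr w i j * w j k) ^ 2 := by
  have h1 : ∀ k, ∑ l, (∑ j ∈ T, y j * w j k * w j l) * w i l =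
      ∑ j ∈ T, y j * gr w i j * w j k := by
    intro k
    simp only [gr, sum_mul, mul_sum]
    rw [sum_comm]
    exact sum_congr rfl fun _ _ => sum_congr rfl fun _ _ => by ring
  have h2 : ∑ k, ∑ l, (∑ j ∈ T, y j * w j k * w j l) * (w i k * w i l) =
      ∑ j ∈ T, y j * gr w i j ^ 2 := by
    have : ∀ k, ∑ l, (∑ j ∈ T, y j * w j k * w j l) * (w i k * w i l) =
        ∑ j ∈ T, y j * gr w i j * (w i k * w j k) := by
      intro k
      have := congrArg (· * w i k) (h1 k)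
      simp only [sum_mul] at this ⊢
      refine Eq.trans ?_ (this.trans ?_)
      · exact sum_congr rfl fun _ _ => sum_congr rfl fun _ _ => by ring
      · exact sum_congr rfl fun _ _ => by ring
    simp only [this]
    rw [sum_comm]
    refine sum_congr rfl fun j _ => ?_
    rw [← mul_sum, sq, mul_assoc]
    rfl
  rw [zq, h2]
  simp only [h1]

theorem sum3 (T : Finset V) (f : V → V → V → ℝ) :
    ∑ i ∈ T, ∑ j ∈ T, ∑ k ∈ T, f i j k = ∑ j ∈ T, ∑ k ∈ T, ∑ i ∈ T, f i j k := by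
  rw [sum_comm]
  exact sum_congr rfl fun _ _ => sum_comm

theorem ratio (T : Finset V) (w : V → ι → ℝ) (A : V → V → ℝ) (hA : ∀ i j, A i j = 0 ∨ A i j = 1)
    (hs : ∀ i j, A i j = A j i) (r : ℝ) (hr : Fintype.card ι ≤ r) (hr1 : 1 ≤ r)
    (tur : ∀ S : Finset V, (S.card : ℝ) ^ 2 ≤ r * ∑ i ∈ S, ∑ j ∈ S, (1 - A i j))
    (θ K lam : ℝ) (θ0 : 0 < θ) (K1 : 1 ≤ K) (hT : T.Nonempty)
    (lo : ∀ i ∈ T, θ ≤ ∑ j ∈ T, A i j) (hi : ∀ i ∈ T, ∑ j ∈ T, A i j ≤ K * θ) (l0 : 0 ≤ lam)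
    (hl : ∑ i ∈ T, ∑ j ∈ T, (A i j - gr w i j) ^ 2 ≤ lam * ∑ i ∈ T, ∑ j ∈ T, A i j)
    (hlam : lam * K ^ 2 * r ≤ (1 / 200000) ^ 2) : False := by
  have a0 : ∀ i j, 0 ≤ A i j := fun i j => by rcases hA i j with h | h <;> simp [h]
  have a1 : ∀ i j, A i j ≤ 1 := fun i j => by rcases hA i j with h | h <;> simp [h]
  obtain ⟨n, hn⟩ : ∃ n : ℝ, n = T.card := ⟨_, rfl⟩
  have n0 : 0 < n := by rw [hn]; exact_mod_cast hT.card_pos
  have cst : ∀ c : ℝ, ∑ _i ∈ T, c = n * c := fun c => by rw [sum_const, nsmul_eq_mul, hn]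
  obtain ⟨D, hD⟩ : ∃ D, D = ∑ i ∈ T, ∑ j ∈ T, (A i j - gr w i j) ^ 2 := ⟨_, rfl⟩
  obtain ⟨e, he⟩ : ∃ e, e = ∑ i ∈ T, ∑ j ∈ T, A i j := ⟨_, rfl⟩
  obtain ⟨μ, hμ⟩ : ∃ μ, μ = lam * K ^ 2 := ⟨_, rfl⟩
  rw [← hD, ← he] at hl
  rw [← hμ] at hlam
  have D0 : 0 ≤ D := by rw [hD]; exact sum_nonneg fun _ _ => sum_nonneg fun _ _ => sq_nonneg _
  have μ0 : 0 ≤ μ := by rw [hμ]; positivity
  have μ1 : μ ≤ (1 / 200000) ^ 2 := by nlinarith
  have lμ : lam ≤ μ := by rw [hμ]; nlinarith [mul_nonneg l0 (by nlinarith : 0 ≤ K ^ 2 - 1)]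
  have e1 : e ≤ n * (K * θ) := by rw [he, ← cst]; exact sum_le_sum hi
  have KD : K * D ≤ μ * n * θ := by
    have := mul_le_mul_of_nonneg_left (hl.trans (mul_le_mul_of_nonneg_left e1 l0))
      (by linarith : 0 ≤ K)
    rw [hμ]; linarith
  have D1 : D ≤ μ * n * θ := by nlinarith
  have θn : θ ≤ n := by
    obtain ⟨i, hi'⟩ := hT
    refine (lo i hi').trans ((sum_le_sum fun j _ => a1 i j).trans ?_)
    rw [cst, mul_one]
  have DΔ : D ≤ (K * θ) ^ 2 := by
    have b1 := gram_le T w A hA hs r hr hr1 (K * θ) hi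
    have b2 : e ≤ ∑ i ∈ T, ∑ j ∈ T, (2 * gr w i j ^ 2 + 2 * (A i j - gr w i j) ^ 2) := by
      rw [he]
      exact sum_le_sum fun i _ => sum_le_sum fun j _ => by
        rcases hA i j with h | h <;> rw [h] <;> nlinarith [sq_nonneg (1 - 2 * gr w i j),
          sq_nonneg (gr w i j)]
    simp only [sum_add_distrib, ← mul_sum, ← hD] at b1 b2
    have b3 : 0 ≤ (K * θ) ^ 2 := sq_nonneg _
    generalize (K * θ) ^ 2 = X at *
    have e0 : 0 ≤ e := by rw [he]; exact sum_nonneg fun _ _ => sum_nonneg fun _ _ => a0 _ _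
    have b4 : lam * e ≤ 1 / 12 * e := mul_le_mul_of_nonneg_right (by linarith) e0
    have b5 : e ≤ 8 * X * r := by linarith
    have b6 : lam * r ≤ 1 / 8 := by nlinarith
    nlinarith [mul_le_mul_of_nonneg_left b5 l0, mul_le_mul_of_nonneg_left b6 b3]
  let y : V → ℝ := fun j => 1 / ∑ k ∈ T, A j k
  have y0 : ∀ j ∈ T, 0 < y j := fun j hj => one_div_pos.2 (θ0.trans_le (lo j hj))
  have y1 : ∀ j ∈ T, y j * ∑ k ∈ T, A j k = 1 := fun j hj =>
    one_div_mul_cancel (θ0.trans_le (lo j hj)).ne'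
  have y2 : ∀ j ∈ T, θ * y j ≤ 1 := fun j hj => by
    nlinarith [mul_le_mul_of_nonneg_left (lo j hj) (y0 j hj).le, y1 j hj]
  have yA : ∑ i ∈ T, ∑ j ∈ T, y j * A i j = n := by
    rw [sum_comm, ← mul_one n, ← cst]
    refine sum_congr rfl fun j hj => ?_
    rw [← mul_sum, ← y1 j hj]
    simp only [hs _ j]
  have hB : θ * ∑ i ∈ T, ∑ j ∈ T, y i * y j * gr w i j ^ 2 ≤ 4 * n := by
    have b1 : θ * (θ * ∑ i ∈ T, ∑ j ∈ T, y i * y j * gr w i j ^ 2) ≤
        ∑ i ∈ T, ∑ j ∈ T, (2 * θ * (y j * A i j) + 2 * (A i j - gr w i j) ^ 2) := by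
      simp only [mul_sum]
      refine sum_le_sum fun i hi' => sum_le_sum fun j hj => ?_
      have c1 : gr w i j ^ 2 ≤ 2 * A i j + 2 * (A i j - gr w i j) ^ 2 := by
        rcases hA i j with h | h <;> rw [h] <;> nlinarith [sq_nonneg (2 - gr w i j),
          sq_nonneg (gr w i j)]
      have c2 : 0 ≤ θ * y i := (mul_pos θ0 (y0 i hi')).le
      have c3 : 0 ≤ θ * y j := (mul_pos θ0 (y0 j hj)).le
      have c4 := y2 i hi'
      have c5 := y2 j hj
      have c6 : (θ * y i) * (θ * y j) ≤ θ * y j := by nlinarith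
      have c7 := mul_le_mul_of_nonneg_left c1 (mul_nonneg c2 c3)
      have c8 := mul_le_mul_of_nonneg_right c6 (a0 i j)
      have c9 := mul_le_mul_of_nonneg_right (c6.trans c5) (sq_nonneg (A i j - gr w i j))
      nlinarith
    simp only [sum_add_distrib, ← mul_sum, ← hD, yA] at b1
    have b2 : μ * n * θ ≤ 1 * n * θ := by gcongr; linarith
    exact le_of_mul_le_mul_left (by linarith) θ0
  have hr0 : (0 : ℝ) ≤ Fintype.card ι := Nat.cast_nonneg _
  have rD : Fintype.card ι * D ≤ (1 / 200000) ^ 2 * n * θ := by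
    have b1 : Fintype.card ι * D ≤ r * (μ * n * θ) := mul_le_mul hr D1 D0 (by linarith)
    nlinarith [mul_le_mul_of_nonneg_right hlam (mul_pos n0 θ0).le]
  have dia := diamond T w A hA (fun k l => ∑ j ∈ T, y j * w j k * w j l) (n / 100000)
    (by positivity) (by rw [← hD]; nlinarith) (by
      rw [← hD, ← sq_gr]
      have b1 : 0 ≤ ∑ i ∈ T, ∑ j ∈ T, y i * y j * gr w i j ^ 2 := by
        rw [sq_gr]; exact sum_nonneg fun _ _ => sum_nonneg fun _ _ => sq_nonneg _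
      nlinarith [mul_le_mul_of_nonneg_right rD b1, mul_le_mul_of_nonneg_left hB n0.le])
  simp only [zq_cov, sum_sub_distrib, cst, ← mul_sum] at dia
  have S1 : (1 - 2 / 200000) * n ≤ ∑ i ∈ T, ∑ j ∈ T, y j * gr w i j ^ 2 := by
    have b1 : ∑ i ∈ T, ∑ j ∈ T, ((1 - 1 / 200000) * θ * (y j * A i j) -
        200000 * (A i j - gr w i j) ^ 2) ≤ θ * ∑ i ∈ T, ∑ j ∈ T, y j * gr w i j ^ 2 := by
      simp only [mul_sum]
      refine sum_le_sum fun i _ => sum_le_sum fun j hj => ?_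
      have c1 : (1 - 1 / 200000) * A i j - 200000 * (A i j - gr w i j) ^ 2 ≤ gr w i j ^ 2 := by
        rcases hA i j with h | h <;> rw [h] <;>
          nlinarith [sq_nonneg (1 / 200000 - (1 - gr w i j)), sq_nonneg (gr w i j),
            sq_nonneg (1 - gr w i j)]
      have c3 : 0 ≤ θ * y j := (mul_pos θ0 (y0 j hj)).le
      have c7 := mul_le_mul_of_nonneg_left c1 c3
      have c9 := mul_le_mul_of_nonneg_right (y2 j hj) (sq_nonneg (A i j - gr w i j))
      nlinarith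
    simp only [sum_sub_distrib, ← mul_sum, ← hD, yA] at b1
    have b2 : μ * n * θ ≤ (1 / 200000) ^ 2 * n * θ := by gcongr
    exact le_of_mul_le_mul_left (by linarith) θ0
  have S2 : ∑ i ∈ T, ∑ k, (∑ j ∈ T, y j * gr w i j * w j k) ^ 2 ≤
      (1 + 1 / 200000) * ∑ i ∈ T, ∑ k, (∑ j ∈ T, y j * A i j * w j k) ^ 2 +
        200001 * ∑ i ∈ T, ∑ k, (∑ j ∈ T, y j * (A i j - gr w i j) * w j k) ^ 2 := by
    simp only [mul_sum (s := T), mul_sum (s := univ), ← sum_add_distrib]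
    refine sum_le_sum fun i _ => sum_le_sum fun k _ => ?_
    have : ∑ j ∈ T, y j * gr w i j * w j k = ∑ j ∈ T, y j * A i j * w j k -
        ∑ j ∈ T, y j * (A i j - gr w i j) * w j k := by
      rw [← sum_sub_distrib]
      exact sum_congr rfl fun _ _ => by ring
    rw [this]
    generalize ∑ j ∈ T, y j * A i j * w j k = a
    generalize ∑ j ∈ T, y j * (A i j - gr w i j) * w j k = b
    nlinarith [sq_nonneg (a / 200000 + b)]
  have S2b : ∑ i ∈ T, ∑ k, (∑ j ∈ T, y j * (A i j - gr w i j) * w j k) ^ 2 ≤ 2 * μ * n := by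
    have b1 : θ ^ 2 * ∑ i ∈ T, ∑ k, (∑ j ∈ T, y j * (A i j - gr w i j) * w j k) ^ 2 ≤
        2 * (K * θ) * D := by
      rw [hD, mul_sum, mul_sum]
      refine sum_le_sum fun i _ => ?_
      rw [quad_gr]
      have c1 := quad_le T w A hA hs (K * θ) (by positivity) hi (by rw [← hD]; exact DΔ)
        fun j => y j * (A i j - gr w i j)
      have c2 : θ ^ 2 * ∑ j ∈ T, (y j * (A i j - gr w i j)) ^ 2 ≤
          ∑ j ∈ T, (A i j - gr w i j) ^ 2 := by
        rw [mul_sum]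
        refine sum_le_sum fun j hj => ?_
        have d1 : (θ * y j) ^ 2 ≤ 1 := by nlinarith [y2 j hj, mul_pos θ0 (y0 j hj)]
        nlinarith [mul_le_mul_of_nonneg_right d1 (sq_nonneg (A i j - gr w i j))]
      nlinarith [mul_le_mul_of_nonneg_left c1 (sq_nonneg θ),
        mul_le_mul_of_nonneg_left c2 (by positivity : 0 ≤ 2 * (K * θ))]
    exact le_of_mul_le_mul_left (by nlinarith [mul_le_mul_of_nonneg_left KD θ0.le])
      (sq_pos_of_pos θ0)
  obtain ⟨q, hq⟩ : ∃ q : V → ℝ, ∀ u, q u = y u ^ 2 * ∑ j ∈ T, ∑ k ∈ T, A u j * A u k * A j k :=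
    ⟨_, fun _ => rfl⟩
  have q1 : ∀ u ∈ T, q u ≤ 1 := fun u hu => by
    have c1 : ∑ j ∈ T, ∑ k ∈ T, A u j * A u k * A j k ≤ (∑ j ∈ T, A u j) ^ 2 := by
      rw [sq, sum_mul_sum]
      exact sum_le_sum fun j _ => sum_le_sum fun k _ => by
        nlinarith [mul_nonneg (a0 u j) (a0 u k), a1 j k]
    have c2 := mul_le_mul_of_nonneg_left c1 (sq_nonneg (y u))
    rw [← mul_pow, y1 u hu] at c2
    rw [hq]; linarith
  have S2a : ∑ i ∈ T, ∑ k, (∑ j ∈ T, y j * A i j * w j k) ^ 2 ≤ ∑ u ∈ T, q u + n / 200000 := by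
    obtain ⟨c, hc⟩ : ∃ c : V → V → ℝ, ∀ j k, c j k = ∑ i ∈ T, y j * A i j * (y k * A i k) :=
      ⟨_, fun _ _ => rfl⟩
    have b1 : ∑ i ∈ T, ∑ k, (∑ j ∈ T, y j * A i j * w j k) ^ 2 =
        ∑ j ∈ T, ∑ k ∈ T, c j k * A j k + ∑ j ∈ T, ∑ k ∈ T, -c j k * (A j k - gr w j k) := by
      simp only [quad_gr, ← sum_add_distrib]
      rw [sum3]
      refine sum_congr rfl fun j _ => sum_congr rfl fun k _ => ?_
      rw [← sum_mul, ← hc]
      ring
    have b2 : ∑ j ∈ T, ∑ k ∈ T, c j k * A j k ≤ ∑ u ∈ T, q u := by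
      have c1 : ∑ j ∈ T, ∑ k ∈ T, c j k * A j k ≤ ∑ j ∈ T, ∑ k ∈ T,
          (1 / 2 * (y j ^ 2 * ∑ i ∈ T, A j k * A j i * A k i) +
            1 / 2 * (y k ^ 2 * ∑ i ∈ T, A k j * A k i * A j i)) := by
        refine sum_le_sum fun j _ => sum_le_sum fun k _ => ?_
        simp only [hc, sum_mul, mul_sum, ← sum_add_distrib]
        refine sum_le_sum fun i _ => ?_
        rw [hs j i, hs k i, hs k j]
        nlinarith [mul_nonneg (mul_nonneg (mul_nonneg (a0 i j) (a0 i k)) (a0 j k))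
          (sq_nonneg (y j - y k))]
      simp only [sum_add_distrib] at c1
      rw [sum_comm (f := fun j k => 1 / 2 * (y k ^ 2 * ∑ i ∈ T, A k j * A k i * A j i))] at c1
      simp only [← mul_sum, ← hq] at c1
      linarith
    have b3 : ∑ j ∈ T, ∑ k ∈ T, c j k ≤ K * n := by
      simp only [hc]
      rw [← sum3, ← yA, mul_sum]
      refine sum_le_sum fun i hi' => ?_
      rw [← sum_mul_sum]
      refine mul_le_mul_of_nonneg_right ?_ (sum_nonneg fun j hj => mul_nonneg (y0 j hj).le (a0 _ _))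
      refine le_of_mul_le_mul_left ?_ θ0
      rw [mul_sum, mul_comm θ K]
      refine (sum_le_sum fun j hj => ?_).trans (hi i hi')
      nlinarith [mul_le_mul_of_nonneg_right (y2 j hj) (a0 i j)]
    have b4 : θ * ∑ j ∈ T, ∑ k ∈ T, c j k ^ 2 ≤ ∑ j ∈ T, ∑ k ∈ T, c j k := by
      simp only [mul_sum]
      refine sum_le_sum fun j hj => sum_le_sum fun k hk => ?_
      have c0 : 0 ≤ c j k := by
        rw [hc]
        exact sum_nonneg fun i _ => mul_nonneg (mul_nonneg (y0 j hj).le (a0 _ _))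
          (mul_nonneg (y0 k hk).le (a0 _ _))
      have c1 : θ * c j k ≤ 1 := by
        rw [hc, ← y1 j hj, mul_sum, mul_sum]
        refine sum_le_sum fun i _ => ?_
        rw [hs j i]
        have d1 : θ * y k * A i k ≤ 1 := by
          nlinarith [y2 k hk, a1 i k, a0 i k, mul_pos θ0 (y0 k hk)]
        nlinarith [mul_le_mul_of_nonneg_left d1 (mul_nonneg (y0 j hj).le (a0 i j))]
      nlinarith
    have b5 : ∑ j ∈ T, ∑ k ∈ T, -c j k * (A j k - gr w j k) ≤ n / 200000 := by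
      refine le_of_sq_le (by positivity) ?_
      have c1 := sum_mul_sq_le_sq_mul_sq (T ×ˢ T) (fun p => -c p.1 p.2)
        fun p => A p.1 p.2 - gr w p.1 p.2
      simp only [sum_product, neg_sq, ← hD] at c1
      refine c1.trans (le_of_mul_le_mul_left ?_ θ0)
      have c2 := mul_le_mul_of_nonneg_right (b4.trans b3) D0
      have c3 := mul_le_mul_of_nonneg_left KD n0.le
      have c4 := mul_le_mul_of_nonneg_right μ1 (by positivity : 0 ≤ n * n * θ)
      nlinarith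
    linarith
  have Q1 : ∑ u ∈ T, q u ≤ n := by rw [← mul_one n, ← cst]; exact sum_le_sum q1
  have μn : μ * n ≤ (1 / 200000) ^ 2 * n := mul_le_mul_of_nonneg_right μ1 n0.le
  have F1 : n - ∑ u ∈ T, q u ≤ 23 / 200000 * n := by linarith
  obtain ⟨g, hg⟩ : ∃ g : V → ℝ, ∀ u, g u =
      y u ^ 2 * (r * ∑ j ∈ T, ∑ k ∈ T, A u j * A u k * (A j k - gr w j k) ^ 2) := ⟨_, fun _ => rfl⟩
  have g0 : ∀ u, 0 ≤ ∑ j ∈ T, ∑ k ∈ T, A u j * A u k * (A j k - gr w j k) ^ 2 := fun u =>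
    sum_nonneg fun _ _ => sum_nonneg fun _ _ =>
      mul_nonneg (mul_nonneg (a0 _ _) (a0 _ _)) (sq_nonneg _)
  have F2 : ∑ u ∈ T, g u ≤ (1 / 200000) ^ 2 * n := by
    have b1 : θ ^ 2 * ∑ u ∈ T, g u ≤
        r * ∑ u ∈ T, ∑ j ∈ T, ∑ k ∈ T, A u j * A u k * (A j k - gr w j k) ^ 2 := by
      rw [mul_sum, mul_sum]
      refine sum_le_sum fun u hu => ?_
      have d1 : (θ * y u) ^ 2 ≤ 1 := by nlinarith [y2 u hu, mul_pos θ0 (y0 u hu)]
      rw [hg]
      nlinarith [mul_le_mul_of_nonneg_right d1 (mul_nonneg (by linarith : 0 ≤ r) (g0 u))]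
    have b2 : ∑ u ∈ T, ∑ j ∈ T, ∑ k ∈ T, A u j * A u k * (A j k - gr w j k) ^ 2 ≤ K * θ * D := by
      rw [sum3, hD, mul_sum]
      refine sum_le_sum fun j hj => ?_
      rw [mul_sum]
      refine sum_le_sum fun k _ => ?_
      rw [← sum_mul]
      refine mul_le_mul_of_nonneg_right ((sum_le_sum fun u _ => ?_).trans (hi j hj)) (sq_nonneg _)
      rw [hs j u]
      nlinarith [a0 u j, a1 u k]
    refine le_of_mul_le_mul_left (b1.trans ?_) (sq_pos_of_pos θ0)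
    have b3 := mul_le_mul_of_nonneg_left (b2.trans (by
      nlinarith [mul_le_mul_of_nonneg_left KD θ0.le] : K * θ * D ≤ μ * (n * θ ^ 2)))
      (by linarith : 0 ≤ r)
    nlinarith [mul_le_mul_of_nonneg_right hlam (by positivity : 0 ≤ n * θ ^ 2)]
  have F3 : ∑ _u ∈ T, (1 : ℝ) ≤ ∑ u ∈ T, (4000 * (1 - q u) + 40000 * g u) := by
    refine sum_le_sum fun u hu => ?_
    by_contra h
    have d0 : 0 < ∑ j ∈ T, A u j := θ0.trans_le (lo u hu)
    have c0 : 0 ≤ g u := by rw [hg]; exact mul_nonneg (sq_nonneg _) (mul_nonneg (by linarith) (g0 u))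
    have c1 := q1 u hu
    have c2 : y u ^ 2 * (∑ j ∈ T, A u j) ^ 2 = 1 := by rw [← mul_pow, y1 u hu, one_pow]
    have c3 : 0 < y u ^ 2 := sq_pos_of_pos (y0 u hu)
    refine nbhd T w A hA hs r hr hr1 tur u _ rfl d0 (le_of_mul_le_mul_left ?_ c3)
      (le_of_mul_le_mul_left ?_ c3)
    · rw [mul_sub, ← hq, ← mul_div_assoc, c2]
      linarith [not_le.1 h]
    · rw [← hg, ← mul_div_assoc, c2]
      linarith [not_le.1 h]
  simp only [sum_add_distrib, ← mul_sum, sum_sub_distrib, cst] at F3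
  linarith

end Pool.Agent.P.MP_416653_co.Wk
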