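import Pool.Agent.P.MP_416653_co.WkE

/-! Reduction to degrees in a bounded ratio by dyadic classes and peeling. -/

namespace Pool.Agent.P.MP_416653_co.Wk

open Finset

variable {V ι : Type} [Fintype ι]

theorem nn_fiber (T : Finset V) (w : V → ι → ℝ) (c : V → ℕ) (L : ℕ)
    (hc : ∀ i ∈ T, c i ∈ range L) :
    ∑ i ∈ T, ∑ j ∈ T, gr w i j ^ 2 ≤ L * ∑ k ∈ range L,
      ∑ i ∈ T.filter (fun i => c i = k), ∑ j ∈ T.filter (fun i => c i = k), gr w i j ^ 2 := by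
  simp only [sq_gr']
  rw [sum_comm (s := range L), mul_sum]
  refine sum_le_sum fun a _ => ?_
  rw [sum_comm (s := range L), mul_sum]
  refine sum_le_sum fun b _ => ?_
  rw [← sum_fiberwise_of_maps_to hc]
  simpa using sq_sum_le_card_mul_sum_sq (s := range L)
    (f := fun k => ∑ i ∈ T.filter (fun i => c i = k), w i a * w i b)

theorem sub_le2 {S T : Finset V} (h : S ⊆ T) (g : V → V → ℝ) (g0 : ∀ i j, 0 ≤ g i j) :
    ∑ i ∈ S, ∑ j ∈ S, g i j ≤ ∑ i ∈ T, ∑ j ∈ T, g i j :=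
  (sum_le_sum fun i _ => sum_le_sum_of_subset_of_nonneg h fun j _ _ => g0 i j).trans
    (sum_le_sum_of_subset_of_nonneg h fun i _ _ => sum_nonneg fun j _ => g0 i j)

theorem fiber_le (T : Finset V) (g : V → V → ℝ) (g0 : ∀ i j, 0 ≤ g i j) (c : V → ℕ) (L : ℕ)
    (hc : ∀ i ∈ T, c i ∈ range L) :
    ∑ k ∈ range L, ∑ i ∈ T.filter (fun i => c i = k), ∑ j ∈ T.filter (fun i => c i = k), g i j ≤
      ∑ i ∈ T, ∑ j ∈ T, g i j := by
  rw [← sum_fiberwise_of_maps_to hc (fun i => ∑ j ∈ T, g i j)]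
  exact sum_le_sum fun k _ => sum_le_sum fun i _ =>
    sum_le_sum_of_subset_of_nonneg (filter_subset _ _) fun j _ _ => g0 i j

theorem nn_le (T : Finset V) (w : V → ι → ℝ) (A : V → V → ℝ) (hA : ∀ i j, A i j = 0 ∨ A i j = 1) :
    ∑ i ∈ T, ∑ j ∈ T, gr w i j ^ 2 ≤
      2 * ∑ i ∈ T, ∑ j ∈ T, A i j + 2 * ∑ i ∈ T, ∑ j ∈ T, (A i j - gr w i j) ^ 2 := by
  simp only [mul_sum, ← sum_add_distrib]
  refine sum_le_sum fun i _ => sum_le_sum fun j _ => ?_
  rcases hA i j with h | h <;> rw [h] <;> nlinarith [sq_nonneg (gr w i j), sq_nonneg (gr w i j - 2)]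

theorem ed_le (T : Finset V) (w : V → ι → ℝ) (A : V → V → ℝ) (hA : ∀ i j, A i j = 0 ∨ A i j = 1) :
    ∑ i ∈ T, ∑ j ∈ T, A i j ≤
      2 * ∑ i ∈ T, ∑ j ∈ T, gr w i j ^ 2 + 2 * ∑ i ∈ T, ∑ j ∈ T, (A i j - gr w i j) ^ 2 := by
  simp only [mul_sum, ← sum_add_distrib]
  refine sum_le_sum fun i _ => sum_le_sum fun j _ => ?_
  rcases hA i j with h | h <;> rw [h] <;>
    nlinarith [sq_nonneg (gr w i j), sq_nonneg (2 * gr w i j - 1)]

theorem peel (W : Finset V) (A : V → V → ℝ) (a0 : ∀ i j, 0 ≤ A i j) (hs : ∀ i j, A i j = A j i)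
    (θ : ℝ) : ∃ T ⊆ W, (∀ i ∈ T, θ ≤ ∑ j ∈ T, A i j) ∧
      ∑ i ∈ W, ∑ j ∈ W, A i j - 2 * θ * W.card ≤ ∑ i ∈ T, ∑ j ∈ T, A i j - 2 * θ * T.card := by
  classical
  obtain ⟨T, hT, hm⟩ := exists_max_image W.powerset
    (fun T => ∑ i ∈ T, ∑ j ∈ T, A i j - 2 * θ * T.card) ⟨W, mem_powerset_self W⟩
  rw [mem_powerset] at hT
  refine ⟨T, hT, fun u hu => ?_, hm W (mem_powerset_self W)⟩
  have h := hm (T.erase u) (mem_powerset.2 ((erase_subset _ _).trans hT))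
  have c1 : ((T.erase u).card : ℝ) = T.card - 1 := by
    rw [← card_erase_add_one hu]
    push_cast
    ring
  have e1 : ∑ i ∈ T.erase u, ∑ j ∈ T.erase u, A i j =
      ∑ i ∈ T, ∑ j ∈ T, A i j - 2 * ∑ j ∈ T, A u j + A u u := by
    simp only [sum_erase_eq_sub hu, sum_sub_distrib]
    have : ∑ i ∈ T, A i u = ∑ j ∈ T, A u j := sum_congr rfl fun i _ => hs i u
    rw [this]
    ring
  simp only [c1, e1] at h
  linarith [a0 u u]

theorem window [Fintype V] (w : V → ι → ℝ) (A : V → V → ℝ) (hA : ∀ i j, A i j = 0 ∨ A i j = 1)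
    (hs : ∀ i j, A i j = A j i) (r : ℝ) (hr : Fintype.card ι ≤ r) (hr1 : 1 ≤ r)
    (tur : ∀ S : Finset V, (S.card : ℝ) ^ 2 ≤ r * ∑ i ∈ S, ∑ j ∈ S, (1 - A i j))
    (L : ℕ) (hL : 100 * r ≤ 2 ^ L) :
    1 / 10 ^ 18 * ∑ i, ∑ j, A i j ≤ (r * L ^ 3) * ∑ i, ∑ j, (A i j - gr w i j) ^ 2 := by
  classical
  have a0 : ∀ i j, 0 ≤ A i j := fun i j => by rcases hA i j with h | h <;> simp [h]
  have a1 : ∀ i j, A i j ≤ 1 := fun i j => by rcases hA i j with h | h <;> simp [h]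
  obtain ⟨D, hD⟩ : ∃ D, D = ∑ i, ∑ j, (A i j - gr w i j) ^ 2 := ⟨_, rfl⟩
  obtain ⟨M, hM⟩ : ∃ M, M = ∑ i, ∑ j, A i j := ⟨_, rfl⟩
  have D0 : 0 ≤ D := hD ▸ sum_nonneg fun _ _ => sum_nonneg fun _ _ => sq_nonneg _
  have DT : ∀ T : Finset V, ∑ i ∈ T, ∑ j ∈ T, (A i j - gr w i j) ^ 2 ≤ D := fun T =>
    hD ▸ sub_le2 (subset_univ T) _ fun _ _ => sq_nonneg _
  have dT : ∀ (T : Finset V) i, ∑ j ∈ T, A i j ≤ ∑ j, A i j := fun T i =>
    sum_le_sum_of_subset_of_nonneg (subset_univ T) fun j _ _ => a0 i j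
  have L1 : (1 : ℝ) ≤ L := by
    rcases L with _ | L
    · norm_num at hL
      linarith
    · push_cast
      linarith [Nat.cast_nonneg (α := ℝ) L]
  have r0 : 0 < r := by linarith
  have L0 : (0 : ℝ) < L := by linarith
  rw [← hD, ← hM]
  by_contra hlt
  rw [not_le] at hlt
  have q1 : (L : ℝ) ≤ r * L ^ 3 := by
    have : (1 : ℝ) ≤ L ^ 2 := one_le_pow₀ L1
    have : 1 ≤ r * L ^ 2 := by nlinarith
    nlinarith
  have DL : L * D ≤ 1 / 10 ^ 18 * M := by nlinarith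
  have D1 : D ≤ 1 / 10 ^ 18 * M := by nlinarith
  have M0 : 0 < M := by nlinarith [mul_nonneg (L0.le.trans q1) D0]
  obtain ⟨s, s0, hs2⟩ : ∃ s : ℝ, 0 < s ∧ s ^ 2 = M := ⟨√M, Real.sqrt_pos.2 M0, Real.sq_sqrt M0.le⟩
  obtain ⟨a, ha⟩ : ∃ a, a = s / (10 * r) := ⟨_, rfl⟩
  have ap : 0 < a := by rw [ha]; positivity
  have ar : a * r = s / 10 := by rw [ha]; field_simp
  have h3 : ∀ i, ∃ c : ℕ, c ∈ range 3 ∧ (c = 0 → ∑ j, A i j ≤ a) ∧ (c = 1 → 10 * s ≤ ∑ j, A i j) ∧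
      (c = 2 → a ≤ ∑ j, A i j ∧ ∑ j, A i j < 10 * s) := fun i => by
    by_cases h : ∑ j, A i j ≤ a
    · exact ⟨0, by simp, fun _ => h, by simp, by simp⟩
    by_cases h' : 10 * s ≤ ∑ j, A i j
    · exact ⟨1, by simp, by simp, fun _ => h', by simp⟩
    · exact ⟨2, by simp, by simp, by simp, fun _ => ⟨(not_le.1 h).le, not_le.1 h'⟩⟩
  choose c hc c0 c1 c2 using h3
  have n1 := nn_fiber univ w c 3 fun i _ => hc i
  simp only [sum_range_succ, sum_range_zero, zero_add] at n1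
  have n2 := ed_le univ w A hA
  have n3 := gram_le (univ.filter fun i => c i = 0) w A hA hs r hr hr1 a
    fun i hi => (dT _ i).trans (c0 i (mem_filter.1 hi).2)
  have n4 := nn_le (univ.filter fun i => c i = 1) w A hA
  have n5 : ∑ i ∈ univ.filter (fun i => c i = 1), ∑ j ∈ univ.filter (fun i => c i = 1), A i j ≤
      M / 100 := by
    obtain ⟨H, hH⟩ : ∃ H, H = univ.filter fun i => c i = 1 := ⟨_, rfl⟩
    rw [← hH]
    have b1 : ∑ i ∈ H, ∑ j ∈ H, A i j ≤ (H.card : ℝ) ^ 2 := by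
      refine (sum_le_sum fun i _ => sum_le_sum fun j _ => a1 i j).trans ?_
      simp [sq]
    have b2 : H.card * (10 * s) ≤ M := by
      rw [hM, ← nsmul_eq_mul]
      refine (card_nsmul_le_sum H (fun i => ∑ j, A i j) _ fun i hi => ?_).trans
        (sum_le_sum_of_subset_of_nonneg (subset_univ H) fun i _ _ => sum_nonneg fun j _ => a0 i j)
      rw [hH] at hi
      exact c1 i (mem_filter.1 hi).2
    have b3 : (H.card : ℝ) ≤ s / 10 := by
      refine le_of_mul_le_mul_right (a := 10 * s) ?_ (by positivity)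
      nlinarith
    have b4 : (0 : ℝ) ≤ H.card := Nat.cast_nonneg _
    nlinarith
  have n6 : a ^ 2 * r ≤ M / 100 := by
    have : a ^ 2 * r * 1 ≤ a ^ 2 * r * r := by gcongr
    have e : a ^ 2 * r * r = (a * r) ^ 2 := by ring
    rw [e, ar] at this
    nlinarith
  obtain ⟨U, hU⟩ : ∃ U, U = univ.filter fun i => c i = 2 := ⟨_, rfl⟩
  rw [← hU] at n1
  have n7 : M / 10 ≤ ∑ i ∈ U, ∑ j ∈ U, gr w i j ^ 2 := by
    have := DT (univ.filter fun i => c i = 0)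
    have := DT (univ.filter fun i => c i = 1)
    rw [← hD, ← hM] at n2
    push_cast at n1
    nlinarith
  have hU2 : ∀ i ∈ U, a ≤ ∑ j, A i j ∧ ∑ j, A i j < 10 * s := fun i hi => by
    rw [hU] at hi
    exact c2 i (mem_filter.1 hi).2
  have h4 : ∀ i, ∃ k : ℕ, i ∈ U → k ∈ range L ∧ a * 2 ^ k ≤ ∑ j, A i j ∧
      ∑ j, A i j ≤ 2 * (a * 2 ^ k) := fun i => by
    by_cases hi : i ∈ U
    · obtain ⟨k, k1, k2⟩ := exists_nat_pow_near (x := (∑ j, A i j) / a) (y := 2)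
        ((one_le_div ap).2 (hU2 i hi).1) (by norm_num)
      rw [le_div_iff₀ ap] at k1
      rw [div_lt_iff₀ ap, pow_succ] at k2
      refine ⟨k, fun _ => ⟨?_, by linarith, by linarith⟩⟩
      rw [mem_range, ← pow_lt_pow_iff_right₀ (a := (2 : ℝ)) (by norm_num)]
      refine lt_of_mul_lt_mul_right (a := a) ?_ ap.le
      nlinarith [(hU2 i hi).2]
    · exact ⟨0, fun h => absurd h hi⟩
  choose g hg using h4
  have m1 := nn_fiber U w g L fun i hi => (hg i hi).1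
  have m2 := (fiber_le U (fun i j => (A i j - gr w i j) ^ 2) (fun _ _ => sq_nonneg _) g L
    fun i hi => (hg i hi).1).trans (DT U)
  have m3 : ∑ k ∈ range L, ∑ i ∈ U.filter (fun i => g i = k), ∑ j, A i j ≤ M := by
    rw [sum_fiberwise_of_maps_to (fun i hi => (hg i hi).1), hM]
    exact sum_le_sum_of_subset_of_nonneg (subset_univ U) fun i _ _ => sum_nonneg fun j _ => a0 i j
  obtain ⟨ρ, hρ⟩ : ∃ ρ : ℝ, ρ = 2 * (504 * L) ^ 2 * r * 200000 ^ 2 := ⟨_, rfl⟩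
  have ρ0 : 0 < ρ := by rw [hρ]; positivity
  have ex : ∃ k ∈ range L, (∑ i ∈ U.filter (fun i => g i = k), ∑ j, A i j) / (63 * L) +
      ρ * ∑ i ∈ U.filter (fun i => g i = k), ∑ j ∈ U.filter (fun i => g i = k),
        (A i j - gr w i j) ^ 2 <
      ∑ i ∈ U.filter (fun i => g i = k), ∑ j ∈ U.filter (fun i => g i = k), A i j := by
    by_contra hn
    simp only [not_exists, not_and, not_lt] at hn
    have p1 := sum_le_sum hn
    rw [sum_add_distrib, ← sum_div, ← mul_sum] at p1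
    have p2 := sum_le_sum fun k (_ : k ∈ range L) => nn_le (U.filter fun i => g i = k) w A hA
    rw [sum_add_distrib, ← mul_sum, ← mul_sum] at p2
    have p3 := mul_le_mul_of_nonneg_left m2 ρ0.le
    have p4 := div_le_div_of_nonneg_right m3 (c := 63 * (L : ℝ)) (by positivity)
    have p5 : L * (M / (63 * L)) = M / 63 := by field_simp
    have p6 : L * (ρ * D) = 2 * 504 ^ 2 * 200000 ^ 2 * (r * L ^ 3 * D) := by rw [hρ]; ring
    have p7 := mul_le_mul_of_nonneg_left (p2.trans (by linarith :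
      _ ≤ 2 * (M / (63 * L) + ρ * D) + 2 * D)) L0.le
    nlinarith
  obtain ⟨k, -, hk⟩ := ex
  obtain ⟨W, hW⟩ : ∃ W, W = U.filter fun i => g i = k := ⟨_, rfl⟩
  rw [← hW] at hk
  obtain ⟨b, hb⟩ : ∃ b, b = a * 2 ^ k := ⟨_, rfl⟩
  have b0 : 0 < b := by rw [hb]; positivity
  have hWb : ∀ i ∈ W, b ≤ ∑ j, A i j ∧ ∑ j, A i j ≤ 2 * b := fun i hi => by
    rw [hW, mem_filter] at hi
    rw [hb, ← hi.2]
    exact (hg i hi.1).2
  obtain ⟨θ, hθ⟩ : ∃ θ, θ = b / (252 * L) := ⟨_, rfl⟩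
  have θ0 : 0 < θ := by rw [hθ]; positivity
  have t1 : 4 * θ * W.card ≤ (∑ i ∈ W, ∑ j, A i j) / (63 * L) := by
    have := card_nsmul_le_sum W (fun i => ∑ j, A i j) b fun i hi => (hWb i hi).1
    rw [nsmul_eq_mul] at this
    have e : 4 * θ * W.card = W.card * b / (63 * L) := by rw [hθ]; field_simp; ring
    rw [e]
    exact div_le_div_of_nonneg_right this (by positivity)
  obtain ⟨T, hT, lo, hE⟩ := peel W A a0 hs θ
  have t2 := sub_le2 hT (fun i j => (A i j - gr w i j) ^ 2) fun _ _ => sq_nonneg _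
  have t3 : 0 ≤ ∑ i ∈ W, ∑ j ∈ W, (A i j - gr w i j) ^ 2 :=
    sum_nonneg fun _ _ => sum_nonneg fun _ _ => sq_nonneg _
  have t4 : 0 ≤ θ * W.card := by positivity
  have t5 : 0 ≤ θ * T.card := by positivity
  have t6 := mul_nonneg ρ0.le t3
  refine ratio T w A hA hs r hr hr1 tur θ (504 * L) (2 / ρ) θ0 (by linarith) ?_ lo
    (fun i hi => (dT T i).trans ((hWb i (hT hi)).2.trans_eq ?_)) (by positivity) ?_ ?_
  · rw [nonempty_iff_ne_empty]
    rintro rfl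
    simp only [sum_empty, card_empty, Nat.cast_zero] at hE
    linarith
  · rw [hθ]
    field_simp
    ring
  · rw [div_mul_eq_mul_div, le_div_iff₀ ρ0]
    nlinarith [mul_le_mul_of_nonneg_left t2 ρ0.le]
  · rw [hρ]
    field_simp
    norm_num

end Pool.Agent.P.MP_416653_co.Wk
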