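import Pool.Agent.P.MP_416653_co.WkF

/-! The spectral form. -/

namespace Pool.Agent.P.MP_416653_co.Wk

open Finset

theorem defect_eq {V ι : Type} [Fintype ι] [Fintype V] [DecidableEq ι] (A : V → V → ℝ)
    (hA : ∀ i j, A i j = 0 ∨ A i j = 1) (u : ι → V → ℝ) (l : ι → ℝ) (l0 : ∀ k, 0 ≤ l k)
    (orth : ∀ k m, ∑ i, u k i * u m i = if k = m then 1 else 0)
    (eig : ∀ k i, ∑ j, A i j * u k j = l k * u k i) :
    ∑ i, ∑ j, (A i j - gr (fun i k => √(l k) * u k i) i j) ^ 2 =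
      ∑ i, ∑ j, A i j - ∑ k, l k ^ 2 := by
  have h0 : ∀ k m, ∑ i, √(l k) * u k i * (√(l m) * u m i) = if k = m then l k else 0 := by
    intro k m
    have : ∑ i, √(l k) * u k i * (√(l m) * u m i) = √(l k) * √(l m) * ∑ i, u k i * u m i := by
      rw [mul_sum]
      exact sum_congr rfl fun _ _ => by ring
    rw [this, orth]
    split_ifs with h
    · rw [← h, Real.mul_self_sqrt (l0 k), mul_one]
    · simp
  have h1 : ∑ i, ∑ j, gr (fun i k => √(l k) * u k i) i j ^ 2 = ∑ k, l k ^ 2 := by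
    rw [sq_gr']
    simp [h0]
  have h2 : ∑ i, ∑ j, A i j * gr (fun i k => √(l k) * u k i) i j = ∑ k, l k ^ 2 := by
    have e : ∀ i, ∑ j, A i j * gr (fun i k => √(l k) * u k i) i j =
        ∑ k, l k ^ 2 * (u k i * u k i) := fun i => by
      simp only [gr, mul_sum]
      rw [sum_comm]
      refine sum_congr rfl fun k _ => ?_
      have : ∑ j, A i j * (√(l k) * u k i * (√(l k) * u k j)) =
          √(l k) * √(l k) * u k i * ∑ j, A i j * u k j := by
        rw [mul_sum]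
        exact sum_congr rfl fun _ _ => by ring
      rw [this, eig, Real.mul_self_sqrt (l0 k)]
      ring
    simp only [e]
    rw [sum_comm]
    simp [← mul_sum, orth]
  have h3 : ∀ i j, (A i j - gr (fun i k => √(l k) * u k i) i j) ^ 2 = A i j -
      2 * (A i j * gr (fun i k => √(l k) * u k i) i j) + gr (fun i k => √(l k) * u k i) i j ^ 2 :=
    fun i j => by rcases hA i j with h | h <;> rw [h] <;> ring
  simp only [h3, sum_add_distrib, sum_sub_distrib, ← mul_sum, h1, h2]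
  ring

theorem sum_adj {V : Type} [Fintype V] (G : SimpleGraph V) [DecidableRel G.Adj] :
    ∑ i, ∑ j, G.adjMatrix ℝ i j = 2 * (G.edgeFinset.card : ℝ) := by
  have h := congrArg (Nat.cast : ℕ → ℝ) G.sum_degrees_eq_twice_card_edges
  push_cast at h
  rw [← h]
  refine sum_congr rfl fun i _ => ?_
  simp [SimpleGraph.adjMatrix_apply, SimpleGraph.degree, SimpleGraph.neighborFinset_eq_filter]

theorem turan {V : Type} [DecidableEq V] (G : SimpleGraph V) [DecidableRel G.Adj] (ω : ℕ)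
    (h1 : 1 ≤ ω) (h : G.CliqueFree (ω + 1)) (S : Finset V) :
    (S.card : ℝ) ^ 2 ≤ ω * ∑ i ∈ S, ∑ j ∈ S, (1 - G.adjMatrix ℝ i j) := by
  let H : SimpleGraph S := G.comap (Function.Embedding.subtype _)
  have hH : H.CliqueFree (ω + 1) := h.comap (SimpleGraph.Embedding.comap _ G).isContained
  have e1 := hH.card_edgeFinset_le
  simp only [← SimpleGraph.card_edgeFinset_turanGraph] at e1
  have e2 := (Nat.mul_le_mul_left (2 * ω) e1).trans SimpleGraph.mul_card_edgeFinset_turanGraph_le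
  rw [Fintype.card_coe] at e2
  have e3 : (2 * ω * H.edgeFinset.card : ℝ) ≤ (ω - 1) * S.card ^ 2 := by
    have : ((ω - 1 : ℕ) : ℝ) = ω - 1 := by rw [Nat.cast_sub h1, Nat.cast_one]
    rw [← this]
    exact_mod_cast e2
  have e4 : ∑ i ∈ S, ∑ j ∈ S, G.adjMatrix ℝ i j = 2 * (H.edgeFinset.card : ℝ) := by
    rw [← sum_adj, ← sum_coe_sort S]
    refine sum_congr rfl fun i _ => ?_
    rw [← sum_coe_sort S]
    refine sum_congr rfl fun j _ => ?_
    rw [SimpleGraph.adjMatrix_apply, SimpleGraph.adjMatrix_apply]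
    exact if_congr Iff.rfl rfl rfl
  simp only [sum_sub_distrib, e4, sum_const, nsmul_eq_mul]
  nlinarith

theorem log_bound (ω : ℕ) (h1 : 1 ≤ ω) : ∃ L : ℕ, 100 * (ω : ℝ) ≤ 2 ^ L ∧
    (L : ℝ) ≤ 12 * Real.log (2 * ω) := by
  have w1 : (1 : ℝ) ≤ ω := by exact_mod_cast h1
  obtain ⟨k, k1, k2⟩ := exists_nat_pow_near (x := (ω : ℝ)) (y := 2) w1 (by norm_num)
  refine ⟨k + 8, ?_, ?_⟩
  · rw [pow_succ] at k2
    rw [pow_add]
    linarith
  · have a := Real.log_le_log (by positivity) k1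
    rw [Real.log_pow] at a
    have b := Real.log_two_gt_d9
    have c := Real.log_nonneg w1
    rw [Real.log_mul (by norm_num) (by positivity)]
    push_cast
    nlinarith [Nat.cast_nonneg (α := ℝ) k]

theorem main (V : Type) [Fintype V] [DecidableEq V] (G : SimpleGraph V) [DecidableRel G.Adj]
    (hA : (G.adjMatrix ℝ).IsHermitian) (ω : ℕ)
    (hω : ∀ (k : ℕ) (s : Finset V), G.IsNClique k s → k ≤ ω) (S : Finset V) (hS : S.card ≤ ω)
    (hp : ∀ i ∈ S, 0 < hA.eigenvalues i) :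
    ∑ i ∈ S, hA.eigenvalues i ^ 2 ≤
      2 * (1 - 1 / (10 ^ 22 * (ω : ℝ) * Real.log (2 * ω) ^ 3)) * (Nat.card G.edgeSet : ℝ) := by
  have hm : (Nat.card G.edgeSet : ℝ) = G.edgeFinset.card := by
    rw [Nat.card_eq_fintype_card, SimpleGraph.edgeFinset_card]
  rcases Nat.eq_zero_or_pos ω with rfl | h1
  · rw [card_eq_zero.1 (Nat.le_zero.1 hS)]
    simp
  have w1 : (1 : ℝ) ≤ ω := by exact_mod_cast h1
  obtain ⟨L, hL, hL2⟩ := log_bound ω h1
  have a01 : ∀ i j, G.adjMatrix ℝ i j = 0 ∨ G.adjMatrix ℝ i j = 1 := fun i j => by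
    by_cases h : G.Adj i j <;> simp [h]
  have key := window (fun i (k : S) => √(hA.eigenvalues k) * hA.eigenvectorBasis k i)
    (G.adjMatrix ℝ) a01 (fun i j => by simp [SimpleGraph.adjMatrix_apply, G.adj_comm]) ω
    (by rw [Fintype.card_coe]; exact_mod_cast hS) w1
    (turan G ω h1 fun s hs => by have := hω _ s hs; omega) L hL
  rw [defect_eq (G.adjMatrix ℝ) a01 (fun (k : S) i => hA.eigenvectorBasis k i)
    (fun k : S => hA.eigenvalues k) (fun k => (hp k k.2).le) (fun k m => ?_) (fun k i => ?_),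
    sum_adj, sum_coe_sort S (fun k => hA.eigenvalues k ^ 2), ← hm] at key
  · have lp : 0 < Real.log (2 * ω) := Real.log_pos (by linarith)
    have m0 : (0 : ℝ) ≤ Nat.card G.edgeSet := Nat.cast_nonneg _
    obtain ⟨X, hX⟩ : ∃ X, X = 10 ^ 22 * (ω : ℝ) * Real.log (2 * ω) ^ 3 := ⟨_, rfl⟩
    have X0 : 0 < X := by rw [hX]; positivity
    have L3 : (L : ℝ) ^ 3 ≤ (12 * Real.log (2 * ω)) ^ 3 := by gcongr
    have L4 : 10 ^ 18 * ((ω : ℝ) * L ^ 3) ≤ X := by
      rw [hX]
      nlinarith [mul_le_mul_of_nonneg_left L3 (by linarith : (0 : ℝ) ≤ ω),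
        mul_pos (by linarith : (0 : ℝ) < ω) (pow_pos lp 3)]
    rw [← hX]
    obtain ⟨D, hD⟩ : ∃ D, D = 2 * (Nat.card G.edgeSet : ℝ) - ∑ i ∈ S, hA.eigenvalues i ^ 2 :=
      ⟨_, rfl⟩
    rw [← hD] at key
    have L0 : 0 < (ω : ℝ) * L ^ 3 := by
      rcases L with _ | L
      · norm_num at hL
        linarith
      · positivity
    have D0 : 0 ≤ D := by
      by_contra hn
      nlinarith [mul_pos L0 (neg_pos.2 (not_le.1 hn))]
    have : 2 * (Nat.card G.edgeSet : ℝ) / X ≤ D := by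
      rw [div_le_iff₀ X0]
      nlinarith [mul_le_mul_of_nonneg_right L4 D0]
    have e : 2 * (1 - 1 / X) * (Nat.card G.edgeSet : ℝ) =
        2 * Nat.card G.edgeSet - 2 * Nat.card G.edgeSet / X := by ring
    linarith
  · have := orthonormal_iff_ite.1 hA.eigenvectorBasis.orthonormal (k : V) (m : V)
    rw [EuclideanSpace.inner_eq_star_dotProduct] at this
    simp only [Subtype.val_inj] at this
    rw [← this]
    simp [dotProduct, mul_comm]
  · have := congrFun (hA.mulVec_eigenvectorBasis k) i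
    simpa only [Matrix.mulVec, dotProduct, Pi.smul_apply, smul_eq_mul] using this

end Pool.Agent.P.MP_416653_co.Wk
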