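import Pool.Agent.P.MP_416653_co.WkB

/-! One global projection with quadratic forms that depend on the row. -/

namespace Pool.Agent.P.MP_416653_co.Wk

open Finset Matrix

variable {ι : Type} [Fintype ι]

theorem opn {V : Type} (T : Finset V) (w : V → ι → ℝ) (lam : ℝ) (l0 : 0 ≤ lam)
    (h : ∀ v : V → ℝ, ∑ i ∈ T, ∑ j ∈ T, v i * v j * gr w i j ≤ lam * ∑ i ∈ T, v i ^ 2)
    (x : ι → ℝ) : ∑ j ∈ T, (∑ k, w j k * x k) ^ 2 ≤ lam * ∑ k, x k ^ 2 := by
  obtain ⟨v, hv⟩ : ∃ v : V → ℝ, ∀ j, v j = ∑ k, w j k * x k := ⟨_, fun _ => rfl⟩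
  simp only [← hv]
  have h1 := h v
  rw [← quad_gr] at h1
  have h2 : ∑ k, x k * ∑ j ∈ T, v j * w j k = ∑ j ∈ T, v j ^ 2 := by
    simp only [mul_sum]
    rw [sum_comm]
    refine sum_congr rfl fun j _ => ?_
    calc ∑ k, x k * (v j * w j k) = v j * ∑ k, w j k * x k := by
          rw [mul_sum]
          exact sum_congr rfl fun _ _ => by ring
      _ = v j ^ 2 := by rw [← hv, sq]
  have h3 := sum_mul_sq_le_sq_mul_sq univ x fun k => ∑ j ∈ T, v j * w j k
  rw [h2] at h3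
  have X0 : 0 ≤ ∑ k, x k ^ 2 := sum_nonneg fun _ _ => sq_nonneg _
  have h4 := h3.trans (mul_le_mul_of_nonneg_left h1 X0)
  have h5 := mul_nonneg l0 X0
  by_contra hn
  nlinarith [not_le.1 hn]

theorem diamond2 {U : Type} [Fintype U] (w : U → ι → ℝ) (A : U → U → ℝ)
    (hA : ∀ i j, A i j = 0 ∨ A i j = 1) (J : U → Finset U) (l : U → ℝ) (lam ξ ν : ℝ)
    (l0 : ∀ i, 0 ≤ l i) (l1 : ∀ i, l i ≤ lam) (hl : 0 ≤ lam) (hξ : 0 ≤ ξ) (hν : 0 ≤ ν)
    (hq : ∀ i (x : ι → ℝ), ∑ j ∈ J i, (∑ k, w j k * x k) ^ 2 ≤ l i * ∑ k, x k ^ 2)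
    (h1 : Fintype.card ι * ∑ i, ∑ j, (A i j - gr w i j) ^ 2 ≤ ξ ^ 2)
    (h2 : ∑ i, ∑ j, gr w i j ^ 2 ≤ ν ^ 2) :
    ∑ i, ∑ j ∈ J i, gr w j i ^ 2 ≤ 3 * ∑ i, l i + 4 * (lam * ξ) + 4 * (ν * ξ) := by
  classical
  choose s s0 s1 s2 s3 using fun i => exists_scale (gr w i i) (gr_self_nonneg w i)
  set D := ∑ i, ∑ j, (A i j - gr w i j) ^ 2 with hD
  let W : Matrix U ι ℝ := Matrix.of fun i l => w i l * s i
  let Ψ : Matrix U (ι × ι) ℝ := Matrix.of fun i p => w i p.1 * W i p.2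
  obtain ⟨E, hs, hi, hW, ht⟩ := exists_proj W
  have hWW : ∀ i j, (W * Wᵀ) i j = s i * s j * gr w i j := by
    intro i j
    simp only [mul_apply, transpose_apply, W, of_apply, gr, mul_sum]
    exact sum_congr rfl fun _ _ => by ring
  have hΨ : ∀ i j, (Ψ * Ψᵀ) i j = gr w i j * (s i * s j * gr w i j) := by
    intro i j
    rw [← hWW]
    simp only [mul_apply, transpose_apply, Ψ, of_apply, gr, Fintype.sum_prod_type, sum_mul_sum]
    exact sum_congr rfl fun _ _ => sum_congr rfl fun _ _ => by ring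
  set M := Ψ * Ψᵀ - W * Wᵀ with hM
  have hMD : fro M ≤ 4 * D := by
    rw [hD, fro, mul_sum]
    refine sum_le_sum fun i _ => ?_
    rw [mul_sum]
    refine sum_le_sum fun j _ => ?_
    have a1 : |s i * s j * gr w i j| ≤ 1 := by
      have := abs_gr_le (fun i l => w i l * s i) i j
      have e : ∀ i j, gr (fun i l => w i l * s i) i j = s i * s j * gr w i j := fun i j => by
        simp only [gr, mul_sum]
        exact sum_congr rfl fun _ _ => by ring
      rw [e, e, e] at this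
      nlinarith [s2 i, s2 j]
    have a2 : 0 ≤ s i * s j := mul_nonneg (s0 i) (s0 j)
    have a3 : s i * s j ≤ 1 := mul_le_one₀ (s1 i) (s0 j) (s1 j)
    rw [hM, Matrix.sub_apply, hΨ, hWW]
    obtain ⟨a4, a5⟩ := abs_le.1 a1
    set q := s i * s j
    set p := gr w i j
    rcases hA i j with h | h <;> rw [h]
    · have : (q * p - q) ^ 2 ≤ 4 := by nlinarith
      nlinarith [sq_nonneg p]
    · have : (q * p) ^ 2 ≤ 1 := by nlinarith
      nlinarith [sq_nonneg (1 - p)]
  have hr : (0 : ℝ) ≤ Fintype.card ι := Nat.cast_nonneg _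
  let Φ : Matrix U (ι × ι) ℝ → ℝ := fun X => ∑ i, ∑ m, ∑ j ∈ J i, (∑ k, w j k * X i (k, m)) ^ 2
  have hsplit : Φ Ψ ≤ 2 * Φ (E * Ψ) + 2 * Φ ((1 - E) * Ψ) := by
    simp only [Φ, mul_sum (a := (2 : ℝ)), ← sum_add_distrib]
    refine sum_le_sum fun i _ => sum_le_sum fun m _ => sum_le_sum fun j _ => ?_
    have e : ∑ k, w j k * Ψ i (k, m) = ∑ k, w j k * (E * Ψ) i (k, m) +
        ∑ k, w j k * (((1 : Matrix U U ℝ) - E) * Ψ) i (k, m) := by
      rw [← sum_add_distrib]
      refine sum_congr rfl fun k _ => ?_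
      rw [Matrix.sub_mul, Matrix.one_mul, Matrix.sub_apply]
      ring
    rw [e]
    generalize ∑ k, w j k * (E * Ψ) i (k, m) = a
    generalize ∑ k, w j k * (((1 : Matrix U U ℝ) - E) * Ψ) i (k, m) = b
    nlinarith [sq_nonneg (a - b)]
  have hΦ : Φ Ψ = ∑ i, s i ^ 2 * gr w i i * ∑ j ∈ J i, gr w j i ^ 2 := by
    refine sum_congr rfl fun i _ => ?_
    have e : ∀ m j, (∑ k, w j k * Ψ i (k, m)) ^ 2 = s i ^ 2 * (w i m * w i m) * gr w j i ^ 2 := by
      intro m j
      have : ∑ k, w j k * Ψ i (k, m) = gr w j i * (w i m * s i) := by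
        simp only [Ψ, W, of_apply, gr, sum_mul]
        exact sum_congr rfl fun _ _ => by ring
      rw [this]
      ring
    simp only [e, ← mul_sum, ← sum_mul]
    rfl
  have p1 : Φ (E * Ψ) ≤ ∑ i, l i + 2 * (lam * ξ) := by
    have b1 : Φ (E * Ψ) ≤ trace (diagonal l * (E * Ψ * (E * Ψ)ᵀ)) := by
      refine sum_le_sum fun i _ => ?_
      refine (sum_le_sum fun m _ => hq i fun k => (E * Ψ) i (k, m)).trans_eq ?_
      rw [Matrix.diag, diagonal_mul, mul_apply, Fintype.sum_prod_type, ← mul_sum, sum_comm]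
      simp only [transpose_apply, sq]
    have b2 : trace (diagonal l * (E * Ψ * (E * Ψ)ᵀ)) =
        trace (diagonal l * (W * Wᵀ)) + trace (E * (diagonal l * E) * M) := by
      have c1 : E * Ψ * (E * Ψ)ᵀ = W * Wᵀ + E * M * E := by
        have c0 : Wᵀ * E = Wᵀ := by rw [← hs, ← transpose_mul, hW]
        rw [transpose_mul, hs, hM, Matrix.mul_sub, Matrix.sub_mul, ← Matrix.mul_assoc E W, hW,
          Matrix.mul_assoc W, c0]
        simp only [Matrix.mul_assoc]
        abel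
      rw [c1, Matrix.mul_add, trace_add, ← Matrix.mul_assoc (diagonal l) (E * M),
        trace_mul_comm _ E]
      simp only [Matrix.mul_assoc]
    have b3 : trace (diagonal l * (W * Wᵀ)) ≤ ∑ i, l i := by
      refine sum_le_sum fun i _ => ?_
      rw [Matrix.diag, diagonal_mul, hWW, ← sq]
      nlinarith [s2 i, l0 i]
    have b4 : trace (E * (diagonal l * E) * M) ≤ 2 * (lam * ξ) := by
      obtain ⟨F, hF⟩ : ∃ F, F = E * (diagonal l * E) := ⟨_, rfl⟩
      have c3 : fro F ≤ lam ^ 2 * Fintype.card ι := by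
        have d1 : fro F ≤ fro (diagonal l * E) := by
          have := fro_nonneg ((1 - E) * (diagonal l * E))
          rw [fro_eq (diagonal l * E), gram_split E hs hi, trace_add, ← fro_eq, ← fro_eq, hF]
          linarith
        have d2 : fro (diagonal l * E) ≤ lam ^ 2 * fro E := by
          simp only [fro, mul_sum, diagonal_mul, mul_pow]
          exact sum_le_sum fun i _ => sum_le_sum fun j _ =>
            mul_le_mul_of_nonneg_right (pow_le_pow_left₀ (l0 i) (l1 i) 2) (sq_nonneg _)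
        have d3 : fro E ≤ Fintype.card ι := by rw [fro_eq, hs, hi]; exact ht
        exact d1.trans (d2.trans (mul_le_mul_of_nonneg_left d3 (sq_nonneg _)))
      rw [← hF]
      refine le_of_sq_le (by positivity) ?_
      have c1 : trace (F * M) = ∑ p : U × U, F p.1 p.2 * Mᵀ p.1 p.2 := by
        simp [trace, mul_apply, Fintype.sum_prod_type]
      have c2 := sum_mul_sq_le_sq_mul_sq univ (fun p : U × U => F p.1 p.2) fun p => Mᵀ p.1 p.2
      rw [Fintype.sum_prod_type (f := fun p : U × U => F p.1 p.2 ^ 2),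
        Fintype.sum_prod_type (f := fun p : U × U => Mᵀ p.1 p.2 ^ 2)] at c2
      have c4 : fro Mᵀ ≤ 4 * D := by rw [fro_transpose]; exact hMD
      have c5 : fro F * fro Mᵀ ≤ lam ^ 2 * Fintype.card ι * (4 * D) :=
        mul_le_mul c3 c4 (fro_nonneg _) (by positivity)
      rw [c1]
      refine c2.trans (le_trans c5 ?_)
      nlinarith [mul_le_mul_of_nonneg_left h1 (sq_nonneg lam)]
    linarith
  have p2 : Φ ((1 - E) * Ψ) ≤ 2 * (ν * ξ) := by
    obtain ⟨Y, hY⟩ : ∃ Y, Y = (1 - E) * Ψ := ⟨_, rfl⟩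
    obtain ⟨B, hB⟩ : ∃ B : ι → ι → ℝ, ∀ k m, B k m = ∑ j, w j k * w j m := ⟨_, fun _ _ => rfl⟩
    rw [← hY]
    have b1 : Φ Y ≤ ∑ l, ∑ k, ∑ k', B k k' * (Yᵀ * Y) (k, l) (k', l) := by
      rw [← bil_gram]
      refine sum_le_sum fun i _ => sum_le_sum fun m _ =>
        (sum_le_sum_of_subset_of_nonneg (subset_univ _) fun _ _ _ => sq_nonneg _).trans_eq ?_
      simp only [sq, sum_mul_sum]
      simp only [hB, sum_mul]
      rw [sum_comm]
      refine sum_congr rfl fun k _ => ?_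
      rw [sum_comm]
      exact sum_congr rfl fun _ _ => sum_congr rfl fun _ _ => by ring
    have b2 : fro (Yᵀ * Y) ≤ 4 * D := by
      have c1 : fro (Yᵀ * Y) = fro (Y * Yᵀ) := by
        rw [fro_eq, fro_eq, transpose_mul, transpose_mul, transpose_transpose, Matrix.mul_assoc,
          trace_mul_comm]
        simp only [Matrix.mul_assoc]
      have c0 : (1 - E) * W = 0 := by rw [Matrix.sub_mul, Matrix.one_mul, hW, sub_self]
      have c2 : Y * Yᵀ = (1 - E) * ((1 - E) * Mᵀ)ᵀ := by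
        rw [transpose_mul, transpose_transpose, hM, Matrix.sub_mul (Ψ * Ψᵀ),
          Matrix.mul_sub (1 - E), Matrix.mul_assoc W, ← Matrix.mul_assoc (1 - E) W, c0,
          Matrix.zero_mul, sub_zero, hY, transpose_mul]
        simp only [Matrix.mul_assoc]
      rw [c1, c2]
      refine (fro_proj_le E hs hi _).trans ?_
      rw [fro_transpose]
      refine (fro_proj_le E hs hi _).trans ?_
      rw [fro_transpose]
      exact hMD
    refine b1.trans (le_of_sq_le (by positivity) ?_)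
    have c2 := sum_mul_sq_le_sq_mul_sq univ (fun p : ι × ι × ι => B p.2.1 p.2.2)
      fun p => (Yᵀ * Y) (p.2.1, p.1) (p.2.2, p.1)
    simp only [Fintype.sum_prod_type, sum_const, card_univ, nsmul_eq_mul] at c2
    have c3 : ∑ l, ∑ k, ∑ k', (Yᵀ * Y) (k, l) (k', l) ^ 2 ≤ fro (Yᵀ * Y) := by
      rw [fro, Fintype.sum_prod_type, sum_comm]
      refine sum_le_sum fun l _ => sum_le_sum fun k _ => ?_
      rw [Fintype.sum_prod_type]
      exact sum_le_sum fun k' _ => single_le_sum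
        (f := fun l' => (Yᵀ * Y) (l, k) (k', l') ^ 2) (fun _ _ => sq_nonneg _) (mem_univ _)
    have c4 : 0 ≤ ∑ k, ∑ l, B k l ^ 2 := sum_nonneg fun _ _ => sum_nonneg fun _ _ => sq_nonneg _
    have c5 : ∑ k, ∑ l, B k l ^ 2 ≤ ν ^ 2 := by
      simp only [hB]
      rw [← sq_gr']
      exact h2
    have c6 : 0 ≤ Fintype.card ι * D :=
      mul_nonneg hr (sum_nonneg fun _ _ => sum_nonneg fun _ _ => sq_nonneg _)
    refine c2.trans ((mul_le_mul_of_nonneg_left (c3.trans b2) (mul_nonneg hr c4)).trans ?_)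
    nlinarith [mul_le_mul c5 h1 c6 (sq_nonneg ν)]
  have p3 : ∑ i, ∑ j ∈ J i, gr w j i ^ 2 ≤
      ∑ i, (l i + s i ^ 2 * gr w i i * ∑ j ∈ J i, gr w j i ^ 2) := by
    refine sum_le_sum fun i _ => ?_
    have a1 : ∑ j ∈ J i, gr w j i ^ 2 ≤ l i * gr w i i := by simpa [gr, sq] using hq i (w i)
    have a2 := s3 i _ le_rfl
    have a3 : 0 ≤ s i ^ 2 * gr w i i := mul_nonneg (sq_nonneg _) (gr_self_nonneg w i)
    have a4 := s2 i
    generalize s i ^ 2 * gr w i i = σ at *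
    nlinarith [mul_le_mul_of_nonneg_left a1 (sub_nonneg.2 a4),
      mul_le_mul_of_nonneg_left a2 (l0 i), mul_nonneg (l0 i) a3]
  rw [sum_add_distrib] at p3
  linarith

end Pool.Agent.P.MP_416653_co.Wk
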