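import Pool.Agent.P.MP_416653_co.WkG
import Pool.Agent.P.MP_416653_co.WkH

/-! Reduction to degrees in a bounded ratio without the logarithmic loss. -/

namespace Pool.Agent.P.MP_416653_co.Wk

open Finset

variable {V ι : Type} [Fintype ι]

theorem finish [Fintype V] (w : V → ι → ℝ) (A : V → V → ℝ) (hA : ∀ i j, A i j = 0 ∨ A i j = 1)
    (hs : ∀ i j, A i j = A j i) (r : ℝ) (hr : Fintype.card ι ≤ r) (hr1 : 1 ≤ r)
    (tur : ∀ S : Finset V, (S.card : ℝ) ^ 2 ≤ r * ∑ i ∈ S, ∑ j ∈ S, (1 - A i j))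
    (D M : ℝ) (hD : D = ∑ i, ∑ j, (A i j - gr w i j) ^ 2) (hM : M = ∑ i, ∑ j, A i j)
    (hlt : 10 ^ 30 * (r * D) < M) (U : Finset V) (g : V → ℕ) (β : ℕ → ℝ) (β0 : ∀ k, 0 < β k)
    (hg : ∀ i ∈ U, β (g i) ≤ ∑ j, A i j ∧ ∑ j, A i j ≤ 512 ^ 2 * β (g i)) :
    ∑ i ∈ U, ∑ j ∈ U, (if g j = g i then gr w i j ^ 2 else 0) < M / 40 := by
  classical
  have a0 : ∀ i j, 0 ≤ A i j := fun i j => by rcases hA i j with h | h <;> simp [h]
  have D0 : 0 ≤ D := hD ▸ sum_nonneg fun _ _ => sum_nonneg fun _ _ => sq_nonneg _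
  have DT : ∀ T : Finset V, ∑ i ∈ T, ∑ j ∈ T, (A i j - gr w i j) ^ 2 ≤ D := fun T =>
    hD ▸ sub_le2 (subset_univ T) _ fun _ _ => sq_nonneg _
  have dT : ∀ (T : Finset V) i, ∑ j ∈ T, A i j ≤ ∑ j, A i j := fun T i =>
    sum_le_sum_of_subset_of_nonneg (subset_univ T) fun j _ _ => a0 i j
  have r0 : 0 < r := by linarith
  have Dr : D ≤ r * D := by nlinarith
  obtain ⟨L, hL⟩ : ∃ L, ∀ i ∈ U, g i ∈ range L :=
    ⟨U.sup g + 1, fun i hi => mem_range.2 (Nat.lt_succ_of_le (le_sup hi))⟩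
  have m1 : ∑ i ∈ U, ∑ j ∈ U, (if g j = g i then gr w i j ^ 2 else 0) = ∑ k ∈ range L,
      ∑ i ∈ U.filter (fun i => g i = k), ∑ j ∈ U.filter (fun i => g i = k), gr w i j ^ 2 := by
    rw [← sum_fiberwise_of_maps_to hL]
    refine sum_congr rfl fun k _ => sum_congr rfl fun i hi => ?_
    rw [sum_filter, (mem_filter.1 hi).2]
  rw [m1]
  by_contra hge
  rw [not_lt] at hge
  have m2 := (fiber_le U (fun i j => (A i j - gr w i j) ^ 2) (fun _ _ => sq_nonneg _) g L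
    hL).trans (DT U)
  have m3 : ∑ k ∈ range L, ∑ i ∈ U.filter (fun i => g i = k), ∑ j, A i j ≤ M := by
    rw [sum_fiberwise_of_maps_to hL, hM]
    exact sum_le_sum_of_subset_of_nonneg (subset_univ U) fun i _ _ => sum_nonneg fun j _ => a0 i j
  obtain ⟨ρ, hρ⟩ : ∃ ρ : ℝ, ρ = 2 * (1000 * 512 ^ 2) ^ 2 * r * 200000 ^ 2 := ⟨_, rfl⟩
  have ρ0 : 0 < ρ := by rw [hρ]; positivity
  have ex : ∃ k ∈ range L, (∑ i ∈ U.filter (fun i => g i = k), ∑ j, A i j) / 250 +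
      ρ * ∑ i ∈ U.filter (fun i => g i = k), ∑ j ∈ U.filter (fun i => g i = k),
        (A i j - gr w i j) ^ 2 <
      ∑ i ∈ U.filter (fun i => g i = k), ∑ j ∈ U.filter (fun i => g i = k), A i j := by
    by_contra hn
    simp only [not_exists, not_and, not_lt] at hn
    have p1 := sum_le_sum hn
    rw [sum_add_distrib, ← sum_div, ← mul_sum] at p1
    have p2 := sum_le_sum fun k (_ : k ∈ range L) => nn_le (U.filter fun i => g i = k) w A hA
    rw [sum_add_distrib, ← mul_sum, ← mul_sum] at p2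
    have p3 := mul_le_mul_of_nonneg_left m2 ρ0.le
    have p6 : ρ * D = 2 * (1000 * 512 ^ 2) ^ 2 * 200000 ^ 2 * (r * D) := by rw [hρ]; ring
    linarith
  obtain ⟨k, -, hk⟩ := ex
  obtain ⟨W, hW⟩ : ∃ W, W = U.filter fun i => g i = k := ⟨_, rfl⟩
  rw [← hW] at hk
  obtain ⟨b, hb⟩ : ∃ b, b = β k := ⟨_, rfl⟩
  have b0 : 0 < b := hb ▸ β0 k
  have hWb : ∀ i ∈ W, b ≤ ∑ j, A i j ∧ ∑ j, A i j ≤ 512 ^ 2 * b := fun i hi => by
    rw [hW, mem_filter] at hi
    rw [hb, ← hi.2]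
    exact hg i hi.1
  obtain ⟨θ, hθ⟩ : ∃ θ, θ = b / 1000 := ⟨_, rfl⟩
  have θ0 : 0 < θ := by rw [hθ]; positivity
  have t1 : 4 * θ * W.card ≤ (∑ i ∈ W, ∑ j, A i j) / 250 := by
    have := card_nsmul_le_sum W (fun i => ∑ j, A i j) b fun i hi => (hWb i hi).1
    rw [nsmul_eq_mul] at this
    rw [hθ]
    linarith
  obtain ⟨T, hT, lo, hE⟩ := peel W A a0 hs θ
  have t2 := sub_le2 hT (fun i j => (A i j - gr w i j) ^ 2) fun _ _ => sq_nonneg _
  have t3 : 0 ≤ ∑ i ∈ W, ∑ j ∈ W, (A i j - gr w i j) ^ 2 :=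
    sum_nonneg fun _ _ => sum_nonneg fun _ _ => sq_nonneg _
  have t4 : 0 ≤ θ * W.card := by positivity
  have t5 : 0 ≤ θ * T.card := by positivity
  have t6 := mul_nonneg ρ0.le t3
  refine ratio T w A hA hs r hr hr1 tur θ (1000 * 512 ^ 2) (2 / ρ) θ0 (by norm_num) ?_ lo
    (fun i hi => (dT T i).trans ((hWb i (hT hi)).2.trans_eq ?_)) (by positivity) ?_ ?_
  · rw [nonempty_iff_ne_empty]
    rintro rfl
    simp only [sum_empty, card_empty, Nat.cast_zero] at hE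
    linarith
  · rw [hθ]
    ring
  · rw [div_mul_eq_mul_div, le_div_iff₀ ρ0]
    nlinarith [mul_le_mul_of_nonneg_left t2 ρ0.le]
  · rw [hρ]
    field_simp
    norm_num

theorem window2 [Fintype V] (w : V → ι → ℝ) (A : V → V → ℝ) (hA : ∀ i j, A i j = 0 ∨ A i j = 1)
    (hs : ∀ i j, A i j = A j i) (r : ℝ) (hr : Fintype.card ι ≤ r) (hr1 : 1 ≤ r)
    (tur : ∀ S : Finset V, (S.card : ℝ) ^ 2 ≤ r * ∑ i ∈ S, ∑ j ∈ S, (1 - A i j)) :
    ∑ i, ∑ j, A i j ≤ 10 ^ 30 * (r * ∑ i, ∑ j, (A i j - gr w i j) ^ 2) := by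
  classical
  have a0 : ∀ i j, 0 ≤ A i j := fun i j => by rcases hA i j with h | h <;> simp [h]
  have a1 : ∀ i j, A i j ≤ 1 := fun i j => by rcases hA i j with h | h <;> simp [h]
  obtain ⟨D, hD⟩ : ∃ D, D = ∑ i, ∑ j, (A i j - gr w i j) ^ 2 := ⟨_, rfl⟩
  obtain ⟨M, hM⟩ : ∃ M, M = ∑ i, ∑ j, A i j := ⟨_, rfl⟩
  have D0 : 0 ≤ D := hD ▸ sum_nonneg fun _ _ => sum_nonneg fun _ _ => sq_nonneg _
  have DT : ∀ T : Finset V, ∑ i ∈ T, ∑ j ∈ T, (A i j - gr w i j) ^ 2 ≤ D := fun T =>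
    hD ▸ sub_le2 (subset_univ T) _ fun _ _ => sq_nonneg _
  have dT : ∀ (T : Finset V) i, ∑ j ∈ T, A i j ≤ ∑ j, A i j := fun T i =>
    sum_le_sum_of_subset_of_nonneg (subset_univ T) fun j _ _ => a0 i j
  have d0 : ∀ i, 0 ≤ ∑ j, A i j := fun i => sum_nonneg fun j _ => a0 i j
  have r0 : 0 < r := by linarith
  rw [← hD, ← hM]
  by_contra hlt
  rw [not_le] at hlt
  have Dr : D ≤ r * D := by nlinarith
  have M0 : 0 < M := by linarith
  obtain ⟨s, s0, hs2⟩ : ∃ s : ℝ, 0 < s ∧ s ^ 2 = M := ⟨√M, Real.sqrt_pos.2 M0, Real.sq_sqrt M0.le⟩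
  obtain ⟨a, ap, n6⟩ : ∃ a : ℝ, 0 < a ∧ a ^ 2 * r = M / 100 :=
    ⟨√(M / (100 * r)), Real.sqrt_pos.2 (by positivity), by
      rw [Real.sq_sqrt (by positivity)]; field_simp⟩
  have h3 : ∀ i, ∃ c : ℕ, c ∈ range 3 ∧ (c = 0 → ∑ j, A i j ≤ a) ∧ (c = 1 → 10 * s ≤ ∑ j, A i j) ∧
      (c = 2 → a ≤ ∑ j, A i j ∧ ∑ j, A i j < 10 * s) := fun i => by
    by_cases h : ∑ j, A i j ≤ a
    · exact ⟨0, by simp, fun _ => h, by simp, by simp⟩
    by_cases h' : 10 * s ≤ ∑ j, A i j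
    · exact ⟨1, by simp, by simp, fun _ => h', by simp⟩
    · exact ⟨2, by simp, by simp, by simp, fun _ => ⟨(not_le.1 h).le, not_le.1 h'⟩⟩
  choose c hc c0 c1 c2 using h3
  have n1 := nn_fiber univ w c 3 fun i _ => hc i
  simp only [sum_range_succ, sum_range_zero, zero_add] at n1
  have n2 := ed_le univ w A hA
  have n3 := gram_le (univ.filter fun i => c i = 0) w A hA hs r hr hr1 a
    fun i hi => (dT _ i).trans (c0 i (mem_filter.1 hi).2)
  have n4 := nn_le (univ.filter fun i => c i = 1) w A hA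
  have n5 : ∑ i ∈ univ.filter (fun i => c i = 1), ∑ j ∈ univ.filter (fun i => c i = 1), A i j ≤
      M / 100 := by
    obtain ⟨H, hH⟩ : ∃ H, H = univ.filter fun i => c i = 1 := ⟨_, rfl⟩
    rw [← hH]
    have b1 : ∑ i ∈ H, ∑ j ∈ H, A i j ≤ (H.card : ℝ) ^ 2 := by
      refine (sum_le_sum fun i _ => sum_le_sum fun j _ => a1 i j).trans ?_
      simp [sq]
    have b2 : H.card * (10 * s) ≤ M := by
      rw [hM, ← nsmul_eq_mul]
      refine (card_nsmul_le_sum H (fun i => ∑ j, A i j) _ fun i hi => ?_).trans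
        (sum_le_sum_of_subset_of_nonneg (subset_univ H) fun i _ _ => d0 i)
      rw [hH] at hi
      exact c1 i (mem_filter.1 hi).2
    have b3 : (H.card : ℝ) ≤ s / 10 := by
      refine le_of_mul_le_mul_right (a := 10 * s) ?_ (by positivity)
      nlinarith
    have b4 : (0 : ℝ) ≤ H.card := Nat.cast_nonneg _
    nlinarith
  obtain ⟨U, hU⟩ : ∃ U, U = univ.filter fun i => c i = 2 := ⟨_, rfl⟩
  rw [← hU] at n1
  have n7 : M / 10 ≤ ∑ i ∈ U, ∑ j ∈ U, gr w i j ^ 2 := by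
    have := DT (univ.filter fun i => c i = 0)
    have := DT (univ.filter fun i => c i = 1)
    rw [← hD, ← hM] at n2
    push_cast at n1
    linarith
  have hU2 : ∀ i ∈ U, a ≤ ∑ j, A i j ∧ ∑ j, A i j < 10 * s := fun i hi => by
    rw [hU] at hi
    exact c2 i (mem_filter.1 hi).2
  clear n1 n2 n3 n4 n5 hU hc c0 c1 c2
  obtain ⟨d, hd⟩ : ∃ d : V → ℝ, ∀ i, d i = ∑ j, A i j := ⟨_, fun _ => rfl⟩
  have Da : D ≤ (a / 512) ^ 2 := le_of_mul_le_mul_right (a := r) (by linarith) r0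
  have h5 : ∀ i, ∃ l : ℝ, 0 ≤ l ∧ l ≤ s / 25 ∧ l ≤ d i / 256 ∧ ∀ x : ι → ℝ,
      ∑ j ∈ U.filter (fun j => i ∈ U ∧ 512 * d j ≤ d i), (∑ k, w j k * x k) ^ 2 ≤
        l * ∑ k, x k ^ 2 := fun i => by
    have e0 := d0 i
    by_cases hi : i ∈ U
    · obtain ⟨e1, e2⟩ := hU2 i hi
      rw [← hd] at e0 e1 e2
      refine ⟨2 * (d i / 512), by linarith, by linarith, by linarith,
        opn _ w _ (by linarith) (quad_le _ w A hA hs _ (by linarith) (fun j hj => ?_)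
          ((DT _).trans (Da.trans (by gcongr))))⟩
      have := (mem_filter.1 hj).2.2
      refine (dT _ j).trans ?_
      rw [← hd]
      linarith
    · rw [← hd] at e0
      exact ⟨0, le_rfl, by linarith, by linarith, fun x => by simp [hi]⟩
  choose l l0 l1 l2 hq using h5
  have dia := diamond2 w A hA _ l (s / 25) (s / 10 ^ 6) (2 * s) l0 l1 (by positivity)
    (by positivity) (by positivity) hq
    (by rw [← hD]; linarith [mul_le_mul_of_nonneg_right hr D0])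
    (by have := nn_le univ w A hA; rw [← hD, ← hM] at this; linarith)
  have sl : ∑ i, l i ≤ M / 256 := by
    rw [hM, sum_div]
    exact sum_le_sum fun i _ => hd i ▸ l2 i
  have cr : ∑ i ∈ U, ∑ j ∈ U, (if i ∈ U ∧ 512 * d j ≤ d i then gr w j i ^ 2 else 0) ≤ M / 40 := by
    simp only [← sum_filter]
    refine (sum_le_sum_of_subset_of_nonneg (subset_univ U) fun i _ _ =>
      sum_nonneg fun j _ => sq_nonneg _).trans (dia.trans ?_)
    linarith
  have h4 : ∀ i, ∃ k : ℕ, i ∈ U → a * 512 ^ k ≤ d i ∧ d i < a * 512 ^ (k + 1) := fun i => by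
    by_cases hi : i ∈ U
    · obtain ⟨k, k1, k2⟩ := exists_nat_pow_near (x := d i / a) (y := 512)
        ((one_le_div ap).2 (hd i ▸ (hU2 i hi).1)) (by norm_num)
      rw [le_div_iff₀ ap] at k1
      rw [div_lt_iff₀ ap] at k2
      exact ⟨k, fun _ => ⟨by linarith, by linarith⟩⟩
    · exact ⟨0, fun h => absurd h hi⟩
  choose g hg using h4
  have fin : ∀ e : ℕ, ∑ i ∈ U, ∑ j ∈ U,
      (if (g j + e) / 2 = (g i + e) / 2 then gr w i j ^ 2 else 0) < M / 40 := fun e => by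
    refine finish w A hA hs r hr hr1 tur D M hD hM hlt U (fun i => (g i + e) / 2)
      (fun k => a * 512 ^ (2 * k) / 512 ^ e) (fun k => by positivity) fun i hi => ?_
    obtain ⟨k1, k2⟩ := hg i hi
    have e0 : (0 : ℝ) < 512 ^ e := by positivity
    have e1 : (512 : ℝ) ^ (2 * ((g i + e) / 2)) ≤ 512 ^ (g i + e) :=
      pow_le_pow_right₀ (by norm_num) (by omega)
    have e2 : (512 : ℝ) ^ (g i + 1 + e) ≤ 512 ^ (2 + 2 * ((g i + e) / 2)) :=
      pow_le_pow_right₀ (by norm_num) (by omega)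
    rw [pow_add] at e1
    rw [pow_add, pow_add _ 2] at e2
    rw [← hd, div_le_iff₀ e0, ← mul_div_assoc, le_div_iff₀ e0]
    exact ⟨by nlinarith [mul_le_mul_of_nonneg_right k1 e0.le, mul_le_mul_of_nonneg_left e1 ap.le],
      by nlinarith [mul_le_mul_of_nonneg_right k2.le e0.le, mul_le_mul_of_nonneg_left e2 ap.le]⟩
  have nr : ∀ i ∈ U, ∀ j ∈ U, ¬ 512 * d j ≤ d i → g i < g j + 2 := fun i hi j hj h => by
    rw [← pow_lt_pow_iff_right₀ (a := (512 : ℝ)) (by norm_num)]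
    refine lt_of_mul_lt_mul_left (a := a) ?_ ap.le
    have := (hg i hi).1
    have := (hg j hj).2
    rw [pow_succ]
    linarith [not_le.1 h]
  have tot : ∑ i ∈ U, ∑ j ∈ U, gr w i j ^ 2 ≤ ∑ i ∈ U, ∑ j ∈ U,
      ((if i ∈ U ∧ 512 * d j ≤ d i then gr w j i ^ 2 else 0) +
        (if j ∈ U ∧ 512 * d i ≤ d j then gr w i j ^ 2 else 0) +
        (if (g j + 0) / 2 = (g i + 0) / 2 then gr w i j ^ 2 else 0) +
        (if (g j + 1) / 2 = (g i + 1) / 2 then gr w i j ^ 2 else 0)) := by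
    refine sum_le_sum fun i hi => sum_le_sum fun j hj => ?_
    have e0 := sq_nonneg (gr w i j)
    have e1 : (i ∈ U ∧ 512 * d j ≤ d i) ∨ (j ∈ U ∧ 512 * d i ≤ d j) ∨
        (g j + 0) / 2 = (g i + 0) / 2 ∨ (g j + 1) / 2 = (g i + 1) / 2 := by
      by_contra hn
      simp only [not_or] at hn
      have := nr i hi j hj fun h => hn.1 ⟨hi, h⟩
      have := nr j hj i hi fun h => hn.2.1 ⟨hj, h⟩
      omega
    rw [gr_symm w j i]
    split_ifs <;> first | linarith | tauto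
  simp only [sum_add_distrib] at tot
  rw [sum_comm (f := fun i j => if j ∈ U ∧ 512 * d i ≤ d j then gr w i j ^ 2 else 0)] at tot
  linarith [fin 0, fin 1]

theorem main2 (V : Type) [Fintype V] [DecidableEq V] (G : SimpleGraph V) [DecidableRel G.Adj]
    (hA : (G.adjMatrix ℝ).IsHermitian) (ω : ℕ)
    (hω : ∀ (k : ℕ) (s : Finset V), G.IsNClique k s → k ≤ ω) (S : Finset V) (hS : S.card ≤ ω)
    (hp : ∀ i ∈ S, 0 < hA.eigenvalues i) :
    ∑ i ∈ S, hA.eigenvalues i ^ 2 ≤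
      2 * (1 - 1 / (10 ^ 30 * (ω : ℝ))) * (Nat.card G.edgeSet : ℝ) := by
  have hm : (Nat.card G.edgeSet : ℝ) = G.edgeFinset.card := by
    rw [Nat.card_eq_fintype_card, SimpleGraph.edgeFinset_card]
  rcases Nat.eq_zero_or_pos ω with rfl | h1
  · rw [card_eq_zero.1 (Nat.le_zero.1 hS)]
    simp
  have w1 : (1 : ℝ) ≤ ω := by exact_mod_cast h1
  have a01 : ∀ i j, G.adjMatrix ℝ i j = 0 ∨ G.adjMatrix ℝ i j = 1 := fun i j => by
    by_cases h : G.Adj i j <;> simp [h]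
  have key := window2 (fun i (k : S) => √(hA.eigenvalues k) * hA.eigenvectorBasis k i)
    (G.adjMatrix ℝ) a01 (fun i j => by simp [SimpleGraph.adjMatrix_apply, G.adj_comm]) ω
    (by rw [Fintype.card_coe]; exact_mod_cast hS) w1
    (turan G ω h1 fun s hs => by have := hω _ s hs; omega)
  rw [defect_eq (G.adjMatrix ℝ) a01 (fun (k : S) i => hA.eigenvectorBasis k i)
    (fun k : S => hA.eigenvalues k) (fun k => (hp k k.2).le) (fun k m => ?_) (fun k i => ?_),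
    sum_adj, sum_coe_sort S (fun k => hA.eigenvalues k ^ 2), ← hm] at key
  · have : 2 * (Nat.card G.edgeSet : ℝ) / (10 ^ 30 * ω) ≤
        2 * (Nat.card G.edgeSet : ℝ) - ∑ i ∈ S, hA.eigenvalues i ^ 2 := by
      rw [div_le_iff₀ (by positivity)]
      linarith
    have e : 2 * (1 - 1 / (10 ^ 30 * (ω : ℝ))) * (Nat.card G.edgeSet : ℝ) =
        2 * Nat.card G.edgeSet - 2 * Nat.card G.edgeSet / (10 ^ 30 * ω) := by ring
    linarith
  · have := orthonormal_iff_ite.1 hA.eigenvectorBasis.orthonormal (k : V) (m : V)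
    rw [EuclideanSpace.inner_eq_star_dotProduct] at this
    simp only [Subtype.val_inj] at this
    rw [← this]
    simp [dotProduct, mul_comm]
  · have := congrFun (hA.mulVec_eigenvectorBasis k) i
    simpa only [Matrix.mulVec, dotProduct, Pi.smul_apply, smul_eq_mul] using this

end Pool.Agent.P.MP_416653_co.Wk
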